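import Pool.Agent.MP_d9ba76_lc.Defs

/-! Automation for primitive recursive functions and closure properties of c.e. predicates. -/

set_option autoImplicit false

open Encodable

namespace Pool.Agent.MP_d9ba76_lc

variable {α β γ σ : Type} [Primcodable α] [Primcodable β] [Primcodable γ] [Primcodable σ]

attribute [fun_prop] Primrec

@[fun_prop] theorem pr_id : Primrec (fun x : α => x) := Primrec.id

@[fun_prop] theorem pr_const (s : σ) : Primrec (fun _ : α => s) := Primrec.const s

@[fun_prop] theorem pr_comp {f : β → σ} {g : α → β} (hf : Primrec f) (hg : Primrec g) :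
    Primrec fun a => f (g a) := hf.comp hg

@[fun_prop] theorem pr_pair {f : α → β} {g : α → γ} (hf : Primrec f) (hg : Primrec g) :
    Primrec fun a => (f a, g a) := hf.pair hg

@[fun_prop] theorem pr_fst {f : α → β × γ} (hf : Primrec f) : Primrec fun a => (f a).1 :=
  Primrec.fst.comp hf

@[fun_prop] theorem pr_snd {f : α → β × γ} (hf : Primrec f) : Primrec fun a => (f a).2 :=
  Primrec.snd.comp hf

@[fun_prop] theorem pr_add {f g : α → ℕ} (hf : Primrec f) (hg : Primrec g) :
    Primrec fun a => f a + g a := Primrec.nat_add.comp hf hg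

@[fun_prop] theorem pr_sub {f g : α → ℕ} (hf : Primrec f) (hg : Primrec g) :
    Primrec fun a => f a - g a := Primrec.nat_sub.comp hf hg

@[fun_prop] theorem pr_mul {f g : α → ℕ} (hf : Primrec f) (hg : Primrec g) :
    Primrec fun a => f a * g a := Primrec.nat_mul.comp hf hg

@[fun_prop] theorem pr_pow {f g : α → ℕ} (hf : Primrec f) (hg : Primrec g) :
    Primrec fun a => f a ^ g a :=
  Primrec₂.comp (f := fun a b : ℕ => a ^ b) (Primrec₂.unpaired'.1 Nat.Primrec.pow) hf hg

@[fun_prop] theorem pr_encode {f : α → β} (hf : Primrec f) : Primrec fun a => encode (f a) :=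
  Primrec.encode.comp hf

@[fun_prop] theorem pr_decode {f : α → ℕ} (hf : Primrec f) :
    Primrec fun a => (decode (f a) : Option β) := Primrec.decode.comp hf

@[fun_prop] theorem pr_some {f : α → β} (hf : Primrec f) : Primrec fun a => some (f a) :=
  Primrec.option_some.comp hf

@[fun_prop] theorem pr_optGetD {f : α → Option β} {g : α → β} (hf : Primrec f) (hg : Primrec g) :
    Primrec fun a => (f a).getD (g a) := Primrec.option_getD.comp hf hg

@[fun_prop] theorem pr_unpair {f : α → ℕ} (hf : Primrec f) : Primrec fun a => Nat.unpair (f a) :=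
  Primrec.unpair.comp hf

@[fun_prop] theorem pr_cons {f : α → β} {g : α → List β} (hf : Primrec f) (hg : Primrec g) :
    Primrec fun a => f a :: g a := Primrec.list_cons.comp hf hg

@[fun_prop] theorem pr_append {f g : α → List β} (hf : Primrec f) (hg : Primrec g) :
    Primrec fun a => f a ++ g a := Primrec.list_append.comp hf hg

@[fun_prop] theorem pr_length {f : α → List β} (hf : Primrec f) :
    Primrec fun a => (f a).length := Primrec.list_length.comp hf

@[fun_prop] theorem pr_range {f : α → ℕ} (hf : Primrec f) :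
    Primrec fun a => List.range (f a) := Primrec.list_range.comp hf

@[fun_prop] theorem pr_getD {f : α → List β} {g : α → ℕ} (d : β) (hf : Primrec f)
    (hg : Primrec g) : Primrec fun a => (f a).getD (g a) d := (Primrec.list_getD d).comp hf hg

@[fun_prop] theorem pr_map {f : α → List β} {g : α → β → σ} (hf : Primrec f)
    (hg : Primrec fun p : α × β => g p.1 p.2) : Primrec fun a => (f a).map (g a) :=
  Primrec.list_map hf hg

@[fun_prop] theorem pr_inl {f : α → β} (hf : Primrec f) :
    Primrec fun a => (Sum.inl (f a) : β ⊕ γ) := Primrec.sumInl.comp hf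

@[fun_prop] theorem pr_inr {f : α → γ} (hf : Primrec f) :
    Primrec fun a => (Sum.inr (f a) : β ⊕ γ) := Primrec.sumInr.comp hf

@[fun_prop] theorem pr_not {f : α → Bool} (hf : Primrec f) : Primrec fun a => !(f a) :=
  Primrec.not.comp hf

@[fun_prop] theorem pr_words {f : α → ℕ} (N : ℕ) (hf : Primrec f) :
    Primrec fun a => words N (f a) := by
  have h : Primrec (words N) := by
    have h1 : Primrec₂ fun (_ : ℕ) (W : List (List ℕ)) =>
        W.flatMap fun w => (List.range N).map fun j => j :: w :=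
      Primrec.list_flatMap (f := fun p : ℕ × List (List ℕ) => p.2)
        (g := fun _ w => (List.range N).map fun j => j :: w) Primrec.snd
        (by unfold Primrec₂; fun_prop)
    refine (Primrec.nat_rec₁ [[]] h1).of_eq fun n => ?_
    induction n with
    | zero => rfl
    | succ n ih => simp only [words, ← ih]
  exact h.comp hf

theorem pp_eq {f g : α → β} (hf : Primrec f) (hg : Primrec g) : PrimrecPred fun a => f a = g a :=
  Primrec.eq.comp hf hg

theorem pp_le {f g : α → ℕ} (hf : Primrec f) (hg : Primrec g) : PrimrecPred fun a => f a ≤ g a :=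
  Primrec.nat_le.comp hf hg

theorem pp_lt {f g : α → ℕ} (hf : Primrec f) (hg : Primrec g) : PrimrecPred fun a => f a < g a :=
  Primrec.nat_lt.comp hf hg

theorem pp_const (c : Prop) : PrimrecPred fun _ : α => c := by
  classical
  exact Primrec.primrecPred (Primrec.const (decide c))

theorem pp_all {p : α × β → Prop} (hp : PrimrecPred p) {l : α → List β} (hl : Primrec l) :
    PrimrecPred fun a => ∀ b ∈ l a, p (a, b) :=
  (PrimrecRel.forall_mem_list (R := fun (b : β) (a : α) => p (a, b))
    (hp.comp (by fun_prop))).comp hl Primrec.id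

theorem pp_any {p : α × β → Prop} (hp : PrimrecPred p) {l : α → List β} (hl : Primrec l) :
    PrimrecPred fun a => ∃ b ∈ l a, p (a, b) :=
  (PrimrecRel.exists_mem_list (R := fun (b : β) (a : α) => p (a, b))
    (hp.comp (by fun_prop))).comp hl Primrec.id

theorem pp_mem {f : α → β} {l : α → List β} (hf : Primrec f) (hl : Primrec l) :
    PrimrecPred fun a => f a ∈ l a :=
  (pp_any (p := fun p : α × β => p.2 = f p.1) (pp_eq (by fun_prop) (by fun_prop)) hl).of_eq
    fun a => by simp

theorem pp_sub {f g : α → List β} (hf : Primrec f) (hg : Primrec g) :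
    PrimrecPred fun a => ∀ b ∈ f a, b ∈ g a :=
  pp_all (p := fun p : α × β => p.2 ∈ g p.1) (pp_mem (by fun_prop) (by fun_prop)) hf

theorem CE.of_pred {p : α → Prop} (hp : PrimrecPred p) : CE p :=
  ⟨fun z => p z.1, hp.comp Primrec.fst, fun a => by simp⟩

theorem CE.congr {p q : α → Prop} (hp : CE p) (h : ∀ a, p a ↔ q a) : CE q := by
  rwa [← (funext fun a => propext (h a) : p = q)]

theorem CE.comp {p : β → Prop} (hp : CE p) {f : α → β} (hf : Primrec f) : CE fun a => p (f a) := by
  obtain ⟨q, hq, h⟩ := hp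
  exact ⟨fun z => q (f z.1, z.2), hq.comp (by fun_prop), fun a => h (f a)⟩

theorem CE.and {p q : α → Prop} (hp : CE p) (hq : CE q) : CE fun a => p a ∧ q a := by
  obtain ⟨p', hp', h⟩ := hp
  obtain ⟨q', hq', h'⟩ := hq
  refine ⟨fun z => p' (z.1, z.2.unpair.1) ∧ q' (z.1, z.2.unpair.2),
    (hp'.comp (by fun_prop)).and (hq'.comp (by fun_prop)), fun a => ?_⟩
  simp only [h, h']
  constructor
  · rintro ⟨⟨u, hu⟩, ⟨v, hv⟩⟩
    exact ⟨Nat.pair u v, by simpa using ⟨hu, hv⟩⟩
  · rintro ⟨w, hu, hv⟩
    exact ⟨⟨_, hu⟩, ⟨_, hv⟩⟩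

theorem CE.or {p q : α → Prop} (hp : CE p) (hq : CE q) : CE fun a => p a ∨ q a := by
  obtain ⟨p', hp', h⟩ := hp
  obtain ⟨q', hq', h'⟩ := hq
  refine ⟨fun z => p' z ∨ q' z, hp'.or hq', fun a => ?_⟩
  simp only [h, h', exists_or]

theorem CE.ex {p : α × β → Prop} (hp : CE p) : CE fun a => ∃ b, p (a, b) := by
  obtain ⟨p', hp', h⟩ := hp
  refine ⟨fun z => ∃ b ∈ (decode (α := β) z.2.unpair.1).toList, p' ((z.1, b), z.2.unpair.2),
    pp_any (p := fun y : (α × ℕ) × β => p' ((y.1.1, y.2), y.1.2.unpair.2))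
      (hp'.comp (by fun_prop)) (Primrec.optionToList.comp (by fun_prop)), fun a => ?_⟩
  constructor
  · rintro ⟨b, hb⟩
    obtain ⟨w, hw⟩ := (h _).1 hb
    exact ⟨Nat.pair (encode b) w, b, by simp, by simpa using hw⟩
  · rintro ⟨w, b, -, hb⟩
    exact ⟨b, (h _).2 ⟨_, hb⟩⟩

theorem CE.all {p : α × β → Prop} (hp : CE p) {l : α → List β} (hl : Primrec l) :
    CE fun a => ∀ b ∈ l a, p (a, b) := by
  obtain ⟨p', hp', h⟩ := hp
  refine ⟨fun z => ∀ b ∈ l z.1, ∃ w ∈ List.range z.2, p' ((z.1, b), w),
    pp_all (p := fun y : (α × ℕ) × β => ∃ w ∈ List.range y.1.2, p' ((y.1.1, y.2), w))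
      (pp_any (p := fun y : ((α × ℕ) × β) × ℕ => p' ((y.1.1.1, y.1.2), y.2))
        (hp'.comp (by fun_prop)) (by fun_prop)) (by fun_prop), fun a => ?_⟩
  constructor
  · intro H
    simp only at H ⊢
    generalize l a = L at H ⊢
    induction L with
    | nil => exact ⟨0, by simp⟩
    | cons b L ih =>
      obtain ⟨w, hw⟩ := ih fun c hc => H c (List.mem_cons_of_mem _ hc)
      obtain ⟨u, hu⟩ := (h _).1 (H b List.mem_cons_self)
      refine ⟨max w (u + 1), fun c hc => ?_⟩
      rcases List.mem_cons.1 hc with rfl | hc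
      · exact ⟨u, List.mem_range.2 (by omega), hu⟩
      · obtain ⟨v, hv, hv'⟩ := hw c hc
        exact ⟨v, List.mem_range.2 (by have := List.mem_range.1 hv; omega), hv'⟩
  · rintro ⟨w, hw⟩ b hb
    obtain ⟨v, -, hv⟩ := hw b hb
    exact (h _).2 ⟨v, hv⟩

end Pool.Agent.MP_d9ba76_lc
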