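import Pool.Agent.MP_d9ba76_lc.Defs

/-! Clopen sets, cells, density and maximal inequalities on `I → Bool`. -/

set_option autoImplicit false

open MeasureTheory
open scoped ENNReal symmDiff

namespace Pool.Agent.MP_d9ba76_lc

variable {I : Type} {π : ℕ → I}

/-- The first `s` bits of the code of `x`. -/
def cod (π : ℕ → I) (s : ℕ) (x : I → Bool) : List Bool := (List.range s).map fun i => x (π i)

theorem length_cod (s : ℕ) (x : I → Bool) : (cod π s x).length = s := by simp [cod]

theorem getD_cod {s i : ℕ} (hi : i < s) (x : I → Bool) :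
    (cod π s x).getD i false = x (π i) := by
  simp [cod, List.getD_eq_getElem?_getD, hi]

theorem mem_cell_bits {l : List Bool} {x : I → Bool} :
    x ∈ cell π l ↔ ∀ i < l.length, l.getD i false = x (π i) := by
  simp only [cell, Pre, enc, Set.mem_ofPred_eq]
  exact forall_congr' fun i => forall_congr' fun _ => Bool.eq_iff_iff.symm

theorem mem_cell_cod (s : ℕ) (x : I → Bool) : x ∈ cell π (cod π s x) := by
  rw [mem_cell_bits]
  intro i hi
  rw [length_cod] at hi
  exact getD_cod hi x

theorem eq_cod_of_mem_cell {l : List Bool} {x : I → Bool} (h : x ∈ cell π l) :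
    l = cod π l.length x := by
  rw [mem_cell_bits] at h
  refine List.ext_getElem (length_cod _ _).symm fun i h1 h2 => ?_
  have h3 := h i h1
  have h4 := getD_cod (π := π) h1 x
  rw [List.getD_eq_getElem _ _ h1] at h3
  rw [List.getD_eq_getElem _ _ h2] at h4
  rw [h3, h4]

theorem take_cod {s t : ℕ} (h : t ≤ s) (x : I → Bool) : (cod π s x).take t = cod π t x := by
  simp [cod, ← List.map_take, List.take_range, min_eq_left h]

theorem Clop.empty : Clop π ∅ := ⟨0, fun _ _ _ h => h⟩

theorem Clop.compl {K : Set (I → Bool)} (h : Clop π K) : Clop π Kᶜ := by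
  obtain ⟨s, hs⟩ := h
  exact ⟨s, fun x y hxy hx hy => hx (hs y x (fun n hn => (hxy n hn).symm) hy)⟩

theorem Clop.union {K L : Set (I → Bool)} (hK : Clop π K) (hL : Clop π L) : Clop π (K ∪ L) := by
  obtain ⟨s, hs⟩ := hK
  obtain ⟨t, ht⟩ := hL
  refine ⟨max s t, fun x y hxy hx => ?_⟩
  rcases hx with hx | hx
  · exact Or.inl (hs x y (fun n hn => hxy n (lt_max_of_lt_left hn)) hx)
  · exact Or.inr (ht x y (fun n hn => hxy n (lt_max_of_lt_right hn)) hx)

theorem Clop.inter {K L : Set (I → Bool)} (hK : Clop π K) (hL : Clop π L) : Clop π (K ∩ L) := by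
  obtain ⟨s, hs⟩ := hK
  obtain ⟨t, ht⟩ := hL
  exact ⟨max s t, fun x y hxy hx =>
    ⟨hs x y (fun n hn => hxy n (lt_max_of_lt_left hn)) hx.1,
      ht x y (fun n hn => hxy n (lt_max_of_lt_right hn)) hx.2⟩⟩

theorem Clop.exists_lt {K : ℕ → Set (I → Bool)} (hK : ∀ i, Clop π (K i)) (n : ℕ) :
    Clop π {x | ∃ i < n, x ∈ K i} := by
  induction n with
  | zero => simpa using Clop.empty
  | succ n ih =>
    have : {x | ∃ i < n + 1, x ∈ K i} = {x | ∃ i < n, x ∈ K i} ∪ K n := by
      ext x
      simp only [Set.mem_ofPred_eq, Set.mem_union]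
      constructor
      · rintro ⟨i, hi, hx⟩
        rcases Nat.lt_succ_iff_lt_or_eq.1 hi with h | rfl
        · exact Or.inl ⟨i, h, hx⟩
        · exact Or.inr hx
      · rintro (⟨i, hi, hx⟩ | hx)
        · exact ⟨i, Nat.lt_succ_of_lt hi, hx⟩
        · exact ⟨n, Nat.lt_succ_self n, hx⟩
    rw [this]
    exact ih.union (hK n)

theorem clop_cell (l : List Bool) : Clop π (cell π l) := by
  refine ⟨l.length, fun x y hxy hx => ?_⟩
  rw [mem_cell_bits] at hx ⊢
  intro i hi
  rw [hx i hi, hxy i hi]

theorem cell_subset_of_level {K : Set (I → Bool)} {s : ℕ}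
    (hs : ∀ x y : I → Bool, (∀ n < s, x (π n) = y (π n)) → x ∈ K → y ∈ K)
    {x : I → Bool} (hx : x ∈ K) : cell π (cod π s x) ⊆ K := by
  intro y hy
  refine hs x y (fun n hn => ?_) hx
  rw [mem_cell_bits] at hy
  rw [← hy n (by rwa [length_cod]), getD_cod hn]

theorem Clop.exists_list {K : Set (I → Bool)} (h : Clop π K) :
    ∃ S : List (List Bool), K = {x | ∃ l ∈ S, x ∈ cell π l} := by
  obtain ⟨s, hs⟩ := h
  have hfin : {l : List Bool | l.length = s ∧ cell π l ⊆ K}.Finite :=
    (List.finite_length_eq Bool s).subset fun l hl => hl.1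
  refine ⟨hfin.toFinset.toList, ?_⟩
  ext x
  simp only [Finset.mem_toList, Set.Finite.mem_toFinset, Set.mem_ofPred_eq]
  constructor
  · intro hx
    exact ⟨cod π s x, ⟨length_cod _ _, cell_subset_of_level hs hx⟩, mem_cell_cod s x⟩
  · rintro ⟨l, hl, hx⟩
    exact hl.2 hx

theorem measurableSet_cell (l : List Bool) : MeasurableSet (cell π l) := by
  have : cell π l = ⋂ i ∈ Finset.range l.length,
      (fun x : I → Bool => x (π i)) ⁻¹' {l.getD i false} := by
    ext x
    simp only [mem_cell_bits, Finset.mem_range, Set.mem_iInter, Set.mem_preimage,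
      Set.mem_singleton_iff]
    exact forall_congr' fun i => forall_congr' fun _ => eq_comm
  rw [this]
  exact Finset.measurableSet_biInter _ fun i _ =>
    measurable_pi_apply (π i) (measurableSet_singleton _)

theorem Clop.measurableSet {K : Set (I → Bool)} (h : Clop π K) : MeasurableSet K := by
  classical
  obtain ⟨S, rfl⟩ := h.exists_list
  have : {x | ∃ l ∈ S, x ∈ cell π l} = ⋃ l ∈ S.toFinset, cell π l := by
    ext x
    simp
  rw [this]
  exact Finset.measurableSet_biUnion _ fun l _ => measurableSet_cell l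

theorem bern_real (t : unitInterval) (b : Bool) :
    (ProbabilityTheory.bernoulliMeasure true false t).real {b} =
      if b then (t : ℝ) else 1 - t := by
  cases b
  · rw [ProbabilityTheory.bernoulliMeasure_real_apply_of_notMem_of_mem _
      (measurableSet_singleton _) (by simp) (by simp)]
    simp
  · rw [ProbabilityTheory.bernoulliMeasure_real_apply_of_mem_of_notMem _
      (measurableSet_singleton _) (by simp) (by simp)]
    simp

/-- The measure of a clopen set depends continuously on the Bernoulli parameters. -/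
theorem Clop.continuous_muT (κ : I → ℕ) {K : Set (I → Bool)} (h : Clop π K) :
    Continuous fun θ : ℕ → unitInterval => (muT κ θ).real K := by
  classical
  obtain ⟨s, hs⟩ := h
  set S : Finset I := (Finset.range s).image π with hS
  set K' : Finset (S → Bool) := Finset.univ.filter fun u => ∃ x ∈ K, S.restrict x = u with hK'
  have hK : K = (S.restrict : (I → Bool) → (S → Bool)) ⁻¹' (K' : Set (S → Bool)) := by
    ext x
    simp only [hK', Finset.coe_filter, Finset.mem_univ, true_and, Set.mem_preimage,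
      Set.mem_ofPred_eq]
    constructor
    · intro hx
      exact ⟨x, hx, rfl⟩
    · rintro ⟨y, hy, hyx⟩
      refine hs y x (fun n hn => ?_) hy
      have hn' : π n ∈ S := Finset.mem_image_of_mem _ (Finset.mem_range.2 hn)
      exact congrFun hyx ⟨π n, hn'⟩
  have key : ∀ θ : ℕ → unitInterval, (muT κ θ).real K =
      ∑ u ∈ K', ∏ p : S, (if u p then (θ (κ p) : ℝ) else 1 - θ (κ p)) := by
    intro θ
    rw [hK, ← map_measureReal_apply (Finset.measurable_restrict S) K'.measurableSet, muT,
      Measure.infinitePi_map_restrict, ← sum_measureReal_singleton]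
    refine Finset.sum_congr rfl fun u _ => ?_
    rw [measureReal_def, Measure.pi_singleton, ENNReal.toReal_prod]
    exact Finset.prod_congr rfl fun p _ => bern_real _ _
  simp only [key]
  refine continuous_finsetSum _ fun u _ => continuous_finsetProd _ fun p _ => ?_
  split_ifs <;> fun_prop

theorem muT_coord (κ : I → ℕ) (θ : ℕ → unitInterval) (p : I) :
    (muT κ θ).real {x | x p = true} = θ (κ p) ∧
    (muT κ θ).real {x | x p = false} = 1 - θ (κ p) := by
  have key : ∀ b : Bool, (muT κ θ).real {x | x p = b} =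
      if b then (θ (κ p) : ℝ) else 1 - θ (κ p) := by
    intro b
    have : {x : I → Bool | x p = b} = (fun x : I → Bool => x p) ⁻¹' {b} := rfl
    rw [this, ← map_measureReal_apply (measurable_pi_apply p) (measurableSet_singleton _), muT,
      Measure.infinitePi_map_eval, bern_real]
  exact ⟨by simpa using key true, by simpa using key false⟩

/-- Approximation of measurable sets by clopen sets. -/
theorem exists_clop_approx (hπ : Function.Surjective π) (μ : Measure (I → Bool))
    [IsFiniteMeasure μ] {G : Set (I → Bool)} (hG : MeasurableSet G) {η : ℝ≥0∞} (hη : 0 < η) :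
    ∃ K, Clop π K ∧ μ (G ∆ K) < η := by
  have hC : IsSetRing {K : Set (I → Bool) | Clop π K} :=
    ⟨Clop.empty, fun _ _ hs ht => Clop.union hs ht, fun _ _ hs ht => Clop.inter hs ht.compl⟩
  have hgen : (MeasurableSpace.pi : MeasurableSpace (I → Bool)) =
      MeasurableSpace.generateFrom {K : Set (I → Bool) | Clop π K} := by
    refine le_antisymm ?_ (MeasurableSpace.generateFrom_le fun K hK => Clop.measurableSet hK)
    refine iSup_le fun p => ?_
    rintro _ ⟨t, -, rfl⟩
    refine MeasurableSpace.measurableSet_generateFrom ?_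
    obtain ⟨n, rfl⟩ := hπ p
    refine ⟨n + 1, fun x y hxy hx => ?_⟩
    have := hxy n (Nat.lt_succ_self n)
    simp only [Set.mem_preimage] at hx ⊢
    rwa [← this]
  obtain ⟨K, hK, hlt⟩ := exists_measure_symmDiff_lt_of_generateFrom_isSetRing (μ := μ) hC
    ⟨{Set.univ}, Set.countable_singleton _, by
      rintro _ rfl
      exact ⟨0, fun _ _ _ h => h⟩, by simp⟩ hgen hG hη
  exact ⟨K, hK, by rwa [symmDiff_comm]⟩

theorem cell_disjoint_of_length {l l' : List Bool} (hne : l ≠ l') (h : l.length = l'.length) :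
    Disjoint (cell π l) (cell π l') := by
  rw [Set.disjoint_left]
  intro y h1 h2
  exact hne (by rw [eq_cod_of_mem_cell h1, eq_cod_of_mem_cell h2, h])

/-- Density theorem along cells. -/
theorem density (hπ : Function.Surjective π) (μ : Measure (I → Bool)) [IsFiniteMeasure μ]
    {G : Set (I → Bool)} (hG : MeasurableSet G) {c : ℝ} (hc : 0 < c) :
    μ {y | y ∈ G ∧ ∀ l, y ∈ cell π l → c * μ.real (cell π l) ≤ μ.real (cell π l \ G)} = 0 := by
  set A := {y | y ∈ G ∧ ∀ l, y ∈ cell π l →
    c * μ.real (cell π l) ≤ μ.real (cell π l \ G)} with hA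
  have key : ∀ η : ℝ, 0 < η → μ.real A ≤ η * (1 + c⁻¹) := by
    intro η hη
    obtain ⟨K, hK, hlt⟩ := exists_clop_approx hπ μ hG (ENNReal.ofReal_pos.2 hη)
    have hlt' : μ.real (G ∆ K) ≤ η := by
      rw [measureReal_def]
      exact ENNReal.toReal_le_of_le_ofReal hη.le hlt.le
    have hKm := hK.measurableSet
    obtain ⟨s, hs⟩ := hK
    have hfin : {l : List Bool | l.length = s ∧ cell π l ⊆ K ∧
        c * μ.real (cell π l) ≤ μ.real (cell π l \ G)}.Finite :=
      (List.finite_length_eq Bool s).subset fun l hl => hl.1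
    set D := hfin.toFinset with hD
    have hDm : ∀ l, l ∈ D ↔ l.length = s ∧ cell π l ⊆ K ∧
        c * μ.real (cell π l) ≤ μ.real (cell π l \ G) := fun l => by
      rw [hD, Set.Finite.mem_toFinset]; rfl
    have hsub : A ⊆ (G ∆ K) ∪ ⋃ l ∈ D, cell π l := by
      intro y hy
      by_cases hyK : y ∈ K
      · right
        simp only [Set.mem_iUnion]
        exact ⟨cod π s y, (hDm _).2 ⟨length_cod _ _, cell_subset_of_level hs hyK,
          hy.2 _ (mem_cell_cod s y)⟩, mem_cell_cod s y⟩
      · left
        exact Set.mem_symmDiff.2 (Or.inl ⟨hy.1, hyK⟩)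
    have hdisj : (D : Set (List Bool)).PairwiseDisjoint fun l => cell π l \ G := by
      intro l hl l' hl' hne
      have := cell_disjoint_of_length (π := π) hne
        (((hDm l).1 hl).1.trans ((hDm l').1 hl').1.symm)
      exact this.mono Set.sdiff_subset Set.sdiff_subset
    have h1 : c * μ.real (⋃ l ∈ D, cell π l) ≤ η := by
      calc c * μ.real (⋃ l ∈ D, cell π l) ≤ c * ∑ l ∈ D, μ.real (cell π l) :=
            mul_le_mul_of_nonneg_left (measureReal_biUnion_finset_le _ _) hc.le
        _ = ∑ l ∈ D, c * μ.real (cell π l) := Finset.mul_sum _ _ _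
        _ ≤ ∑ l ∈ D, μ.real (cell π l \ G) :=
            Finset.sum_le_sum fun l hl => ((hDm l).1 hl).2.2
        _ = μ.real (⋃ l ∈ D, cell π l \ G) :=
            (measureReal_biUnion_finset hdisj
              (fun l _ => (measurableSet_cell l).diff hG) (fun _ _ => measure_ne_top _ _)).symm
        _ ≤ μ.real (G ∆ K) := by
            refine measureReal_mono ?_ (measure_ne_top _ _)
            intro y hy
            simp only [Set.mem_iUnion] at hy
            obtain ⟨l, hl, hy⟩ := hy
            exact Set.mem_symmDiff.2 (Or.inr ⟨((hDm l).1 hl).2.1 hy.1, hy.2⟩)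
        _ ≤ η := hlt'
    have h2 : μ.real (⋃ l ∈ D, cell π l) ≤ η * c⁻¹ := by
      rw [← div_eq_mul_inv, le_div_iff₀ hc, mul_comm]
      exact h1
    calc μ.real A ≤ μ.real ((G ∆ K) ∪ ⋃ l ∈ D, cell π l) :=
          measureReal_mono hsub (measure_ne_top _ _)
      _ ≤ μ.real (G ∆ K) + μ.real (⋃ l ∈ D, cell π l) := measureReal_union_le _ _
      _ ≤ η * (1 + c⁻¹) := by rw [mul_add, mul_one]; exact add_le_add hlt' h2
  have hpos : 0 < 1 + c⁻¹ := by positivity
  have h0 : μ.real A ≤ 0 := by
    refine le_of_forall_pos_le_add fun ε hε => ?_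
    have := key (ε / (1 + c⁻¹)) (by positivity)
    rw [div_mul_cancel₀ _ hpos.ne'] at this
    linarith
  exact (measureReal_eq_zero_iff (measure_ne_top _ _)).1 (le_antisymm h0 measureReal_nonneg)

/-- Maximal inequality along cells. -/
theorem maximal (μ : Measure (I → Bool)) [IsProbabilityMeasure μ]
    {H : Set (I → Bool)} {c : ℝ} (hc : 0 ≤ c) :
    μ.real {y | y ∈ H ∧ ∃ l, y ∈ cell π l ∧ μ.real (cell π l ∩ H) ≤ c * μ.real (cell π l)}
      ≤ c := by
  classical
  set P : List Bool → Prop := fun l => μ.real (cell π l ∩ H) ≤ c * μ.real (cell π l) with hP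
  set T : Set (List Bool) := {l | P l ∧ ∀ t < l.length, ¬ P (l.take t)} with hT
  have hsub : {y | y ∈ H ∧ ∃ l, y ∈ cell π l ∧ P l} ⊆ ⋃ l ∈ T, cell π l ∩ H := by
    rintro y ⟨hyH, l, hyl, hl⟩
    have hex : ∃ s, P (cod π s y) := ⟨l.length, by rwa [← eq_cod_of_mem_cell hyl]⟩
    simp only [Set.mem_iUnion]
    refine ⟨cod π (Nat.find hex) y, ⟨Nat.find_spec hex, fun t ht => ?_⟩, mem_cell_cod _ _, hyH⟩
    rw [length_cod] at ht
    rw [take_cod ht.le]
    exact Nat.find_min hex ht
  have hlt : ∀ l ∈ T, ∀ l' ∈ T, l.length < l'.length → Disjoint (cell π l) (cell π l') := by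
    intro l hl l' hl' h
    rw [Set.disjoint_left]
    intro y h1 h2
    refine hl'.2 l.length h ?_
    rw [eq_cod_of_mem_cell h2, take_cod h.le, ← eq_cod_of_mem_cell h1]
    exact hl.1
  have hdisj : T.PairwiseDisjoint fun l => cell π l := by
    intro l hl l' hl' hne
    rcases lt_trichotomy l.length l'.length with h | h | h
    · exact hlt l hl l' hl' h
    · exact cell_disjoint_of_length hne h
    · exact (hlt l' hl' l hl h).symm
  have hTc : T.Countable := Set.to_countable T
  have hle : μ {y | y ∈ H ∧ ∃ l, y ∈ cell π l ∧ P l} ≤ ENNReal.ofReal c := by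
    calc μ {y | y ∈ H ∧ ∃ l, y ∈ cell π l ∧ P l} ≤ μ (⋃ l ∈ T, cell π l ∩ H) :=
          measure_mono hsub
      _ ≤ ∑' l : T, μ (cell π l ∩ H) := measure_biUnion_le μ hTc _
      _ ≤ ∑' l : T, ENNReal.ofReal c * μ (cell π l) := by
          refine ENNReal.tsum_le_tsum fun l => ?_
          have h := ENNReal.ofReal_le_ofReal l.2.1
          rwa [ENNReal.ofReal_mul hc, ofReal_measureReal (measure_ne_top _ _),
            ofReal_measureReal (measure_ne_top _ _)] at h
      _ = ENNReal.ofReal c * μ (⋃ l ∈ T, cell π l) := by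
          rw [ENNReal.tsum_mul_left, measure_biUnion hTc hdisj fun l _ => measurableSet_cell l]
      _ ≤ ENNReal.ofReal c * 1 := by gcongr; exact prob_le_one
      _ = ENNReal.ofReal c := mul_one _
  rw [measureReal_def]
  exact ENNReal.toReal_le_of_le_ofReal hc hle

end Pool.Agent.MP_d9ba76_lc
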