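import Pool.Agent.MP_d9ba76_lc.Meas

/-! Self-correction by majority vote along two commuting families of maps. -/

set_option autoImplicit false
set_option linter.unusedSectionVars false

open MeasureTheory

namespace Pool.Agent.MP_d9ba76_lc

open Classical in
/-- More than half of the indices below `N` satisfy `p`. -/
def most (N : ℕ) (p : ℕ → Prop) : Prop := N / 2 + 1 ≤ (List.range N).countP fun i => decide (p i)

theorem countP_or_le {α : Type} (l : List α) (p q r : α → Bool)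
    (h : ∀ a ∈ l, p a = true → q a = true ∨ r a = true) :
    l.countP p ≤ l.countP q + l.countP r := by
  induction l with
  | nil => simp
  | cons a l ih =>
    have h1 := ih fun b hb => h b (List.mem_cons_of_mem _ hb)
    have h2 := h a List.mem_cons_self
    simp only [List.countP_cons]
    split_ifs <;> simp_all <;> omega

open Classical in
theorem most_iff' {N : ℕ} {q : ℕ → Prop} {s : Prop} {p₁ p₂ p₃ p₄ p₅ : ℕ → Prop}
    (h₁ : ¬ many N p₁) (h₂ : ¬ many N p₂) (h₃ : ¬ many N p₃) (h₄ : ¬ many N p₄)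
    (h₅ : ¬ many N p₅)
    (h : ∀ i < N, ¬ p₁ i → ¬ p₂ i → ¬ p₃ i → ¬ p₄ i → ¬ p₅ i → (q i ↔ s)) : most N q ↔ s := by
  unfold many at h₁ h₂ h₃ h₄ h₅
  unfold most
  have a1 := countP_or_le (List.range N) (fun i => decide (¬ (q i ↔ s))) (fun i => decide (p₁ i))
    (fun i => decide (p₂ i ∨ p₃ i ∨ p₄ i ∨ p₅ i)) fun i hi => by
      have := h i (List.mem_range.1 hi)
      simp only [decide_eq_true_eq]
      tauto
  have a2 := countP_or_le (List.range N) (fun i => decide (p₂ i ∨ p₃ i ∨ p₄ i ∨ p₅ i))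
    (fun i => decide (p₂ i)) (fun i => decide (p₃ i ∨ p₄ i ∨ p₅ i)) fun i _ => by simp
  have a3 := countP_or_le (List.range N) (fun i => decide (p₃ i ∨ p₄ i ∨ p₅ i))
    (fun i => decide (p₃ i)) (fun i => decide (p₄ i ∨ p₅ i)) fun i _ => by simp
  have a4 := countP_or_le (List.range N) (fun i => decide (p₄ i ∨ p₅ i))
    (fun i => decide (p₄ i)) (fun i => decide (p₅ i)) fun i _ => by simp
  constructor
  · intro hn
    by_contra hS
    have a5 : (List.range N).countP (fun i => decide (q i))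
        ≤ (List.range N).countP (fun i => decide (¬ (q i ↔ s))) :=
      List.countP_mono_left fun i _ hi => by
        simp only [decide_eq_true_eq] at hi ⊢
        tauto
    omega
  · intro hS
    have a5 := countP_or_le (List.range N) (fun _ => true) (fun i => decide (q i))
      (fun i => decide (¬ (q i ↔ s))) fun i _ _ => by
        simp only [decide_eq_true_eq]
        tauto
    simp only [List.countP_true, List.length_range] at a5
    omega

theorem most_iff {N : ℕ} {vote : ℕ → Set ℕ} {S : Set ℕ} {p₁ p₂ p₃ p₄ p₅ : ℕ → Prop}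
    (h₁ : ¬ many N p₁) (h₂ : ¬ many N p₂) (h₃ : ¬ many N p₃) (h₄ : ¬ many N p₄)
    (h₅ : ¬ many N p₅) (h : ∀ i < N, ¬ p₁ i → ¬ p₂ i → ¬ p₃ i → ¬ p₄ i → ¬ p₅ i → vote i = S)
    (n : ℕ) : most N (fun i => n ∈ vote i) ↔ n ∈ S :=
  most_iff' h₁ h₂ h₃ h₄ h₅ fun i hi k1 k2 k3 k4 k5 => by rw [h i hi k1 k2 k3 k4 k5]

theorem not_many_false {N : ℕ} (hN : 0 < N) : ¬ many N fun _ => False := by
  unfold many
  simp
  omega

theorem length_words (N m : ℕ) : (words N m).length = N ^ m := by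
  induction m with
  | zero => rfl
  | succ m ih => simp [words, List.length_flatMap, ih, pow_succ]

theorem mem_words {N m : ℕ} {v : List ℕ} (h : v ∈ words N m) : ∀ j ∈ v, j < N := by
  induction m generalizing v with
  | zero => simp only [words, List.mem_singleton] at h; simp [h]
  | succ m ih =>
    simp only [words, List.mem_flatMap, List.mem_map, List.mem_range] at h
    obtain ⟨w, hw, j, hj, rfl⟩ := h
    intro i hi
    rcases List.mem_cons.1 hi with rfl | hi
    exacts [hj, ih hw i hi]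

variable {Ω : Type} [MeasurableSpace Ω] {μ : Measure Ω} [IsProbabilityMeasure μ]

theorem rigid_core {N : ℕ} (hN : 0 < N) (hN' : N ≤ 8192) (a b : ℕ → Ω → Ω)
    (A B : List ℕ → Ω → Ω) (hA0 : ∀ x, A [] x = x) (hA1 : ∀ i u x, A (i :: u) x = a i (A u x))
    (hB0 : ∀ x, B [] x = x) (hB1 : ∀ j v x, B (j :: v) x = b j (B v x))
    (comm : ∀ i j x, b j (a i x) = a i (b j x))
    (hD : ∀ E : Set Ω, μ.real E ≤ 1 / 20 →
      μ.real {x | many N fun i => a i x ∈ E} ≤ μ.real E / 4)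
    (hB : ∀ v (E : Set Ω), μ.real (B v ⁻¹' E) ≤ μ.real E)
    (Nn : Ω → Set ℕ) (Θa Θa' Θb : ℕ → Ω → Set ℕ → Set ℕ) (Ba Ba' Bb : ℕ → Set Ω)
    (ha : ∀ i < N, ∀ x ∉ Ba i, Θa i x (Nn x) = Nn (a i x))
    (ha' : ∀ i < N, ∀ x ∉ Ba' i, Θa' i x (Nn (a i x)) = Nn x)
    (hb : ∀ j < N, ∀ x ∉ Bb j, Θb j x (Nn x) = Nn (b j x))
    {ε : ℝ} (hε : ε ≤ 1 / 600) (sa : ∀ i, μ.real (Ba i) ≤ ε) (sa' : ∀ i, μ.real (Ba' i) ≤ ε)
    (sb : ∀ i, μ.real (Bb i) ≤ ε) :
    ∃ Bad₁ Bad₂ : Set Ω, MeasurableSet Bad₂ ∧ μ.real Bad₁ ≤ 74 * ε ∧ μ.real Bad₂ ≤ 14 * ε ∧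
      ∀ (x : Ω) (V : ℕ → List ℕ → List ℕ → Set ℕ), V 0 [] [] = Nn x →
        (∀ i u, V 0 [] (i :: u) = Θa i (A u x) (V 0 [] u)) →
        (∀ j v u n, n ∈ V 0 (j :: v) u ↔ most N fun i =>
          n ∈ Θa' i (B (j :: v) (A u x)) (Θb j (a i (B v (A u x))) (V 0 v (i :: u)))) →
        (∀ k v u n, n ∈ V (k + 1) v u ↔ most N fun i =>
          n ∈ Θa' i (B v (A u x)) (V k v (i :: u))) →
        x ∉ Bad₁ → ∀ m, ∀ v ∈ words N m, B v x ∉ Bad₂ → V (7 * m) v [] = Nn (B v x) := by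
  have hε0 : 0 ≤ ε := measureReal_nonneg.trans (sa 0)
  have commB : ∀ i v x, B v (a i x) = a i (B v x) := by
    intro i v x
    induction v with
    | nil => rw [hB0, hB0]
    | cons j v ih => rw [hB1, hB1, ih, comm]
  let D : Set Ω → Set Ω := fun E => {x | many N fun i => a i x ∈ E}
  have Dmono : ∀ {E E' : Set Ω}, E ⊆ E' → D E ⊆ D E' := fun h x hx =>
    many_mono (fun i hi => h hi) hx
  let T₁ : Set Ω := {x | many N fun i => x ∈ Ba i}
  let T₄ : Set Ω := {x | many N fun i => x ∈ Ba' i}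
  have sT₁ : μ.real T₁ ≤ 10 * ε := markov hN sa
  have sT₄ : μ.real T₄ ≤ 10 * ε := markov hN sa'
  let E : List ℕ → Set Ω := fun v => List.rec ∅
    (fun j v Ev => T₁ ∪ D Ev ∪ B v ⁻¹' D (Bb j) ∪ B (j :: v) ⁻¹' T₄) v
  have E0 : E [] = ∅ := rfl
  have E1 : ∀ j v, E (j :: v) = T₁ ∪ D (E v) ∪ B v ⁻¹' D (Bb j) ∪ B (j :: v) ⁻¹' T₄ :=
    fun _ _ => rfl
  have sE : ∀ v, μ.real (E v) ≤ 30 * ε := by
    intro v
    induction v with
    | nil => rw [E0]; simp; positivity
    | cons j v ih =>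
      rw [E1]
      have h1 := hD (E v) (by linarith)
      have h2 := (hB v _).trans (hD (Bb j) (by linarith [sb j]))
      have h3 := hB (j :: v) T₄
      have h4 := measureReal_union_le (μ := μ) (T₁ ∪ D (E v) ∪ B v ⁻¹' D (Bb j))
        (B (j :: v) ⁻¹' T₄)
      have h5 := measureReal_union_le (μ := μ) (T₁ ∪ D (E v)) (B v ⁻¹' D (Bb j))
      have h6 := measureReal_union_le (μ := μ) T₁ (D (E v))
      have h7 := sb j
      simp only [D] at h4 h5 h6 ⊢
      linarith
  let P : Set Ω → ℕ → Set Ω := fun T k => Nat.rec ∅ (fun _ Pk => T ∪ D Pk) k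
  have P0 : ∀ T, P T 0 = ∅ := fun _ => rfl
  have P1 : ∀ T k, P T (k + 1) = T ∪ D (P T k) := fun _ _ => rfl
  have Pmono : ∀ T, Monotone (P T) := by
    intro T
    refine monotone_nat_of_le_succ fun k => ?_
    induction k with
    | zero => rw [P0]; exact Set.empty_subset _
    | succ k ih => rw [P1 T (k + 1), P1 T k]; exact Set.union_subset_union_right _ (Dmono ih)
  have sP : ∀ T, μ.real T ≤ 10 * ε → μ.real (⋃ k, P T k) ≤ 14 * ε := by
    intro T hT
    refine real_iUnion_mono (Pmono T) fun k => ?_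
    induction k with
    | zero => rw [P0]; simp; positivity
    | succ k ih =>
      rw [P1]
      have h1 := hD (P T k) (by linarith)
      have h6 := measureReal_union_le (μ := μ) T (D (P T k))
      simp only [D] at h6 ⊢
      linarith
  let Z : List ℕ → ℕ → Set Ω := fun v k => D^[k] (E v)
  have Z1 : ∀ v k, Z v (k + 1) = D (Z v k) := fun v k => Function.iterate_succ_apply' _ _ _
  have sZ : ∀ v k, μ.real (Z v k) ≤ 30 * ε * (1 / 4) ^ k := by
    intro v k
    induction k with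
    | zero => simpa [Z] using sE v
    | succ k ih =>
      rw [Z1]
      have h0 : ((1 : ℝ) / 4) ^ k ≤ 1 := pow_le_one₀ (by norm_num) (by norm_num)
      have h1 := hD (Z v k) (by nlinarith)
      simp only [D]
      rw [pow_succ]
      linarith
  let Zall : Set Ω := ⋃ m, {x | ∃ v ∈ words N m, x ∈ Z v (7 * m)}
  have sZall : μ.real Zall ≤ 2 * (30 * ε) := by
    refine real_iUnion_geom fun m => (real_list_union _ fun v _ => sZ v (7 * m)).trans ?_
    rw [length_words, pow_mul]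
    have h1 : ((N ^ m : ℕ) : ℝ) * (((1 : ℝ) / 4) ^ 7) ^ m ≤ (1 / 2) ^ m := by
      rw [Nat.cast_pow, ← mul_pow]
      refine pow_le_pow_left₀ (by positivity) ?_ m
      have : (N : ℝ) ≤ 8192 := by exact_mod_cast hN'
      norm_num
      linarith
    nlinarith
  refine ⟨(⋃ k, P T₁ k) ∪ Zall, toMeasurable μ (⋃ k, P T₄ k), measurableSet_toMeasurable _ _,
    ?_, ?_, ?_⟩
  · have := measureReal_union_le (μ := μ) (⋃ k, P T₁ k) Zall
    linarith [sP T₁ sT₁]
  · rw [real_toMeasurable]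
    exact sP T₄ sT₄
  intro x V e0 e1 e2 e3 hx m v hv hy
  have c1 : ∀ v : List ℕ, (∀ j ∈ v, j < N) → ∀ u, V 0 [] u = Nn (A u x) → A u x ∉ E v →
      V 0 v u = Nn (B v (A u x)) := by
    intro v
    induction v with
    | nil => intro _ u h _; rw [h, hB0]
    | cons j v ih =>
      intro hj u h hE
      rw [E1] at hE
      simp only [Set.mem_union, not_or] at hE
      obtain ⟨⟨⟨g1, g2⟩, g3⟩, g4⟩ := hE
      ext n
      rw [e2]
      refine most_iff g1 g2 g3 g4 (not_many_false hN) (fun i hi k1 k2 k3 k4 _ => ?_) n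
      have h1 : V 0 [] (i :: u) = Nn (A (i :: u) x) := by rw [e1, h, ha i hi _ k1, hA1]
      rw [ih (fun l hl => hj l (List.mem_cons_of_mem _ hl)) (i :: u) h1 (by rwa [hA1]), hA1,
        commB, hb j (hj j List.mem_cons_self) _ k3, comm, ← hB1, ha' i hi _ k4]
  have c2 : ∀ k u, V 0 [] u = Nn (A u x) → A u x ∉ P T₁ k → A u x ∉ Z v k →
      B v (A u x) ∉ P T₄ k → V k v u = Nn (B v (A u x)) := by
    intro k
    induction k with
    | zero => exact fun u h _ h2 _ => c1 v (mem_words hv) u h h2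
    | succ k ih =>
      intro u h h1 h2 h3
      rw [P1] at h1 h3
      rw [Z1] at h2
      simp only [Set.mem_union, not_or] at h1 h3
      ext n
      rw [e3]
      refine most_iff h1.1 h1.2 h2 h3.1 h3.2 (fun i hi k1 k2 k3 k4 k5 => ?_) n
      have h4 : V 0 [] (i :: u) = Nn (A (i :: u) x) := by rw [e1, h, ha i hi _ k1, hA1]
      rw [ih (i :: u) h4 (by rwa [hA1]) (by rwa [hA1]) (by rwa [hA1, commB]), hA1, commB,
        ha' i hi _ k4]
  have := c2 (7 * m) [] (by rw [e0, hA0]) ?_ ?_ ?_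
  · rwa [hA0] at this
  · rw [hA0]
    exact fun h => hx (Or.inl (Set.mem_iUnion.2 ⟨_, h⟩))
  · rw [hA0]
    exact fun h => hx (Or.inr (Set.mem_iUnion.2 ⟨m, v, hv, h⟩))
  · rw [hA0]
    exact fun h => hy (subset_toMeasurable _ _ (Set.mem_iUnion.2 ⟨_, h⟩))

end Pool.Agent.MP_d9ba76_lc
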