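import Mathlib

/-! Shared definitions for the proof that Post's problem has no degree-invariant solution. -/

set_option autoImplicit false

open MeasureTheory

namespace Pool.Agent.MP_d9ba76_lc

/-- The characteristic function of a set of naturals, as an oracle. -/
noncomputable def chi (X : Set ℕ) : ℕ →. ℕ :=
  fun n => Part.some (Set.indicator X (fun _ => (1 : ℕ)) n)

/-- The true literals about `A`: pairs `(n, b)` with `b` the truth value of `n ∈ A`. -/
def lits (A : Set ℕ) : Set (ℕ × Bool) := {p | p.1 ∈ A ↔ p.2 = true}

/-- Computably enumerable predicates, presented by a primitive recursive test. -/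
def CE {α : Type} [Primcodable α] (p : α → Prop) : Prop :=
  ∃ q : α × ℕ → Prop, PrimrecPred q ∧ ∀ a, p a ↔ ∃ w, q (a, w)

/-- The bit string `l` is an initial segment of `X`. -/
def Pre (l : List Bool) (X : Set ℕ) : Prop :=
  ∀ i < l.length, (l.getD i false = true ↔ i ∈ X)

/-- All words of length `m` over the letters `0, …, N - 1`. -/
def words (N : ℕ) : ℕ → List (List ℕ)
  | 0 => [[]]
  | m + 1 => (words N m).flatMap fun w => (List.range N).map fun j => j :: w

/-- The shift of a configuration along a map of the coordinates. -/
def shf {I : Type} (s : I → I) (x : I → Bool) : I → Bool := fun p => x (s p)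

/-- The action of a word: the head letter is applied last. -/
def act {I : Type} (σ : ℕ → I → I) : List ℕ → (I → Bool) → (I → Bool)
  | [], x => x
  | j :: w, x => shf (σ j) (act σ w x)

open Classical in
/-- The number of words of length `m` moving `x` into `E`. -/
noncomputable def cnt {I : Type} (N : ℕ) (σ : ℕ → I → I) (m : ℕ) (E : Set (I → Bool))
    (x : I → Bool) : ℕ :=
  (words N m).countP fun w => decide (act σ w x ∈ E)

/-- The set of naturals coding a configuration through an enumeration `π` of the coordinates. -/
def enc {I : Type} (π : ℕ → I) (x : I → Bool) : Set ℕ := {n | x (π n) = true}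

/-- The configurations whose code extends `l`. -/
def cell {I : Type} (π : ℕ → I) (l : List Bool) : Set (I → Bool) := {x | Pre l (enc π x)}

/-- Sets determined by finitely many bits of the code. -/
def Clop {I : Type} (π : ℕ → I) (K : Set (I → Bool)) : Prop :=
  ∃ s : ℕ, ∀ x y : I → Bool, (∀ n < s, x (π n) = y (π n)) → x ∈ K → y ∈ K

/-- The product of Bernoulli measures with parameter `θ (κ p)` at coordinate `p`. -/
noncomputable def muT {I : Type} (κ : I → ℕ) (θ : ℕ → unitInterval) : Measure (I → Bool) :=
  Measure.infinitePi fun p => ProbabilityTheory.bernoulliMeasure true false (θ (κ p))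

instance {I : Type} (κ : I → ℕ) (θ : ℕ → unitInterval) : IsProbabilityMeasure (muT κ θ) := by
  unfold muT; infer_instance

end Pool.Agent.MP_d9ba76_lc
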