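import Pool.Agent.MP_d9ba76_lc.Prim

/-! Enumeration operators: predicates which are c.e. in the positive information `pos τ`. -/

set_option autoImplicit false

open Encodable

namespace Pool.Agent.MP_d9ba76_lc

variable {α α' β β' γ : Type} [Primcodable α] [Primcodable α'] [Primcodable β] [Primcodable β']
  [Primcodable γ] {T T' : Type}

/-- `P a τ` is uniformly enumerable from the positive information `pos τ`. -/
def EO (pos : T → Set β) (P : α → T → Prop) : Prop :=
  ∃ Q : α × List β → Prop, CE Q ∧ ∀ a τ, P a τ ↔ ∃ L, Q (a, L) ∧ ∀ b ∈ L, b ∈ pos τ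

variable {pos : T → Set β} {pos' : T' → Set β'}

theorem EO.congr {P P' : α → T → Prop} (h : EO pos P) (e : ∀ a τ, P a τ ↔ P' a τ) :
    EO pos P' := by
  obtain ⟨Q, hQ, H⟩ := h
  exact ⟨Q, hQ, fun a τ => (e a τ).symm.trans (H a τ)⟩

theorem EO.mono_form {P : α → T → Prop} (h : EO pos P) :
    ∃ Q : α × List β → Prop, CE Q ∧ (∀ a L L', (∀ b ∈ L, b ∈ L') → Q (a, L) → Q (a, L')) ∧
      ∀ a τ, P a τ ↔ ∃ L, Q (a, L) ∧ ∀ b ∈ L, b ∈ pos τ := by
  obtain ⟨Q, hQ, H⟩ := h
  refine ⟨fun z => ∃ L, Q (z.1, L) ∧ ∀ b ∈ L, b ∈ z.2, ?_, ?_, fun a τ => (H a τ).trans ?_⟩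
  · exact CE.ex (p := fun y : (α × List β) × List β => Q (y.1.1, y.2) ∧ ∀ b ∈ y.2, b ∈ y.1.2)
      ((hQ.comp (by fun_prop)).and (CE.of_pred (pp_sub (by fun_prop) (by fun_prop))))
  · rintro a L L' hL ⟨K, hK, hK'⟩
    exact ⟨K, hK, fun b hb => hL b (hK' b hb)⟩
  · constructor
    · rintro ⟨L, h1, h2⟩
      exact ⟨L, ⟨L, h1, fun b hb => hb⟩, h2⟩
    · rintro ⟨L, ⟨K, h1, h2⟩, h3⟩
      exact ⟨K, h1, fun b hb => h3 b (h2 b hb)⟩

theorem EO.of_ce {p : α → Prop} (hp : CE p) : EO pos fun a _ => p a :=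
  ⟨fun z => p z.1, hp.comp Primrec.fst, fun a τ =>
    ⟨fun h => ⟨[], h, by simp⟩, fun ⟨_, h, _⟩ => h⟩⟩

theorem EO.of_pred {p : α → Prop} (hp : PrimrecPred p) : EO pos fun a _ => p a :=
  EO.of_ce (CE.of_pred hp)

theorem EO.lit {f : α → β} (hf : Primrec f) : EO pos fun a τ => f a ∈ pos τ :=
  ⟨fun z => z.2 = [f z.1], CE.of_pred (pp_eq (by fun_prop) (by fun_prop)), fun a τ => by simp⟩

theorem EO.comp {P : α' → T → Prop} (h : EO pos P) {f : α → α'} (hf : Primrec f) :
    EO pos fun a τ => P (f a) τ := by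
  obtain ⟨Q, hQ, H⟩ := h
  exact ⟨fun z => Q (f z.1, z.2), hQ.comp (by fun_prop), fun a τ => H (f a) τ⟩

theorem EO.and {P P' : α → T → Prop} (h : EO pos P) (h' : EO pos P') :
    EO pos fun a τ => P a τ ∧ P' a τ := by
  obtain ⟨Q, hQ, m, H⟩ := h.mono_form
  obtain ⟨Q', hQ', m', H'⟩ := h'.mono_form
  refine ⟨fun z => Q z ∧ Q' z, hQ.and hQ', fun a τ => ?_⟩
  simp only [H, H']
  constructor
  · rintro ⟨⟨L, h1, h2⟩, ⟨L', h3, h4⟩⟩
    refine ⟨L ++ L', ⟨m _ _ _ (by simp +contextual) h1, m' _ _ _ (by simp +contextual) h3⟩, ?_⟩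
    intro b hb
    rcases List.mem_append.1 hb with hb | hb
    exacts [h2 b hb, h4 b hb]
  · rintro ⟨L, ⟨h1, h2⟩, h3⟩
    exact ⟨⟨L, h1, h3⟩, ⟨L, h2, h3⟩⟩

theorem EO.or {P P' : α → T → Prop} (h : EO pos P) (h' : EO pos P') :
    EO pos fun a τ => P a τ ∨ P' a τ := by
  obtain ⟨Q, hQ, H⟩ := h
  obtain ⟨Q', hQ', H'⟩ := h'
  refine ⟨fun z => Q z ∨ Q' z, hQ.or hQ', fun a τ => ?_⟩
  simp only [H, H', or_and_right, exists_or]

theorem EO.ex {P : α × γ → T → Prop} (h : EO pos P) : EO pos fun a τ => ∃ c, P (a, c) τ := by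
  obtain ⟨Q, hQ, H⟩ := h
  refine ⟨fun z => ∃ c, Q ((z.1, c), z.2),
    CE.ex (p := fun y : (α × List β) × γ => Q ((y.1.1, y.2), y.1.2)) (hQ.comp (by fun_prop)),
    fun a τ => ?_⟩
  simp only [H]
  constructor
  · rintro ⟨c, L, h1, h2⟩
    exact ⟨L, ⟨c, h1⟩, h2⟩
  · rintro ⟨L, ⟨c, h1⟩, h2⟩
    exact ⟨c, L, h1, h2⟩

theorem EO.all {P : α × γ → T → Prop} (h : EO pos P) {l : α → List γ} (hl : Primrec l) :
    EO pos fun a τ => ∀ c ∈ l a, P (a, c) τ := by
  obtain ⟨Q, hQ, m, H⟩ := h.mono_form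
  refine ⟨fun z => ∀ c ∈ l z.1, Q ((z.1, c), z.2),
    CE.all (p := fun y : (α × List β) × γ => Q ((y.1.1, y.2), y.1.2)) (hQ.comp (by fun_prop))
      (by fun_prop), fun a τ => ?_⟩
  simp only [H]
  constructor
  · generalize l a = K
    intro hK
    induction K with
    | nil => exact ⟨[], by simp, by simp⟩
    | cons c K ih =>
      obtain ⟨L, h1, h2⟩ := ih fun d hd => hK d (List.mem_cons_of_mem _ hd)
      obtain ⟨L', h3, h4⟩ := hK c List.mem_cons_self
      refine ⟨L ++ L', fun d hd => ?_, fun b hb => ?_⟩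
      · rcases List.mem_cons.1 hd with rfl | hd
        · exact m _ _ _ (by simp +contextual) h3
        · exact m _ _ _ (by simp +contextual) (h1 d hd)
      · rcases List.mem_append.1 hb with hb | hb
        exacts [h2 b hb, h4 b hb]
  · rintro ⟨L, h1, h2⟩ c hc
    exact ⟨L, h1 c hc, h2⟩

theorem EO.all_lt {P : α × ℕ → T → Prop} (h : EO pos P) {n : α → ℕ} (hn : Primrec n) :
    EO pos fun a τ => ∀ c < n a, P (a, c) τ :=
  (h.all (l := fun a => List.range (n a)) (by fun_prop)).congr fun a τ => by simp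

theorem EO.subst {P : α → T → Prop} (h : EO pos P) {ξ : α' → T' → T}
    (hξ : EO pos' fun (z : α' × β) τ => z.2 ∈ pos (ξ z.1 τ)) {f : α' → α} (hf : Primrec f) :
    EO pos' fun a τ => P (f a) (ξ a τ) := by
  obtain ⟨Q, hQ, H⟩ := h
  exact (EO.ex (P := fun (z : α' × List β) τ => Q (f z.1, z.2) ∧ ∀ b ∈ z.2, b ∈ pos (ξ z.1 τ))
    ((EO.of_ce (hQ.comp (by fun_prop))).and
      (EO.all (P := fun (y : (α' × List β) × β) τ => y.2 ∈ pos (ξ y.1.1 τ))
        (hξ.comp (f := fun y : (α' × List β) × β => (y.1.1, y.2)) (by fun_prop))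
        (by fun_prop)))).congr fun a τ => (H (f a) (ξ a τ)).symm

open Classical in
theorem EO.count {P : α × γ → T → Prop} (h : EO pos P) {l : α → List γ} (hl : Primrec l)
    {n : α → ℕ} (hn : Primrec n) :
    EO pos fun a τ => n a ≤ (l a).countP fun c => decide (P (a, c) τ) := by
  have h1 : Primrec fun z : α × List γ => ((l z.1).filter fun c => decide (c ∈ z.2)).length :=
    Primrec.list_length.comp
      ((PrimrecRel.listFilter (R := fun (c : γ) (K : List γ) => c ∈ K)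
        (pp_mem Primrec.fst Primrec.snd)).comp (hl.comp Primrec.fst) Primrec.snd)
  refine (EO.ex (P := fun (z : α × List γ) τ =>
    n z.1 ≤ ((l z.1).filter fun c => decide (c ∈ z.2)).length ∧ ∀ c ∈ z.2, P (z.1, c) τ)
    ((EO.of_pred (pp_le (by fun_prop) h1)).and
      (EO.all (P := fun (y : (α × List γ) × γ) τ => P (y.1.1, y.2) τ)
        (h.comp (f := fun y : (α × List γ) × γ => (y.1.1, y.2)) (by fun_prop))
        (by fun_prop)))).congr fun a τ => ?_
  simp only [← List.countP_eq_length_filter]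
  constructor
  · rintro ⟨K, h1, h2⟩
    exact h1.trans (List.countP_mono_left fun c _ hc => by simpa using h2 c (by simpa using hc))
  · intro h1
    refine ⟨(l a).filter fun c => decide (P (a, c) τ), h1.trans (List.countP_mono_left ?_), ?_⟩
    · intro c hc hc'
      simpa using ⟨hc, by simpa using hc'⟩
    · intro c hc
      simpa using (List.mem_filter.1 hc).2

theorem EO.family {P : ℕ → α → T → Prop} (N : ℕ) (h : ∀ i, EO pos (P i)) :
    EO pos fun (z : ℕ × α) τ => z.1 < N ∧ P z.1 z.2 τ := by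
  induction N with
  | zero => exact (EO.of_pred (pp_const False)).congr fun a τ => by simp
  | succ N ih =>
    refine (ih.or ((EO.of_pred (pp_eq (f := fun z : ℕ × α => z.1) (g := fun _ => N) (by fun_prop)
      (by fun_prop))).and ((h N).comp Primrec.snd))).congr fun a τ => ?_
    constructor
    · rintro (⟨h1, h2⟩ | ⟨h1, h2⟩)
      · exact ⟨by omega, h2⟩
      · exact ⟨by omega, h1 ▸ h2⟩
    · rintro ⟨h1, h2⟩
      rcases Nat.lt_succ_iff_lt_or_eq.1 h1 with h1 | h1
      · exact Or.inl ⟨h1, h2⟩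
      · exact Or.inr ⟨h1, h1 ▸ h2⟩

theorem EO.finite_use {P : α → T → Prop} (h : EO pos P) {a : α} {τ : T} (hP : P a τ) :
    ∃ L : List β, (∀ b ∈ L, b ∈ pos τ) ∧ ∀ τ', (∀ b ∈ L, b ∈ pos τ') → P a τ' := by
  obtain ⟨Q, -, H⟩ := h
  obtain ⟨L, h1, h2⟩ := (H a τ).1 hP
  exact ⟨L, h2, fun τ' h3 => (H a τ').2 ⟨L, h1, h3⟩⟩

theorem EO.mono {P : α → T → Prop} (h : EO pos P) {a : α} {τ τ' : T} (hτ : pos τ ⊆ pos τ')
    (hP : P a τ) : P a τ' := by
  obtain ⟨L, h1, h2⟩ := h.finite_use hP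
  exact h2 τ' fun b hb => hτ (h1 b hb)

theorem EO.measurableSet {P : α → T → Prop} (h : EO pos P) {X : Type} [MeasurableSpace X]
    {ξ : X → T} (hξ : ∀ b, MeasurableSet {x | b ∈ pos (ξ x)}) (a : α) :
    MeasurableSet {x | P a (ξ x)} := by
  obtain ⟨Q, -, H⟩ := h
  have : {x | P a (ξ x)} = ⋃ L : List β, ⋃ _ : Q (a, L), ⋂ b ∈ {b | b ∈ L}, {x | b ∈ pos (ξ x)} := by
    ext x
    simp [H]
  rw [this]
  exact MeasurableSet.iUnion fun L => MeasurableSet.iUnion fun _ =>
    MeasurableSet.biInter (Set.to_countable _) fun b _ => hξ b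

/-- Positive information of a pair: that of the first entry, and the members of the second. -/
def posS (pos : T → Set β) (z : T × Set γ) : Set (β ⊕ γ) :=
  {s | Sum.elim (fun b => b ∈ pos z.1) (fun c => c ∈ z.2) s}

omit [Primcodable β] [Primcodable γ] in
@[simp] theorem inl_mem_posS {z : T × Set γ} {b : β} : Sum.inl b ∈ posS pos z ↔ b ∈ pos z.1 :=
  Iff.rfl

omit [Primcodable β] [Primcodable γ] in
@[simp] theorem inr_mem_posS {z : T × Set γ} {c : γ} : Sum.inr c ∈ posS pos z ↔ c ∈ z.2 :=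
  Iff.rfl

omit [Primcodable β] [Primcodable γ] in
theorem posS_mono {x : T} {M M' : Set γ} (h : M ⊆ M') : posS pos (x, M) ⊆ posS pos (x, M') := by
  rintro (b | c) hs
  exacts [hs, h hs]

theorem EO.mem_snd {f : α → γ} (hf : Primrec f) :
    EO (posS pos) fun a (z : T × Set γ) => f a ∈ z.2 :=
  EO.lit (pos := posS pos) (f := fun a => Sum.inr (f a)) (by fun_prop)

/-- Substitution into a pair. -/
theorem EO.posS_subst {ξ : α → T' → T} {M : α → T' → Set γ}
    (hξ : EO pos' fun (z : α × β) τ => z.2 ∈ pos (ξ z.1 τ))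
    (hM : EO pos' fun (z : α × γ) τ => z.2 ∈ M z.1 τ) :
    EO pos' fun (z : α × (β ⊕ γ)) τ => z.2 ∈ posS pos (ξ z.1 τ, M z.1 τ) := by
  refine ((EO.ex (P := fun (y : (α × (β ⊕ γ)) × β) τ => y.1.2 = Sum.inl y.2 ∧ y.2 ∈ pos (ξ y.1.1 τ))
    ((EO.of_pred (pp_eq (by fun_prop) (by fun_prop))).and
      (hξ.comp (f := fun y : (α × (β ⊕ γ)) × β => (y.1.1, y.2)) (by fun_prop)))).or
    (EO.ex (P := fun (y : (α × (β ⊕ γ)) × γ) τ => y.1.2 = Sum.inr y.2 ∧ y.2 ∈ M y.1.1 τ)
    ((EO.of_pred (pp_eq (by fun_prop) (by fun_prop))).and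
      (hM.comp (f := fun y : (α × (β ⊕ γ)) × γ => (y.1.1, y.2)) (by fun_prop))))).congr ?_
  rintro ⟨a, b | c⟩ τ <;> simp

/-- A predicate of the first entry only. -/
theorem EO.fst {P : α → T → Prop} (h : EO pos P) :
    EO (posS pos) fun a (z : T × Set γ) => P a z.1 :=
  h.subst (ξ := fun _ (z : T × Set γ) => z.1) (f := fun a => a)
    (EO.lit (pos := posS pos) (f := fun z : α × β => Sum.inl z.2) (by fun_prop)) Primrec.id

section Fix

open Classical in
/-- One step of a derivation. -/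
noncomputable def dstep (q : (γ × List (β ⊕ γ)) × ℕ → Prop) (L₀ : List β)
    (s : (γ × List (β ⊕ γ)) × ℕ) (D : List γ) : List γ :=
  if q s ∧ ∀ z ∈ s.1.2, z ∈ L₀.map Sum.inl ++ D.map Sum.inr then s.1.1 :: D else D

omit [Primcodable β] [Primcodable γ] in
theorem sub_dstep (q : (γ × List (β ⊕ γ)) × ℕ → Prop) (L₀ : List β)
    (r : List ((γ × List (β ⊕ γ)) × ℕ)) (D : List γ) : ∀ c ∈ D, c ∈ r.foldr (dstep q L₀) D := by
  induction r with
  | nil => simp
  | cons s r ih =>
    intro c hc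
    simp only [List.foldr_cons, dstep]
    split_ifs
    · exact List.mem_cons_of_mem _ (ih c hc)
    · exact ih c hc

omit [Primcodable β] [Primcodable γ] in
theorem dstep_mono (q : (γ × List (β ⊕ γ)) × ℕ → Prop) {L₀ L₁ : List β} (hL : ∀ b ∈ L₀, b ∈ L₁)
    (r : List ((γ × List (β ⊕ γ)) × ℕ)) {D D' : List γ} (hD : ∀ c ∈ D, c ∈ D') :
    ∀ c ∈ r.foldr (dstep q L₀) D, c ∈ r.foldr (dstep q L₁) D' := by
  induction r with
  | nil => simpa using hD
  | cons s r ih =>
    intro c hc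
    simp only [List.foldr_cons] at hc ⊢
    generalize r.foldr (dstep q L₀) D = E at hc ih
    generalize r.foldr (dstep q L₁) D' = E' at ih ⊢
    unfold dstep at hc ⊢
    split_ifs at hc with h1
    · rw [if_pos]
      · rcases List.mem_cons.1 hc with rfl | hc
        · exact List.mem_cons_self
        · exact List.mem_cons_of_mem _ (ih c hc)
      · refine ⟨h1.1, fun z hz => ?_⟩
        have := h1.2 z hz
        simp only [List.mem_append, List.mem_map] at this ⊢
        rcases this with ⟨b, hb, rfl⟩ | ⟨d, hd, rfl⟩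
        · exact Or.inl ⟨b, hL b hb, rfl⟩
        · exact Or.inr ⟨d, ih d hd, rfl⟩
    · split_ifs
      · exact List.mem_cons_of_mem _ (ih c hc)
      · exact ih c hc

/-- An enumeration operator has a uniformly enumerable fixed point. -/
theorem EO.exists_fix {G : γ → T × Set γ → Prop} (h : EO (posS pos) G) :
    ∃ S : T → Set γ, EO pos (fun c τ => c ∈ S τ) ∧ ∀ τ c, c ∈ S τ ↔ G c (τ, S τ) := by
  classical
  obtain ⟨Q, ⟨q, hq, hQ⟩, H⟩ := h
  let S : T → Set γ := fun τ => {c | ∃ L₀ : List β,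
    (∃ r, c ∈ List.foldr (dstep q L₀) [] r) ∧ ∀ b ∈ L₀, b ∈ pos τ}
  have hstep : Primrec fun z : List β × ((γ × List (β ⊕ γ)) × ℕ) × List γ =>
      dstep q z.1 z.2.1 z.2.2 := by
    unfold dstep
    exact Primrec.ite ((hq.comp (by fun_prop)).and (pp_sub (by fun_prop) (by fun_prop)))
      (by fun_prop) (by fun_prop)
  have hder : Primrec fun z : (γ × List β) × List ((γ × List (β ⊕ γ)) × ℕ) =>
      List.foldr (dstep q z.1.2) [] z.2 :=
    Primrec.list_foldr (f := fun z : (γ × List β) × List ((γ × List (β ⊕ γ)) × ℕ) => z.2)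
      (g := fun _ => []) (h := fun z y => dstep q z.1.2 y.1 y.2) (by fun_prop) (by fun_prop)
      (hstep.comp (g := fun y : ((γ × List β) × List ((γ × List (β ⊕ γ)) × ℕ)) ×
        (((γ × List (β ⊕ γ)) × ℕ) × List γ) => (y.1.1.2, y.2)) (by fun_prop))
  refine ⟨S, ⟨fun z => ∃ r, z.1 ∈ List.foldr (dstep q z.2) [] r,
    CE.ex (p := fun y : (γ × List β) × List ((γ × List (β ⊕ γ)) × ℕ) =>
      y.1.1 ∈ List.foldr (dstep q y.1.2) [] y.2) (CE.of_pred (pp_mem (by fun_prop) hder)),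
    fun c τ => Iff.rfl⟩, fun τ c => ⟨?_, ?_⟩⟩
  · rintro ⟨L₀, ⟨r, hr⟩, hL⟩
    induction r with
    | nil => simp at hr
    | cons s r ih =>
      simp only [List.foldr_cons] at hr
      rw [dstep] at hr
      split_ifs at hr with h1
      · rcases List.mem_cons.1 hr with rfl | hr
        · refine (H _ _).2 ⟨s.1.2, (hQ _).2 ⟨s.2, h1.1⟩, fun z hz => ?_⟩
          have := h1.2 z hz
          simp only [List.mem_append, List.mem_map] at this
          rcases this with ⟨b, hb, rfl⟩ | ⟨d, hd, rfl⟩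
          · exact hL b hb
          · exact ⟨L₀, ⟨r, hd⟩, hL⟩
        · exact ih hr
      · exact ih hr
  · intro hG
    obtain ⟨L, h1, h2⟩ := (H _ _).1 hG
    obtain ⟨w, hw⟩ := (hQ _).1 h1
    have key : ∃ (L₀ : List β) (r : List ((γ × List (β ⊕ γ)) × ℕ)), (∀ b ∈ L₀, b ∈ pos τ) ∧
        ∀ z ∈ L, z ∈ L₀.map Sum.inl ++ (List.foldr (dstep q L₀) [] r).map Sum.inr := by
      clear h1 hw
      induction L with
      | nil => exact ⟨[], [], by simp, by simp⟩
      | cons z L ih =>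
        obtain ⟨L₀, r, h3, h4⟩ := ih fun y hy => h2 y (List.mem_cons_of_mem _ hy)
        have hz := h2 z List.mem_cons_self
        rcases z with b | d
        · refine ⟨b :: L₀, r, by simpa using ⟨hz, h3⟩, fun y hy => ?_⟩
          rcases List.mem_cons.1 hy with rfl | hy
          · simp
          · have := h4 y hy
            simp only [List.mem_append, List.mem_map] at this ⊢
            rcases this with ⟨b', hb, rfl⟩ | ⟨d, hd, rfl⟩
            · exact Or.inl ⟨b', List.mem_cons_of_mem _ hb, rfl⟩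
            · exact Or.inr ⟨d, dstep_mono q (by simp +contextual) r (by simp) d hd, rfl⟩
        · obtain ⟨L₁, ⟨r₁, hr₁⟩, h5⟩ := hz
          refine ⟨L₁ ++ L₀, r₁ ++ r, ?_, fun y hy => ?_⟩
          · intro b hb
            rcases List.mem_append.1 hb with hb | hb
            exacts [h5 b hb, h3 b hb]
          · rw [List.foldr_append]
            simp only [List.mem_append, List.mem_map]
            rcases List.mem_cons.1 hy with rfl | hy
            · exact Or.inr ⟨d, dstep_mono q (by simp +contextual) r₁ (by simp) d hr₁, rfl⟩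
            · have := h4 y hy
              simp only [List.mem_append, List.mem_map] at this
              rcases this with ⟨b', hb, rfl⟩ | ⟨d', hd, rfl⟩
              · exact Or.inl ⟨b', Or.inr hb, rfl⟩
              · exact Or.inr ⟨d', sub_dstep q _ r₁ _ d'
                  (dstep_mono q (by simp +contextual) r (by simp) d' hd), rfl⟩
    obtain ⟨L₀, r, h3, h4⟩ := key
    refine ⟨L₀, ⟨((c, L), w) :: r, ?_⟩, h3⟩
    simp only [List.foldr_cons]
    rw [dstep, if_pos ⟨hw, h4⟩]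
    exact List.mem_cons_self

end Fix

end Pool.Agent.MP_d9ba76_lc
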