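import Pool.Agent.MP_d9ba76_lc.Defs
import Pool.Agent.Lib.CupDegree.Basic

/-! A fixed point theorem on the Hilbert cube. -/

set_option autoImplicit false

namespace Pool.Agent.MP_d9ba76_lc

open Filter Topology

lemma exists_fixed_of_bdd {U : Type*} [NormedAddCommGroup U] [NormedSpace ℝ U]
    [FiniteDimensional ℝ U] (F : U → U) (hF : Continuous F) (hb : ∀ u, ‖F u‖ ≤ 1) :
    ∃ u, F u = u := by
  rcases subsingleton_or_nontrivial U with hU | hU
  · exact ⟨0, Subsingleton.elim _ _⟩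
  by_contra hne
  push Not at hne
  let s : U → ℝ := fun u => max 0 (min 1 (4 - ‖u‖))
  let t : U → ℝ := fun u => max 0 (min 1 (‖u‖ - 2))
  have hs : Continuous s := by fun_prop
  have ht : Continuous t := by fun_prop
  have hs1 : ∀ u : U, ‖u‖ ≤ 3 → s u = 1 := fun u h => by
    simp only [s]; rw [min_eq_left (by linarith), max_eq_right (by norm_num)]
  have hs0 : ∀ u : U, 4 ≤ ‖u‖ → s u = 0 := fun u h => by
    simp only [s]; exact max_eq_left ((min_le_right _ _).trans (by linarith))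
  have ht1 : ∀ u : U, 3 ≤ ‖u‖ → t u = 1 := fun u h => by
    simp only [t]; rw [min_eq_left (by linarith), max_eq_right (by norm_num)]
  have ht0 : ∀ u : U, ‖u‖ ≤ 2 → t u = 0 := fun u h => by
    simp only [t]; exact max_eq_left ((min_le_right _ _).trans (by linarith))
  have hid : ∀ u : U, ‖u‖ ≤ 2 → s u • u - t u • F (s u • u) = u := fun u h => by
    rw [hs1 u (by linarith), ht0 u h]; simp
  refine Pool.Agent.Lib.CupDegree.second_zero (fun u => s u • u - t u • F (s u • u))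
    (by fun_prop) ?_ ?_ 4 (-F 0) ?_
  · filter_upwards [Metric.closedBall_mem_nhds (0 : U) (by norm_num : (0 : ℝ) < 2)] with u hu
    exact hid u (by simpa using hu)
  · intro u hu
    rcases le_total ‖u‖ 2 with h2 | h2
    · rwa [hid u h2] at hu
    rcases le_total ‖u‖ 3 with h3 | h3
    · rw [hs1 u h3, one_smul, sub_eq_zero] at hu
      have h4 : ‖t u • F u‖ ≤ 1 := by
        rw [norm_smul, Real.norm_eq_abs, abs_of_nonneg (le_max_left _ _)]
        exact mul_le_one₀ (max_le zero_le_one (min_le_left _ _)) (norm_nonneg _) (hb u)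
      rw [← hu] at h4
      linarith
    · rw [ht1 u h3, one_smul, sub_eq_zero] at hu
      exact absurd hu.symm (hne _)
  · intro u hu
    rw [hs0 u hu, ht1 u (by linarith)]; simp

/-- Brouwer's fixed point theorem for finite cubes. -/
theorem brouwer_cube (M : ℕ) (f : (Fin M → unitInterval) → (Fin M → unitInterval))
    (hf : Continuous f) : ∃ x, f x = x := by
  let r : (Fin M → ℝ) → Fin M → unitInterval := fun u k => Set.projIcc 0 1 zero_le_one (u k)
  have hr : Continuous r :=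
    continuous_pi fun k => continuous_projIcc.comp (continuous_apply k)
  obtain ⟨u, hu⟩ := exists_fixed_of_bdd (U := Fin M → ℝ) (fun u k => (f (r u) k : ℝ))
    (continuous_pi fun k =>
      continuous_subtype_val.comp ((continuous_apply k).comp (hf.comp hr)))
    fun u => (pi_norm_le_iff_of_nonneg zero_le_one).2 fun k => by
      rw [Real.norm_eq_abs, abs_of_nonneg (f (r u) k).2.1]; exact (f (r u) k).2.2
  refine ⟨r u, funext fun k => ?_⟩
  have h1 : (f (r u) k : ℝ) = u k := congrFun hu k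
  show f (r u) k = Set.projIcc 0 1 zero_le_one (u k)
  rw [← h1, Set.projIcc_val]

/-- Iterated minimum: `a M ⊓ c 0 ⊓ ... ⊓ c (M - 1)`. -/
noncomputable def itMin {X : Type*} (a : X → ℝ) (c : ℕ → X → ℝ) : ℕ → X → ℝ
  | 0 => a
  | M + 1 => fun x => min (itMin a c M x) (c M x)

lemma itMin_cont {X : Type*} [TopologicalSpace X] {a : X → ℝ} {c : ℕ → X → ℝ} (ha : Continuous a)
    (hc : ∀ i, Continuous (c i)) : ∀ M, Continuous (itMin a c M)
  | 0 => ha
  | M + 1 => (itMin_cont ha hc M).min (hc M)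

lemma itMin_le_left {X : Type*} (a : X → ℝ) (c : ℕ → X → ℝ) (x : X) : ∀ M, itMin a c M x ≤ a x
  | 0 => le_rfl
  | M + 1 => (min_le_left _ _).trans (itMin_le_left a c x M)

lemma itMin_le {X : Type*} (a : X → ℝ) (c : ℕ → X → ℝ) (x : X) {i : ℕ} :
    ∀ M, i < M → itMin a c M x ≤ c i x
  | 0, h => absurd h (Nat.not_lt_zero i)
  | M + 1, h => by
    rcases Nat.lt_succ_iff_lt_or_eq.1 h with h | h
    · exact (min_le_left _ _).trans (itMin_le a c x M h)
    · rw [h]; exact min_le_right _ _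

lemma le_itMin {X : Type*} (a : X → ℝ) (c : ℕ → X → ℝ) (x : X) {y : ℝ} (ha : y ≤ a x) :
    ∀ M, (∀ i < M, y ≤ c i x) → y ≤ itMin a c M x
  | 0, _ => ha
  | M + 1, h => le_min (le_itMin a c x ha M fun i hi => h i (Nat.lt_succ_of_lt hi))
      (h M (Nat.lt_succ_self M))

theorem fixed_point (b v : ℕ → ℕ → (ℕ → unitInterval) → ℝ)
    (hb : ∀ k i, Continuous (b k i)) (hv : ∀ k i, Continuous (v k i))
    (hb0 : ∀ k i θ, 0 ≤ b k i θ) (hb1 : ∀ k i θ, b k i θ ≤ 1)
    (hbm : ∀ k θ, Monotone fun i => b k i θ) (hvm : ∀ k θ, Monotone fun i => v k i θ) :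
    ∃ θ : ℕ → unitInterval, ∀ k,
      ((∃ i, 0 < v k i θ) → ∃ i, (θ k : ℝ) ≤ b k i θ) ∧
      ((∀ i, v k i θ ≤ 0) → ∀ i, b k i θ ≤ (θ k : ℝ)) := by
  obtain ⟨u, hu⟩ : ∃ u : ℕ → ℕ → (ℕ → unitInterval) → ℝ,
    u = fun k i θ => max 0 (1 - 2 ^ i * v k i θ) := ⟨_, rfl⟩
  have huc : ∀ k i, Continuous (u k i) := fun k i => by
    rw [hu]; exact continuous_const.max (continuous_const.sub (continuous_const.mul (hv k i)))
  have hu0 : ∀ k i θ, 0 ≤ u k i θ := fun k i θ => by rw [hu]; exact le_max_left _ _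
  obtain ⟨φ, hφ⟩ : ∃ φ : ℕ → ℕ → (ℕ → unitInterval) → ℝ,
    φ = fun M k => itMin (b k M) (fun i θ => b k i θ + u k i θ) M := ⟨_, rfl⟩
  have hφc : ∀ M k, Continuous (φ M k) := fun M k => by
    rw [hφ]; exact itMin_cont (hb k M) (fun i => (hb k i).add (huc k i)) M
  have hφ0 : ∀ M k θ, 0 ≤ φ M k θ := fun M k θ => by
    rw [hφ]
    exact le_itMin _ _ _ (hb0 k M θ) M fun i _ => add_nonneg (hb0 k i θ) (hu0 k i θ)
  have hφ1 : ∀ M k θ, φ M k θ ≤ 1 := fun M k θ => by
    rw [hφ]; exact (itMin_le_left _ _ _ M).trans (hb1 k M θ)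
  have key : ∀ M, ∃ θ : ℕ → unitInterval, ∀ k < M, (θ k : ℝ) = φ M k θ := by
    intro M
    let ext : (Fin M → unitInterval) → ℕ → unitInterval :=
      fun x k => if h : k < M then x ⟨k, h⟩ else 0
    have hext : Continuous ext := continuous_pi fun k => by
      by_cases h : k < M
      · simp only [ext, dif_pos h]; exact continuous_apply _
      · simp only [ext, dif_neg h]; exact continuous_const
    obtain ⟨x, hx⟩ := brouwer_cube M
      (fun x k => ⟨φ M k (ext x), hφ0 _ _ _, hφ1 _ _ _⟩)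
      (continuous_pi fun k => ((hφc M k).comp hext).subtype_mk _)
    refine ⟨ext x, fun k hk => ?_⟩
    have h1 := congrArg Subtype.val (congrFun hx ⟨k, hk⟩)
    simp only [ext, dif_pos hk]
    exact h1.symm
  choose Θ hΘ using key
  obtain ⟨θ, ψ, hψ, hlim⟩ := CompactSpace.tendsto_subseq Θ
  have hk : ∀ k, Tendsto (fun n => (Θ (ψ n) k : ℝ)) atTop (𝓝 (θ k : ℝ)) := fun k =>
    (Continuous.tendsto (f := fun θ : ℕ → unitInterval => (θ k : ℝ)) (by fun_prop) θ).comp hlim
  have hev : ∀ m, ∀ᶠ n in atTop, m < ψ n := fun m =>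
    hψ.tendsto_atTop.eventually (eventually_gt_atTop m)
  refine ⟨θ, fun k => ⟨?_, fun h j => ?_⟩⟩
  · rintro ⟨i0, hi0⟩
    obtain ⟨i1, hi1⟩ := pow_unbounded_of_one_lt (1 / v k i0 θ) (by norm_num : (1 : ℝ) < 2)
    refine ⟨max i0 i1, ?_⟩
    have h1 : u k (max i0 i1) θ = 0 := by
      rw [hu]
      refine max_eq_left ?_
      have h2 : v k i0 θ ≤ v k (max i0 i1) θ := hvm k θ (le_max_left _ _)
      have h3 : (2 : ℝ) ^ i1 ≤ 2 ^ max i0 i1 := pow_le_pow_right₀ (by norm_num) (le_max_right _ _)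
      rw [div_lt_iff₀ hi0] at hi1
      have h4 : (2 : ℝ) ^ i1 * v k i0 θ ≤ 2 ^ max i0 i1 * v k (max i0 i1) θ :=
        mul_le_mul h3 h2 hi0.le (by positivity)
      linarith
    have h2 := (((hb k (max i0 i1)).add (huc k (max i0 i1))).tendsto θ).comp hlim
    have h3 := le_of_tendsto_of_tendsto (hk k) h2 (by
      filter_upwards [hev k, hev (max i0 i1)] with n hn hn'
      rw [hΘ _ k hn, hφ]
      exact itMin_le _ _ _ _ hn')
    have h4 : (θ k : ℝ) ≤ b k (max i0 i1) θ + u k (max i0 i1) θ := h3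
    linarith
  · have h1 : b k j θ ≤ itMin (b k j) (u k) j θ := le_itMin _ _ _ le_rfl j fun i _ => by
      rw [hu]
      have h2 : (2 : ℝ) ^ i * v k i θ ≤ 0 := mul_nonpos_of_nonneg_of_nonpos (by positivity) (h i)
      exact le_max_of_le_right (by linarith [hb1 k j θ])
    refine h1.trans ?_
    have h2 := ((itMin_cont (hb k j) (huc k) j).tendsto θ).comp hlim
    refine le_of_tendsto_of_tendsto h2 (hk k) ?_
    filter_upwards [hev k, hev j] with n hn hn'
    rw [hΘ _ k hn, hφ]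
    have h3 := itMin_le_left (b k j) (u k) (Θ (ψ n)) j
    refine le_itMin _ _ _ (h3.trans (hbm k _ hn'.le)) _ fun i _ => ?_
    rcases lt_or_ge i j with hi | hi
    · have h4 := itMin_le (b k j) (u k) (Θ (ψ n)) j hi
      have h5 := hb0 k i (Θ (ψ n))
      show itMin (b k j) (u k) j (Θ (ψ n)) ≤ _
      linarith
    · have h4 : b k j (Θ (ψ n)) ≤ b k i (Θ (ψ n)) := hbm k _ hi
      have h5 := hu0 k i (Θ (ψ n))
      show itMin (b k j) (u k) j (Θ (ψ n)) ≤ _
      linarith

end Pool.Agent.MP_d9ba76_lc
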