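import Pool.Agent.MP_d9ba76_lc.Defs

/-! Spectral gap for generalised Bernoulli shifts of a free group. -/

set_option autoImplicit false

open MeasureTheory

namespace Pool.Agent.MP_d9ba76_lc

section PingPong

variable {H B : Type} [NormedAddCommGroup H] [InnerProductSpace ℝ H]

theorem norm_sum_sq_of_orth (s : Finset ℕ) (v : ℕ → H)
    (h : ∀ i j, i ≠ j → inner ℝ (v i) (v j) = 0) :
    ‖∑ i ∈ s, v i‖ ^ 2 = ∑ i ∈ s, ‖v i‖ ^ 2 := by
  rw [← real_inner_self_eq_norm_sq, sum_inner]
  refine Finset.sum_congr rfl fun i hi => ?_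
  rw [inner_sum, Finset.sum_eq_single i]
  · exact real_inner_self_eq_norm_sq _
  · intro j _ hj
    exact h i j hj.symm
  · intro hi'
    exact absurd hi hi'

theorem orth_of_disjoint (ψ : B → H) (horth : ∀ β γ, β ≠ γ → inner ℝ (ψ β) (ψ γ) = 0)
    {S T : Set B} (hST : Disjoint S T) {x y : H} (hx : x ∈ Submodule.span ℝ (ψ '' S))
    (hy : y ∈ Submodule.span ℝ (ψ '' T)) : inner ℝ x y = 0 := by
  have h : Submodule.IsOrtho (Submodule.span ℝ (ψ '' S)) (Submodule.span ℝ (ψ '' T)) := by
    rw [Submodule.isOrtho_span]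
    rintro _ ⟨β, hβ, rfl⟩ _ ⟨γ, hγ, rfl⟩
    refine horth β γ ?_
    rintro rfl
    exact Set.disjoint_left.1 hST hβ hγ
  exact h.inner_eq hx hy

theorem split_span (ψ : B → H) (S T : Set B) {f : H} (hf : f ∈ Submodule.span ℝ (ψ '' S)) :
    ∃ g ∈ Submodule.span ℝ (ψ '' (S ∩ T)), f - g ∈ Submodule.span ℝ (ψ '' (S \ T)) := by
  have h1 : ψ '' S = ψ '' (S ∩ T) ∪ ψ '' (S \ T) := by
    rw [← Set.image_union, Set.inter_union_sdiff]
  rw [h1, Submodule.span_union, Submodule.mem_sup] at hf
  obtain ⟨g, hg, h, hh, rfl⟩ := hf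
  exact ⟨g, hg, by simpa using hh⟩

theorem map_span_mem (ψ : B → H) (U : H →ₗᵢ[ℝ] H) (a : B → B) (hU : ∀ β, U (ψ β) = ψ (a β))
    {S T : Set B} (hST : ∀ β ∈ S, a β ∈ T) {f : H} (hf : f ∈ Submodule.span ℝ (ψ '' S)) :
    U f ∈ Submodule.span ℝ (ψ '' T) := by
  induction hf using Submodule.span_induction with
  | mem x hx =>
    obtain ⟨β, hβ, rfl⟩ := hx
    rw [hU]
    exact Submodule.subset_span ⟨_, hST β hβ, rfl⟩
  | zero => simp
  | add x y _ _ hx hy => rw [map_add]; exact Submodule.add_mem _ hx hy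
  | smul c x _ hx => rw [map_smul]; exact Submodule.smul_mem _ _ hx

theorem pingpong (ψ : B → H) (horth : ∀ β γ, β ≠ γ → inner ℝ (ψ β) (ψ γ) = 0)
    (N : ℕ) (U : ℕ → H →ₗᵢ[ℝ] H) (a : ℕ → B → B) (hU : ∀ i β, U i (ψ β) = ψ (a i β))
    (S : Set B) (P Q : ℕ → Set B) (hP : ∀ i j, i ≠ j → Disjoint (P i) (P j))
    (hQ : ∀ i j, i ≠ j → Disjoint (Q i) (Q j))
    (h : ∀ i, ∀ β ∈ S, β ∉ Q i → a i β ∈ P i) {f : H} (hf : f ∈ Submodule.span ℝ (ψ '' S)) :
    ‖∑ i ∈ Finset.range N, U i f‖ ^ 2 ≤ 4 * N * ‖f‖ ^ 2 := by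
  choose g hg hg' using fun i => split_span ψ S (Q i) hf
  have hgg : ∀ i j, i ≠ j → inner ℝ (g i) (g j) = 0 := fun i j hij =>
    orth_of_disjoint ψ horth
      ((hQ i j hij).mono Set.inter_subset_right Set.inter_subset_right) (hg i) (hg j)
  have hgf : ∀ i, inner ℝ (g i) (f - g i) = 0 := fun i =>
    orth_of_disjoint ψ horth
      (Set.disjoint_left.2 fun β h1 h2 => h2.2 h1.2) (hg i) (hg' i)
  have hgf' : ∀ i, inner ℝ (g i) f = ‖g i‖ ^ 2 := fun i => by
    have := hgf i
    rw [inner_sub_right, real_inner_self_eq_norm_sq] at this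
    linarith
  have h1 : ∑ i ∈ Finset.range N, ‖g i‖ ^ 2 ≤ ‖f‖ ^ 2 := by
    have e1 := norm_sum_sq_of_orth (Finset.range N) g hgg
    have e2 : inner ℝ (∑ i ∈ Finset.range N, g i) f = ∑ i ∈ Finset.range N, ‖g i‖ ^ 2 := by
      rw [sum_inner]
      exact Finset.sum_congr rfl fun i _ => hgf' i
    have e3 := norm_sub_sq_real (∑ i ∈ Finset.range N, g i) f
    have e4 := sq_nonneg ‖∑ i ∈ Finset.range N, g i - f‖
    linarith
  have h2 : ∀ i, ‖f - g i‖ ^ 2 ≤ ‖f‖ ^ 2 := fun i => by
    have e3 := norm_sub_sq_real f (g i)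
    rw [real_inner_comm, hgf' i] at e3
    have e4 := sq_nonneg ‖g i‖
    linarith
  have h3 : ‖∑ i ∈ Finset.range N, U i (g i)‖ ^ 2 ≤ N * ‖f‖ ^ 2 := by
    have e1 : ‖∑ i ∈ Finset.range N, U i (g i)‖ ≤ ∑ i ∈ Finset.range N, ‖g i‖ := by
      refine (norm_sum_le _ _).trans (le_of_eq ?_)
      exact Finset.sum_congr rfl fun i _ => (U i).norm_map _
    have e2 := sq_sum_le_card_mul_sum_sq (s := Finset.range N) (f := fun i => ‖g i‖)
    rw [Finset.card_range] at e2
    have e3 : ‖∑ i ∈ Finset.range N, U i (g i)‖ ^ 2 ≤ (∑ i ∈ Finset.range N, ‖g i‖) ^ 2 :=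
      pow_le_pow_left₀ (norm_nonneg _) e1 2
    have e4 : (N : ℝ) * ∑ i ∈ Finset.range N, ‖g i‖ ^ 2 ≤ N * ‖f‖ ^ 2 :=
      mul_le_mul_of_nonneg_left h1 (Nat.cast_nonneg N)
    linarith
  have h4 : ‖∑ i ∈ Finset.range N, U i (f - g i)‖ ^ 2 ≤ N * ‖f‖ ^ 2 := by
    have hm : ∀ i, U i (f - g i) ∈ Submodule.span ℝ (ψ '' P i) := fun i =>
      map_span_mem ψ (U i) (a i) (hU i) (fun β hβ => h i β hβ.1 hβ.2) (hg' i)
    rw [norm_sum_sq_of_orth _ _ fun i j hij =>
      orth_of_disjoint ψ horth (hP i j hij) (hm i) (hm j)]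
    calc ∑ i ∈ Finset.range N, ‖U i (f - g i)‖ ^ 2 ≤ ∑ _i ∈ Finset.range N, ‖f‖ ^ 2 := by
          refine Finset.sum_le_sum fun i _ => ?_
          rw [(U i).norm_map]
          exact h2 i
      _ = N * ‖f‖ ^ 2 := by simp
  have h5 : ∑ i ∈ Finset.range N, U i f =
      ∑ i ∈ Finset.range N, U i (g i) + ∑ i ∈ Finset.range N, U i (f - g i) := by
    rw [← Finset.sum_add_distrib]
    refine Finset.sum_congr rfl fun i _ => ?_
    rw [← map_add]
    simp
  rw [h5]
  have e1 := norm_add_le (∑ i ∈ Finset.range N, U i (g i)) (∑ i ∈ Finset.range N, U i (f - g i))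
  have e2 := pow_le_pow_left₀ (norm_nonneg _) e1 2
  nlinarith [sq_nonneg (‖∑ i ∈ Finset.range N, U i (g i)‖ -
    ‖∑ i ∈ Finset.range N, U i (f - g i)‖)]

/-- The averaging operator, unnormalised. -/
noncomputable def opT (N : ℕ) (U : ℕ → H →ₗᵢ[ℝ] H) (f : H) : H := ∑ i ∈ Finset.range N, U i f

theorem continuous_opT (N : ℕ) (U : ℕ → H →ₗᵢ[ℝ] H) : Continuous (opT N U) :=
  continuous_finsetSum _ fun i _ => (U i).continuous

theorem pingpong_iter (ψ : B → H) (horth : ∀ β γ, β ≠ γ → inner ℝ (ψ β) (ψ γ) = 0)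
    (N : ℕ) (U : ℕ → H →ₗᵢ[ℝ] H) (a : ℕ → B → B) (hU : ∀ i β, U i (ψ β) = ψ (a i β))
    (S : Set B) (hS : ∀ i, ∀ β ∈ S, a i β ∈ S)
    (P Q : ℕ → Set B) (hP : ∀ i j, i ≠ j → Disjoint (P i) (P j))
    (hQ : ∀ i j, i ≠ j → Disjoint (Q i) (Q j))
    (h : ∀ i, ∀ β ∈ S, β ∉ Q i → a i β ∈ P i) (m : ℕ) {f : H}
    (hf : f ∈ closure (Submodule.span ℝ (ψ '' S) : Set H)) :
    ‖(opT N U)^[m] f‖ ^ 2 ≤ (4 * N : ℝ) ^ m * ‖f‖ ^ 2 := by
  have hc : IsClosed {f : H | ‖(opT N U)^[m] f‖ ^ 2 ≤ (4 * N : ℝ) ^ m * ‖f‖ ^ 2} :=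
    isClosed_le (((continuous_opT N U).iterate m).norm.pow 2)
      (continuous_const.mul (continuous_norm.pow 2))
  refine closure_minimal (fun f hf => ?_) hc hf
  change ‖(opT N U)^[m] f‖ ^ 2 ≤ (4 * N : ℝ) ^ m * ‖f‖ ^ 2
  clear hc
  induction m generalizing f with
  | zero => simp
  | succ m ih =>
    have h1 : opT N U f ∈ (Submodule.span ℝ (ψ '' S) : Set H) :=
      Submodule.sum_mem _ fun i _ => map_span_mem ψ (U i) (a i) (hU i) (hS i) hf
    have h2 : ‖opT N U f‖ ^ 2 ≤ 4 * N * ‖f‖ ^ 2 := pingpong ψ horth N U a hU S P Q hP hQ h hf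
    rw [Function.iterate_succ_apply, pow_succ (4 * N : ℝ), mul_assoc]
    exact (ih _ h1).trans (mul_le_mul_of_nonneg_left h2 (by positivity))

end PingPong

section Label

theorem exists_label {G X : Type} [Group G] (act : G → X → X) (h1 : ∀ x, act 1 x = x)
    (hm : ∀ g h x, act (g * h) x = act g (act h x)) (S : Set X)
    (hS : ∀ g, ∀ x ∈ S, act g x ∈ S) (hfree : ∀ g, ∀ x ∈ S, act g x = x → g = 1) :
    ∃ lab : X → G, ∀ g, ∀ x ∈ S, lab (act g x) = g * lab x := by
  let r : Setoid X :=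
    { r := fun x y => ∃ g, act g y = x
      iseqv :=
        { refl := fun x => ⟨1, h1 x⟩
          symm := by
            rintro x y ⟨g, rfl⟩
            exact ⟨g⁻¹, by rw [← hm, inv_mul_cancel, h1]⟩
          trans := by
            rintro x y z ⟨g, rfl⟩ ⟨h, rfl⟩
            exact ⟨g * h, hm g h z⟩ } }
  have hex : ∀ x : X, ∃ g, act g (Quotient.mk r x).out = x := fun x =>
    r.symm (Quotient.mk_out (s := r) x)
  choose lab hlab using hex
  refine ⟨lab, fun g x hx => ?_⟩
  have e : Quotient.mk r (act g x) = Quotient.mk r x := Quotient.sound ⟨g, rfl⟩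
  have e1 := hlab (act g x)
  rw [e] at e1
  have e2 := hlab x
  have e3 : act (lab x)⁻¹ x = (Quotient.mk r x).out := by
    have e := congrArg (act (lab x)⁻¹) e2
    rw [← hm, inv_mul_cancel, h1] at e
    exact e.symm
  have e4 : act (lab (act g x) * (lab x)⁻¹ * g⁻¹) (act g x) = act g x := by
    rw [hm, hm, ← hm g⁻¹, inv_mul_cancel, h1, e3, e1]
  have e5 := hfree _ _ (hS g x hx) e4
  have e6 : lab (act g x) = (lab (act g x) * (lab x)⁻¹ * g⁻¹) * (g * lab x) := by group
  rw [e6, e5, one_mul]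

theorem free_finset {I : Type} (ρ : FreeGroup ℕ →* Equiv.Perm I)
    (hfree : ∀ g p, ρ g p = p → g = 1) (g : FreeGroup ℕ) (β : Finset I) (hβ : β.Nonempty)
    (h : β.map (ρ g).toEmbedding = β) : g = 1 := by
  obtain ⟨p, hp⟩ := hβ
  have hk : ∀ k : ℕ, ρ (g ^ k) p ∈ β := by
    intro k
    induction k with
    | zero => simpa using hp
    | succ k ih =>
      rw [pow_succ', map_mul, Equiv.Perm.mul_apply, ← h]
      exact Finset.mem_map_of_mem _ ih
  obtain ⟨k, l, hkl, e⟩ := Set.Finite.exists_lt_map_eq_of_forall_mem (t := (β : Set I))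
    (f := fun k : ℕ => ρ (g ^ k) p) hk β.finite_toSet
  obtain ⟨d, rfl⟩ := Nat.exists_eq_add_of_lt hkl
  have e1 : ρ (g ^ (d + 1)) p = p := by
    simp only [add_assoc, pow_add g k, map_mul, Equiv.Perm.mul_apply] at e
    exact ((ρ (g ^ k)).injective e).symm
  have e2 := hfree _ _ e1
  exact (pow_eq_one_iff_left (Nat.succ_ne_zero d)).1 e2

end Label


theorem measurable_shf {I : Type} (s : I → I) : Measurable (shf s) :=
  measurable_pi_lambda _ fun p => measurable_pi_apply (s p)

theorem mp_shf {I : Type} (ν : I → Measure Bool) [∀ p, IsProbabilityMeasure (ν p)]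
    (s : Equiv.Perm I) (hν : ∀ p, ν (s p) = ν p) :
    MeasurePreserving (shf s) (Measure.infinitePi ν) (Measure.infinitePi ν) := by
  refine ⟨measurable_shf s, Measure.eq_infinitePi ν fun β t ht => ?_⟩
  rw [Measure.map_apply (measurable_shf s)
    (MeasurableSet.pi β.countable_toSet fun i _ => ht i)]
  have e : shf s ⁻¹' Set.pi (β : Set I) t =
      Set.pi ((β.map s.toEmbedding : Finset I) : Set I) fun q => t (s.symm q) := by
    ext x
    simp only [Set.mem_preimage, Set.mem_pi, Finset.mem_coe, Finset.mem_map_equiv, shf]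
    constructor
    · intro h q hq
      simpa using h _ hq
    · intro h p hp
      simpa using h (s p) (by simpa using hp)
  rw [e, Measure.infinitePi_pi ν fun i _ => ht _, Finset.prod_map]
  refine Finset.prod_congr rfl fun p _ => ?_
  simp [hν]

section Walsh

variable {I : Type} (ν : I → Measure Bool) [∀ p, IsProbabilityMeasure (ν p)]

/-- The centred coordinate. -/
noncomputable def cc (p : I) (b : Bool) : ℝ := (if b then 1 else 0) - (ν p).real {true}

/-- Unnormalised Walsh functions. -/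
noncomputable def wal (β : Finset I) (x : I → Bool) : ℝ := ∏ p ∈ β, cc ν p (x p)

theorem integral_cc (p : I) : ∫ b, cc ν p b ∂(ν p) = 0 := by
  rw [integral_fintype (Integrable.of_finite)]
  have h : (ν p).real {true} + (ν p).real {false} = 1 := by
    rw [← measureReal_union (by simp) (by simp)]
    have : ({true} ∪ {false} : Set Bool) = Set.univ := by
      ext b; cases b <;> simp
    rw [this]
    exact probReal_univ
  have h2 : (ν p).real {false} = 1 - (ν p).real {true} := by linarith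
  simp only [Fintype.sum_bool, cc, smul_eq_mul, h2]
  simp
  ring

theorem abs_cc_le (p : I) (b : Bool) : |cc ν p b| ≤ 1 := by
  have h1 : 0 ≤ (ν p).real {true} := measureReal_nonneg
  have h2 : (ν p).real {true} ≤ 1 := measureReal_le_one
  unfold cc
  rw [abs_le]
  cases b
  · simp only [Bool.false_eq_true, if_false]
    constructor <;> linarith
  · simp only [if_true]
    constructor <;> linarith

omit [∀ p, IsProbabilityMeasure (ν p)] in
theorem measurable_wal (β : Finset I) : Measurable (wal ν β) :=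
  Finset.measurable_prod _ fun p _ =>
    (measurable_of_finite (cc ν p)).comp (measurable_pi_apply p)

theorem memLp_wal (β : Finset I) : MemLp (wal ν β) 2 (Measure.infinitePi ν) := by
  refine MemLp.of_bound (measurable_wal ν β).aestronglyMeasurable 1 (ae_of_all _ fun x => ?_)
  rw [Real.norm_eq_abs, wal, Finset.abs_prod]
  exact Finset.prod_le_one (fun _ _ => abs_nonneg _) fun p _ => abs_cc_le ν p _

theorem integral_prod_coord (s : Finset I) (h : I → Bool → ℝ) :
    ∫ x, ∏ p ∈ s, h p (x p) ∂(Measure.infinitePi ν) = ∏ p ∈ s, ∫ b, h p b ∂(ν p) := by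
  have e := integral_restrict_infinitePi ν (s := s)
    (f := fun y : s → Bool => ∏ p : s, h p (y p))
    (measurable_of_finite _).aestronglyMeasurable
  rw [integral_fintype_prod_eq_prod (fun (p : s) b => h p b)] at e
  rw [← Finset.prod_coe_sort s, ← e]
  congr 1
  ext x
  rw [← Finset.prod_coe_sort s]
  rfl

theorem integral_wal_mul {β γ : Finset I} (h : β ≠ γ) :
    ∫ x, wal ν β x * wal ν γ x ∂(Measure.infinitePi ν) = 0 := by
  classical
  have e : ∀ x, wal ν β x * wal ν γ x = ∏ p ∈ β ∪ γ,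
      (fun p b => (if p ∈ β then cc ν p b else 1) * (if p ∈ γ then cc ν p b else 1)) p (x p) := by
    intro x
    simp only [Finset.prod_mul_distrib, Finset.prod_ite_mem, wal]
    rw [Finset.union_inter_cancel_left, Finset.union_inter_cancel_right]
  rw [funext e, integral_prod_coord ν (β ∪ γ)
    (fun p b => (if p ∈ β then cc ν p b else 1) * (if p ∈ γ then cc ν p b else 1))]
  by_cases h1 : β ⊆ γ
  · have h2 : ¬ γ ⊆ β := fun h2 => h (Finset.Subset.antisymm h1 h2)
    obtain ⟨p, hp, hp'⟩ := Finset.not_subset.1 h2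
    refine Finset.prod_eq_zero (i := p) (Finset.mem_union_right _ hp) ?_
    simp [hp, hp', integral_cc]
  · obtain ⟨p, hp, hp'⟩ := Finset.not_subset.1 h1
    refine Finset.prod_eq_zero (i := p) (Finset.mem_union_left _ hp) ?_
    simp [hp, hp', integral_cc]

/-- Walsh functions as elements of `L²`. -/
noncomputable def walL (β : Finset I) : Lp ℝ 2 (Measure.infinitePi ν) :=
  (memLp_wal ν β).toLp _

theorem inner_walL (β γ : Finset I) (h : β ≠ γ) : inner ℝ (walL ν β) (walL ν γ) = 0 := by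
  rw [L2.inner_def, ← integral_wal_mul ν h]
  refine integral_congr_ae ?_
  filter_upwards [(memLp_wal ν β).coeFn_toLp, (memLp_wal ν γ).coeFn_toLp] with x h1 h2
  simp only [walL, h1, h2]
  simp [mul_comm]

omit [∀ p, IsProbabilityMeasure (ν p)] in
theorem wal_shf (s : Equiv.Perm I) (hν : ∀ p, ν (s p) = ν p) (β : Finset I) :
    wal ν β ∘ shf s = wal ν (β.map s.toEmbedding) := by
  ext x
  simp only [wal, Function.comp_apply, Finset.prod_map, Equiv.coe_toEmbedding, cc, hν]
  rfl

theorem shift_walL (s : Equiv.Perm I) (hν : ∀ p, ν (s p) = ν p) (β : Finset I) :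
    Lp.compMeasurePreservingₗᵢ ℝ (shf s) (mp_shf ν s hν) (walL ν β) =
      walL ν (β.map s.toEmbedding) := by
  change Lp.compMeasurePreserving (shf s) (mp_shf ν s hν) ((memLp_wal ν β).toLp _) = _
  rw [Lp.toLp_compMeasurePreserving]
  unfold walL
  congr 1
  exact wal_shf ν s hν β

omit [∀ p, IsProbabilityMeasure (ν p)] in
theorem dep_mem_span (s : Finset I) (F : (I → Bool) → ℝ)
    (hF : ∀ x y : I → Bool, (∀ p ∈ s, x p = y p) → F x = F y) :
    ∃ c : Finset I → ℝ, ∀ x, F x = ∑ β ∈ s.powerset, c β * wal ν β x := by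
  classical
  induction s using Finset.induction_on generalizing F with
  | empty =>
    refine ⟨fun _ => F fun _ => true, fun x => ?_⟩
    simp [wal, hF x fun _ => true]
  | insert p s hp ih =>
    have hu : ∀ (b : Bool) (x y : I → Bool), (∀ q ∈ s, x q = y q) →
        F (Function.update x p b) = F (Function.update y p b) := by
      intro b x y hxy
      refine hF _ _ fun q hq => ?_
      rcases Finset.mem_insert.1 hq with rfl | hq
      · simp
      · have : q ≠ p := fun e => hp (e ▸ hq)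
        simp [this, hxy q hq]
    obtain ⟨c1, h1⟩ := ih (fun x => F (Function.update x p true)) (hu true)
    obtain ⟨c0, h0⟩ := ih (fun x => F (Function.update x p false)) (hu false)
    refine ⟨fun β => if p ∈ β then c1 (β.erase p) - c0 (β.erase p)
      else (ν p).real {true} * c1 β + (1 - (ν p).real {true}) * c0 β, fun x => ?_⟩
    rw [Finset.sum_powerset_insert hp]
    have e1 : ∑ β ∈ s.powerset, (if p ∈ β then c1 (β.erase p) - c0 (β.erase p)
        else (ν p).real {true} * c1 β + (1 - (ν p).real {true}) * c0 β) * wal ν β x =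
        (ν p).real {true} * F (Function.update x p true) +
          (1 - (ν p).real {true}) * F (Function.update x p false) := by
      rw [h1 x, h0 x, Finset.mul_sum, Finset.mul_sum, ← Finset.sum_add_distrib]
      refine Finset.sum_congr rfl fun β hβ => ?_
      have : p ∉ β := fun e => hp (Finset.mem_powerset.1 hβ e)
      rw [if_neg this]
      ring
    have e2 : ∑ β ∈ s.powerset, (if p ∈ insert p β then
          c1 ((insert p β).erase p) - c0 ((insert p β).erase p)
        else (ν p).real {true} * c1 (insert p β) +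
          (1 - (ν p).real {true}) * c0 (insert p β)) * wal ν (insert p β) x =
        cc ν p (x p) * (F (Function.update x p true) - F (Function.update x p false)) := by
      rw [h1 x, h0 x, ← Finset.sum_sub_distrib, Finset.mul_sum]
      refine Finset.sum_congr rfl fun β hβ => ?_
      have : p ∉ β := fun e => hp (Finset.mem_powerset.1 hβ e)
      rw [if_pos (Finset.mem_insert_self p β), Finset.erase_insert this, wal,
        Finset.prod_insert this, wal]
      ring
    rw [e1, e2]
    have e3 : F x = F (Function.update x p (x p)) := by simp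
    rw [e3]
    unfold cc
    cases x p <;> simp <;> ring

theorem indicator_mem_closure (E : Set (I → Bool)) (hE : MeasurableSet E) :
    indicatorConstLp 2 hE (measure_ne_top (Measure.infinitePi ν) E) (1 : ℝ) ∈
      closure (Submodule.span ℝ (walL ν '' Set.univ) : Set (Lp ℝ 2 (Measure.infinitePi ν))) := by
  have hd : (Measure.infinitePi ν).MeasureDense (measurableCylinders fun _ : I => Bool) :=
    Measure.MeasureDense.of_generateFrom_isSetAlgebra_finite _
      isSetAlgebra_measurableCylinders generateFrom_measurableCylinders.symm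
  have : Fact ((2 : ENNReal) ≠ ⊤) := ⟨by simp⟩
  refine closure_mono ?_ (hd.indicatorConstLp_subset_closure 2 (1 : ℝ) ⟨E, hE, _, rfl⟩)
  rintro _ ⟨C, hC, hμ, rfl⟩
  obtain ⟨s, S, _, rfl⟩ := (mem_measurableCylinders _).1 hC
  obtain ⟨c, hc⟩ := dep_mem_span ν s (Set.indicator (cylinder s S) fun _ => (1 : ℝ)) (by
    intro x y hxy
    have e : s.restrict x = s.restrict y := funext fun p => hxy p p.2
    classical
    simp only [Set.indicator_apply, mem_cylinder, e])
  have e : indicatorConstLp 2 (hd.measurable _ hC) hμ (1 : ℝ) =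
      ∑ β ∈ s.powerset, c β • walL ν β := by
    refine Lp.ext ?_
    have h1 : ∀ᵐ x ∂(Measure.infinitePi ν), ∀ β ∈ s.powerset,
        (c β • walL ν β : Lp ℝ 2 (Measure.infinitePi ν)) x = c β * wal ν β x := by
      refine (ae_ball_iff s.powerset.countable_toSet).2 fun β _ => ?_
      filter_upwards [Lp.coeFn_smul (c β) (walL ν β), (memLp_wal ν β).coeFn_toLp] with x h1 h2
      rw [h1, Pi.smul_apply, walL, h2, smul_eq_mul]
    filter_upwards [indicatorConstLp_coeFn (p := 2) (hs := hd.measurable _ hC) (hμs := hμ)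
      (c := (1 : ℝ)), Lp.coeFn_finsetSum s.powerset (fun β => c β • walL ν β), h1]
      with x h2 h3 h4
    rw [h2, h3, hc x, Finset.sum_apply]
    exact Finset.sum_congr rfl fun β hβ => (h4 β hβ).symm
  rw [e]
  exact Submodule.sum_mem _ fun β _ =>
    Submodule.smul_mem _ _ (Submodule.subset_span ⟨β, trivial, rfl⟩)

theorem walL_empty_ae : walL ν ∅ =ᵐ[Measure.infinitePi ν] fun _ => (1 : ℝ) := by
  filter_upwards [(memLp_wal ν ∅).coeFn_toLp] with x h
  rw [walL, h]
  simp [wal]

theorem inner_walL_empty (f : Lp ℝ 2 (Measure.infinitePi ν)) :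
    inner ℝ (walL ν ∅) f = ∫ x, f x ∂(Measure.infinitePi ν) := by
  rw [L2.inner_def]
  refine integral_congr_ae ?_
  filter_upwards [walL_empty_ae ν] with x h
  simp [h]

theorem inner_walL_empty_self : inner ℝ (walL ν ∅) (walL ν ∅) = 1 := by
  rw [inner_walL_empty, integral_congr_ae (walL_empty_ae ν)]
  simp

theorem centre_mem_closure (f : Lp ℝ 2 (Measure.infinitePi ν))
    (hf : f ∈ closure (Submodule.span ℝ (walL ν '' Set.univ) :
      Set (Lp ℝ 2 (Measure.infinitePi ν)))) :
    f - inner ℝ (walL ν ∅) f • walL ν ∅ ∈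
      closure (Submodule.span ℝ (walL ν '' {β | β.Nonempty}) :
        Set (Lp ℝ 2 (Measure.infinitePi ν))) := by
  have hc : Continuous fun f : Lp ℝ 2 (Measure.infinitePi ν) =>
      f - inner ℝ (walL ν ∅) f • walL ν ∅ :=
    by fun_prop
  refine map_mem_closure (f := fun f => f - inner ℝ (walL ν ∅) f • walL ν ∅) hc hf
    fun g hg => ?_
  change g - inner ℝ (walL ν ∅) g • walL ν ∅ ∈ Submodule.span ℝ (walL ν '' {β | β.Nonempty})
  induction hg using Submodule.span_induction with
  | mem x hx =>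
    obtain ⟨β, -, rfl⟩ := hx
    rcases β.eq_empty_or_nonempty with rfl | hβ
    · rw [inner_walL_empty_self]
      simp
    · rw [inner_walL ν _ _ hβ.ne_empty.symm]
      rw [zero_smul, sub_zero]
      exact Submodule.subset_span ⟨β, hβ, rfl⟩
  | zero => simp
  | add x y _ _ hx hy =>
    have e : x + y - inner ℝ (walL ν ∅) (x + y) • walL ν ∅ =
        (x - inner ℝ (walL ν ∅) x • walL ν ∅) + (y - inner ℝ (walL ν ∅) y • walL ν ∅) := by
      rw [inner_add_right, add_smul]
      abel
    rw [e]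
    exact Submodule.add_mem _ hx hy
  | smul c x _ hx =>
    have e : c • x - inner ℝ (walL ν ∅) (c • x) • walL ν ∅ =
        c • (x - inner ℝ (walL ν ∅) x • walL ν ∅) := by
      rw [real_inner_smul_right, smul_sub, smul_smul]
    rw [e]
    exact Submodule.smul_mem _ _ hx

end Walsh

/-- The averaging operator on functions. -/
noncomputable def funT {I : Type} (N : ℕ) (σ : ℕ → I → I) (F : (I → Bool) → ℝ)
    (x : I → Bool) : ℝ := ∑ j ∈ Finset.range N, F (shf (σ j) x)

theorem sum_words {I : Type} (N : ℕ) (σ : ℕ → I → I) (m : ℕ) (F : (I → Bool) → ℝ)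
    (x : I → Bool) :
    ((words N m).map fun w => F (act σ w x)).sum = (funT N σ)^[m] F x := by
  induction m generalizing F with
  | zero => simp [words, act]
  | succ m ih =>
    rw [Function.iterate_succ_apply, ← ih, words]
    induction words N m with
    | nil => simp
    | cons w l ihl =>
      rw [List.flatMap_cons, List.map_append, List.sum_append, ihl, List.map_cons, List.sum_cons]
      congr 1
      simp only [List.map_map, funT]
      rw [← List.sum_toFinset _ List.nodup_range, List.toFinset_range]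
      rfl

theorem length_words (N m : ℕ) : (words N m).length = N ^ m := by
  induction m with
  | zero => simp [words]
  | succ m ih => simp [words, List.length_flatMap, ih, pow_succ]

theorem cnt_sub {I : Type} (N : ℕ) (σ : ℕ → I → I) (m : ℕ) (E : Set (I → Bool)) (c : ℝ)
    (x : I → Bool) : (cnt N σ m E x : ℝ) - (N : ℝ) ^ m * c =
      (funT N σ)^[m] (fun y => E.indicator (fun _ => (1 : ℝ)) y - c) x := by
  classical
  rw [← sum_words, ← Nat.cast_pow, ← length_words, cnt]
  induction words N m with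
  | nil => simp
  | cons w l ih =>
    rw [List.countP_cons, List.map_cons, List.sum_cons, ← ih, List.length_cons]
    by_cases h : act σ w x ∈ E <;> simp [h] <;> ring

theorem opT_ae {I : Type} (μ : Measure (I → Bool)) (N : ℕ) (σ : ℕ → I → I)
    (hσ : ∀ j, MeasurePreserving (shf (σ j)) μ μ) (m : ℕ) (f : Lp ℝ 2 μ) (F : (I → Bool) → ℝ)
    (hf : f =ᵐ[μ] F) :
    ((opT N fun j => Lp.compMeasurePreservingₗᵢ ℝ (shf (σ j)) (hσ j))^[m] f : Lp ℝ 2 μ)
      =ᵐ[μ] (funT N σ)^[m] F := by
  induction m generalizing f F with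
  | zero => exact hf
  | succ m ih =>
    rw [Function.iterate_succ_apply, Function.iterate_succ_apply]
    refine ih _ _ ?_
    have h1 : ∀ᵐ x ∂μ, ∀ j, (Lp.compMeasurePreservingₗᵢ ℝ (shf (σ j)) (hσ j) f : Lp ℝ 2 μ) x =
        F (shf (σ j) x) := by
      refine ae_all_iff.2 fun j => ?_
      filter_upwards [Lp.coeFn_compMeasurePreserving f (hσ j),
        (hσ j).quasiMeasurePreserving.ae_eq_comp hf] with x h1 h2
      exact h1.trans h2
    filter_upwards [h1, Lp.coeFn_finsetSum (Finset.range N)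
      (fun j => Lp.compMeasurePreservingₗᵢ ℝ (shf (σ j)) (hσ j) f)] with x h2 h3
    rw [opT, h3, Finset.sum_apply, funT]
    exact Finset.sum_congr rfl fun j _ => h2 j

theorem cheb {X : Type} [MeasurableSpace X] (μ : Measure X) (f : Lp ℝ 2 μ) (F : X → ℝ)
    (hf : f =ᵐ[μ] F) (η : ℝ) (hη : 0 < η) :
    μ.real {x | η ≤ |F x|} ≤ ‖f‖ ^ 2 / η ^ 2 := by
  have hi : Integrable (fun x => F x ^ 2) μ :=
    ((Lp.memLp f).ae_eq hf).integrable_sq
  have h1 := mul_meas_ge_le_integral_of_nonneg (ae_of_all μ fun x => sq_nonneg (F x)) hi (η ^ 2)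
  have h2 : ∫ x, F x ^ 2 ∂μ = ‖f‖ ^ 2 := by
    rw [← real_inner_self_eq_norm_sq, L2.inner_def]
    refine integral_congr_ae ?_
    filter_upwards [hf] with x hx
    simp [hx]
  have h3 : {x | η ≤ |F x|} = {x | η ^ 2 ≤ F x ^ 2} := by
    ext x
    simp only [Set.mem_ofPred_eq]
    rw [sq_le_sq, abs_of_pos hη]
  rw [h3, le_div_iff₀ (by positivity), mul_comm, ← h2]
  exact h1

/-- Chebyshev form of the bound `‖∑ i < N, f ∘ a i‖₂ ≤ 2 √N ‖f‖₂` on mean zero functions. -/
theorem gap {I : Type} (ρ : FreeGroup ℕ →* Equiv.Perm I) (hfree : ∀ g p, ρ g p = p → g = 1)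
    (ν : I → Measure Bool) [∀ p, IsProbabilityMeasure (ν p)] (hν : ∀ g p, ν (ρ g p) = ν p)
    (N m : ℕ) (E : Set (I → Bool)) (hE : MeasurableSet E) (η : ℝ) (hη : 0 < η) :
    (Measure.infinitePi ν).real
        {x | η ≤ |(cnt N (fun j => ρ (FreeGroup.of j)) m E x : ℝ)
          - (N : ℝ) ^ m * (Measure.infinitePi ν).real E|}
      ≤ (4 * N : ℝ) ^ m * (Measure.infinitePi ν).real E / η ^ 2 := by
  obtain ⟨lab, hlab⟩ := exists_label (G := FreeGroup ℕ) (X := Finset I)
    (fun g β => β.map (ρ g).toEmbedding) (fun β => by rw [map_one]; exact Finset.map_refl)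
    (fun g h β => by rw [Finset.map_map, map_mul]; rfl) {β | β.Nonempty}
    (fun g β hβ => by simpa using hβ) (fun g β hβ h => free_finset ρ hfree g β hβ h)
  have hmp := fun j => mp_shf ν (ρ (FreeGroup.of j)) (hν (FreeGroup.of j))
  set e := indicatorConstLp 2 hE (measure_ne_top (Measure.infinitePi ν) E) (1 : ℝ) with he
  have hin : inner ℝ (walL ν ∅) e = (Measure.infinitePi ν).real E := by
    rw [inner_walL_empty, he, integral_indicatorConstLp]
    simp
  have hcl := centre_mem_closure ν e (indicator_mem_closure ν E hE)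
  rw [hin] at hcl
  have hb := pingpong_iter (walL ν) (inner_walL ν) N
    (fun j => Lp.compMeasurePreservingₗᵢ ℝ (shf (ρ (FreeGroup.of j))) (hmp j))
    (fun j β => β.map (ρ (FreeGroup.of j)).toEmbedding)
    (fun j β => shift_walL ν _ (hν _) β) {β | β.Nonempty} (fun j β hβ => by simpa using hβ)
    (fun j => lab ⁻¹' FreeGroup.startsWith (j, true))
    (fun j => lab ⁻¹' FreeGroup.startsWith (j, false))
    (fun i j hij => Disjoint.preimage _ (by simpa using hij))
    (fun i j hij => Disjoint.preimage _ (by simpa using hij))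
    (fun j β hβ h => by
      rw [Set.mem_preimage, hlab _ β hβ]
      exact FreeGroup.startsWith_mk_mul (w := (j, true)) _ h) m hcl
  have hae : (e - (Measure.infinitePi ν).real E • walL ν ∅ : Lp ℝ 2 (Measure.infinitePi ν))
      =ᵐ[Measure.infinitePi ν]
        fun y => E.indicator (fun _ => (1 : ℝ)) y - (Measure.infinitePi ν).real E := by
    filter_upwards [Lp.coeFn_sub e ((Measure.infinitePi ν).real E • walL ν ∅),
      Lp.coeFn_smul ((Measure.infinitePi ν).real E) (walL ν ∅), walL_empty_ae ν,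
      indicatorConstLp_coeFn (p := 2) (hs := hE)
        (hμs := measure_ne_top (Measure.infinitePi ν) E) (c := (1 : ℝ))] with x h1 h2 h3 h4
    rw [h1, Pi.sub_apply, h2, Pi.smul_apply, h3, he, h4]
    simp
  have hnorm : ‖e - (Measure.infinitePi ν).real E • walL ν ∅‖ ^ 2 ≤
      (Measure.infinitePi ν).real E := by
    have h1 : ‖e‖ ^ 2 = (Measure.infinitePi ν).real E := by
      rw [← real_inner_self_eq_norm_sq, he,
        L2.real_inner_indicatorConstLp_one_indicatorConstLp_one, Set.inter_self]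
    have h2 : ‖walL ν ∅‖ ^ 2 = 1 := by
      rw [← real_inner_self_eq_norm_sq, inner_walL_empty_self]
    rw [norm_sub_sq_real, real_inner_smul_right, real_inner_comm, hin, norm_smul, mul_pow, h1, h2,
      Real.norm_eq_abs, sq_abs]
    nlinarith [sq_nonneg ((Measure.infinitePi ν).real E)]
  have hc := cheb _ _ _ (opT_ae _ N (fun j => ρ (FreeGroup.of j)) hmp m _ _ hae) η hη
  simp_rw [cnt_sub]
  refine hc.trans (div_le_div_of_nonneg_right ?_ (by positivity))
  exact hb.trans (mul_le_mul_of_nonneg_left hnorm (by positivity))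

end Pool.Agent.MP_d9ba76_lc
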