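import Pool.Agent.MP_d9ba76_lc.Defs

/-! Elementary estimates for a probability measure, valid for arbitrary sets. -/

set_option autoImplicit false
set_option linter.unusedSectionVars false

open MeasureTheory Filter Topology
open scoped ENNReal

namespace Pool.Agent.MP_d9ba76_lc

variable {Ω : Type} [MeasurableSpace Ω] {μ : Measure Ω} [IsProbabilityMeasure μ]

theorem real_le_iff {E : Set Ω} {c : ℝ} (hc : 0 ≤ c) : μ.real E ≤ c ↔ μ E ≤ ENNReal.ofReal c := by
  rw [Measure.real, ENNReal.le_ofReal_iff_toReal_le (measure_ne_top _ _) hc]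

theorem real_iUnion_mono {s : ℕ → Set Ω} (hs : Monotone s) {c : ℝ} (h : ∀ k, μ.real (s k) ≤ c) :
    μ.real (⋃ k, s k) ≤ c := by
  have hc : 0 ≤ c := measureReal_nonneg.trans (h 0)
  rw [real_le_iff hc, hs.measure_iUnion]
  exact iSup_le fun k => (real_le_iff hc).1 (h k)

theorem real_iUnion_le {s : ℕ → Set Ω} {f : ℕ → ℝ} (hf : Summable f)
    (h : ∀ k, μ.real (s k) ≤ f k) : μ.real (⋃ k, s k) ≤ ∑' k, f k := by
  have h0 : ∀ k, 0 ≤ f k := fun k => measureReal_nonneg.trans (h k)
  rw [real_le_iff (tsum_nonneg h0), ENNReal.ofReal_tsum_of_nonneg h0 hf]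
  exact (measure_iUnion_le s).trans (ENNReal.tsum_le_tsum fun k => (real_le_iff (h0 k)).1 (h k))

theorem real_iUnion_geom {s : ℕ → Set Ω} {c : ℝ} (h : ∀ k, μ.real (s k) ≤ c * (1 / 2) ^ k) :
    μ.real (⋃ k, s k) ≤ 2 * c := by
  have := real_iUnion_le (summable_geometric_two.mul_left c) h
  rwa [tsum_mul_left, tsum_geometric_two, mul_comm] at this

theorem real_iUnion_enc {J : Type} [Encodable J] {s : J → Set Ω} {c : ℝ} (hc : 0 ≤ c)
    (h : ∀ j, μ.real (s j) ≤ c * (1 / 2) ^ Encodable.encode j) : μ.real (⋃ j, s j) ≤ 2 * c := by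
  have h1 : (⋃ j, s j) ⊆ ⋃ k, ⋃ j ∈ Encodable.decode₂ J k, s j := by
    rw [Encodable.iUnion_decode₂]
  refine (measureReal_mono h1).trans (real_iUnion_geom fun k => ?_)
  cases e : Encodable.decode₂ J k with
  | none => simp; positivity
  | some j =>
    have : Encodable.encode j = k := Encodable.mem_decode₂.1 e
    simpa [this] using h j

theorem real_list_union {J : Type} (L : List J) {s : J → Set Ω} {c : ℝ}
    (h : ∀ j ∈ L, μ.real (s j) ≤ c) : μ.real {x | ∃ j ∈ L, x ∈ s j} ≤ L.length * c := by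
  induction L with
  | nil => simp
  | cons j L ih =>
    have e : {x | ∃ i ∈ j :: L, x ∈ s i} = s j ∪ {x | ∃ i ∈ L, x ∈ s i} := by
      ext x; simp
    rw [e]
    refine (measureReal_union_le _ _).trans ?_
    have h1 := h j List.mem_cons_self
    have h2 := ih fun i hi => h i (List.mem_cons_of_mem _ hi)
    simp only [List.length_cons, Nat.cast_add, Nat.cast_one]
    linarith

theorem exists_small {s : ℕ → Set Ω} (hm : ∀ k, MeasurableSet (s k)) (hs : Antitone s)
    (h : ∀ x, ∃ k, x ∉ s k) {η : ℝ} (hη : 0 < η) : ∃ k, μ.real (s k) < η := by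
  have h1 := tendsto_measure_iInter_atTop (μ := μ) (fun k => (hm k).nullMeasurableSet) hs
    ⟨0, measure_ne_top _ _⟩
  have h2 : (⋂ k, s k) = ∅ := by
    ext x
    simpa using h x
  rw [h2, measure_empty] at h1
  obtain ⟨k, hk⟩ := (h1.eventually (gt_mem_nhds (ENNReal.ofReal_pos.2 hη))).exists
  exact ⟨k, ENNReal.toReal_lt_of_lt_ofReal hk⟩

theorem exists_big {s : ℕ → Set Ω} (hs : Monotone s) {B : Set Ω} (h : ∀ x ∉ B, ∃ k, x ∈ s k)
    {c : ℝ} (hc : μ.real B + c < 1) : ∃ k, c < μ.real (s k) := by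
  by_contra! H
  have h1 := real_iUnion_mono hs H
  have h2 : (Set.univ : Set Ω) ⊆ B ∪ ⋃ k, s k := fun x _ => by
    by_cases hx : x ∈ B
    · exact Or.inl hx
    · exact Or.inr (Set.mem_iUnion.2 (h x hx))
  have h3 := (measureReal_mono (μ := μ) h2).trans (measureReal_union_le _ _)
  rw [probReal_univ] at h3
  linarith

theorem exists_notMem {B : Set Ω} (h : μ.real B < 1) : ∃ x, x ∉ B := by
  by_contra! H
  rw [Set.eq_univ_of_forall H, probReal_univ] at h
  exact lt_irrefl _ h

theorem exists_mem_notMem {U B : Set Ω} (h : μ.real B < μ.real U) : ∃ x ∈ U, x ∉ B := by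
  by_contra! H
  exact absurd (measureReal_mono (μ := μ) (show U ⊆ B from H)) (not_le.2 h)

theorem real_toMeasurable (E : Set Ω) : μ.real (toMeasurable μ E) = μ.real E := by
  simp [Measure.real]

theorem real_preimage_le {f : Ω → Ω} (hf : MeasurePreserving f μ μ) (E : Set Ω) :
    μ.real (f ⁻¹' E) ≤ μ.real E := by
  refine (measureReal_mono (Set.preimage_mono (subset_toMeasurable μ E))).trans ?_
  rw [hf.measureReal_preimage (measurableSet_toMeasurable μ E).nullMeasurableSet,
    real_toMeasurable]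

open Classical in
/-- At least a tenth of the indices below `N` satisfy `p`. -/
def many (N : ℕ) (p : ℕ → Prop) : Prop := N ≤ 10 * (List.range N).countP fun i => decide (p i)

open Classical in
theorem many_mono {N : ℕ} {p q : ℕ → Prop} (h : ∀ i, p i → q i) (hp : many N p) : many N q :=
  hp.trans (Nat.mul_le_mul_left _ (List.countP_mono_left fun i _ hi => by
    simpa using h i (by simpa using hi)))

open Classical in
theorem countP_range_eq_sum (N : ℕ) (p : ℕ → Prop) :
    (((List.range N).countP fun i => decide (p i) : ℕ) : ℝ)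
      = ∑ i ∈ Finset.range N, if p i then 1 else 0 := by
  induction N with
  | zero => simp
  | succ N ih =>
    rw [List.range_succ, List.countP_append, Finset.sum_range_succ, Nat.cast_add, ih]
    by_cases h : p N <;> simp [h]

theorem markov {N : ℕ} (hN : 0 < N) {B : ℕ → Set Ω} {ε : ℝ} (h : ∀ i, μ.real (B i) ≤ ε) :
    μ.real {x | many N fun i => x ∈ B i} ≤ 10 * ε := by
  classical
  let f : Ω → ℝ := fun x => ∑ i ∈ Finset.range N, (toMeasurable μ (B i)).indicator 1 x
  have hi : ∀ i, Integrable ((toMeasurable μ (B i)).indicator (1 : Ω → ℝ)) μ := fun i =>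
    (integrable_const (1 : ℝ)).indicator (measurableSet_toMeasurable μ _)
  have hf : Integrable f μ := integrable_finsetSum _ fun i _ => hi i
  have h0 : 0 ≤ᵐ[μ] f := Eventually.of_forall fun x =>
    Finset.sum_nonneg fun i _ => Set.indicator_nonneg (fun _ _ => zero_le_one) x
  have h1 := mul_meas_ge_le_integral_of_nonneg h0 hf ((N : ℝ) / 10)
  have h2 : ∫ x, f x ∂μ ≤ N * ε := by
    rw [integral_finsetSum _ fun i _ => hi i]
    calc _ ≤ ∑ _i ∈ Finset.range N, ε := Finset.sum_le_sum fun i _ => by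
          rw [integral_indicator_one (measurableSet_toMeasurable μ _), real_toMeasurable]
          exact h i
      _ = N * ε := by simp
  have h3 : {x | many N fun i => x ∈ B i} ⊆ {x | (N : ℝ) / 10 ≤ f x} := by
    intro x hx
    have h4 : many N fun i => x ∈ toMeasurable μ (B i) :=
      many_mono (fun i hi => subset_toMeasurable μ _ hi) hx
    have h5 : (N : ℝ) ≤ 10 * (((List.range N).countP
        fun i => decide (x ∈ toMeasurable μ (B i)) : ℕ) : ℝ) := by
      exact_mod_cast h4
    rw [countP_range_eq_sum] at h5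
    have h6 : f x = ∑ i ∈ Finset.range N, if x ∈ toMeasurable μ (B i) then (1 : ℝ) else 0 :=
      Finset.sum_congr rfl fun i _ => by simp [Set.indicator_apply]
    show (N : ℝ) / 10 ≤ f x
    rw [h6]
    linarith
  have h7 := measureReal_mono (μ := μ) h3
  have hN' : (0 : ℝ) < N := by exact_mod_cast hN
  nlinarith

end Pool.Agent.MP_d9ba76_lc
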