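import Pool.Agent.MP_d9ba76_lc.Stat

/-! If the parameters bound the error probabilities usefully, the operator is computable
at some point. -/

set_option autoImplicit false

open MeasureTheory Encodable

namespace Pool.Agent.MP_d9ba76_lc

/-- Certificate that most points of the cell `a.1` omit the number `a.2`. -/
def CertA (Cl : List ℕ × ℕ → Om × Set ℕ → Prop) (a : List Bool × ℕ) (z : Om × Set ℕ) : Prop :=
  ∃ r : ℕ × ℕ, r.1 ≤ r.2 ∧
    Big (fun w => act sB w z.1 ∈ cell pp a.1) (encode a.1 + 2) (2 ^ (a.2 + 4) * r.1) r.2 ∧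
    Big (fun w => act sB w z.1 ∉ cell pp a.1 ∨ Cl (w, a.2) z) (encode a + 2) (r.2 - r.1) r.2

theorem eo_certA {Cl : List ℕ × ℕ → Om × Set ℕ → Prop} (hCl : EO (posS pos0) Cl) :
    EO (posS pos0) (CertA Cl) := by
  have c1 : Cmp (posS pos0) fun (y : ((List Bool × ℕ) × ℕ × ℕ) × List ℕ) (z : Om × Set ℕ) =>
      act sB y.2 z.1 := Cmp.fst.actB Primrec.snd
  exact EO.ex (P := fun (y : (List Bool × ℕ) × ℕ × ℕ) (z : Om × Set ℕ) => y.2.1 ≤ y.2.2 ∧
    Big (fun w => act sB w z.1 ∈ cell pp y.1.1) (encode y.1.1 + 2) (2 ^ (y.1.2 + 4) * y.2.1) y.2.2 ∧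
    Big (fun w => act sB w z.1 ∉ cell pp y.1.1 ∨ Cl (w, y.1.2) z) (encode y.1 + 2)
      (y.2.2 - y.2.1) y.2.2)
    ((EO.of_pred (pp_le (by fun_prop) (by fun_prop))).and
      ((EO.big (c1.eo eo_cell (f := fun y => y.1.1.1) (by fun_prop)) (by fun_prop) (by fun_prop)
        (by fun_prop)).and
      (EO.big ((c1.eo eo_not_cell (f := fun y => y.1.1.1) (by fun_prop)).or
        (hCl.comp (f := fun y : ((List Bool × ℕ) × ℕ × ℕ) × List ℕ => (y.2, y.1.1.2))
          (by fun_prop))) (by fun_prop) (by fun_prop) (by fun_prop))))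

theorem partA (θ : ℕ → unitInterval) {q : (ℕ × List Bool) × ℕ → Prop} (hq : PrimrecPred q)
    {Cl : List ℕ × ℕ → Om × Set ℕ → Prop} (hCl : EO (posS pos0) Cl) {Bad₁ Bad₂ : Set Om}
    (m2 : MeasurableSet Bad₂) (s1 : (mu θ).real Bad₁ ≤ 1 / 20) (s2 : (mu θ).real Bad₂ ≤ 1 / 20)
    (H : ∀ x ∉ Bad₁, ∀ m, ∀ v ∈ words 6400 m, act sB v x ∉ Bad₂ →
      ∀ n, Cl (v, n) (x, (Wf q (enc pp x))ᶜ) ↔ n ∉ Wf q (enc pp (act sB v x)))
    {κ : ℕ × ℕ → ℕ} (hκ : Primrec κ) (h1 : ∀ b, (mu θ).real (DD q b) ≤ θ (κ b))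
    (h2 : ∀ N, ∃ t, (θ (κ (N, t)) : ℝ) < 1 / 4) {Z₀ : Set Om} (sZ : (mu θ).real Z₀ ≤ 0) :
    ∃ y ∉ Z₀, TuringReducible (chi (Wf q (enc pp y))) (chi (enc pp y)) := by
  have hC := eo_certA hCl
  let A : Om → Set ℕ := fun x => Wf q (enc pp x)
  have mA : ∀ n, MeasurableSet {x | n ∈ A x} := (eo_Wf hq).meas
  have mC : ∀ l, MeasurableSet (cell pp l) := fun l => (clop_cell l).measurableSet
  let Hs : ℕ → Set Om := fun n => Bad₂ᶜ ∩ {x | n ∈ A x}
  let Gs : ℕ → Set Om := fun n => Bad₂ᶜ ∩ {x | n ∈ A x}ᶜ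
  have mH : ∀ n, MeasurableSet (Hs n) := fun n => m2.compl.inter (mA n)
  have mG : ∀ n, MeasurableSet (Gs n) := fun n => m2.compl.inter (mA n).compl
  let U : (List Bool × ℕ) × ℕ × ℕ → Om → Prop := fun a x =>
    CertA Cl a.1 (x, {n | n < a.2.1 ∧ n ∉ Ws q a.2.2 (enc pp x)})
  have hU : EO pos0 U := Cmp.id.eoS
    (M := fun (a : (List Bool × ℕ) × ℕ × ℕ) x => {n | n < a.2.1 ∧ n ∉ Ws q a.2.2 (enc pp x)})
    ((EO.of_pred (pp_lt (by fun_prop) (by fun_prop))).and ((eo_not_Ws hq).comp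
      (f := fun y : ((List Bool × ℕ) × ℕ × ℕ) × ℕ => (y.1.2.2, y.2)) (by fun_prop)))
    hC Primrec.fst
  let E1 : List Bool → Set Om := cell pp
  let E2 : List Bool × ℕ → Set Om := fun a => (cell pp a.1 ∩ Hs a.2)ᶜ
  let E3 : List Bool × ℕ → Set Om := fun a => (cell pp a.1 \ Gs a.2)ᶜ
  let E4 : ℕ → Set Om := fun k => {x | x (co k) = false}
  let E5 : (List Bool × ℕ) × ℕ × ℕ → Set Om := fun a => {x | U a x}
  have a1 := real_not_acc θ (E := E1) mC
  have a2 := real_not_acc θ (E := E2) fun a => ((mC _).inter (mH _)).compl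
  have a3 := real_not_acc θ (E := E3) fun a => ((mC _).diff (mG _)).compl
  have a4 := real_not_acc θ (E := E4) fun k => measurableSet_co k false
  have a5 := real_not_acc θ (E := E5) hU.meas
  let B : Set Om := Bad₁ ∪ {x | ¬ Accu θ E1 x} ∪ {x | ¬ Accu θ E2 x} ∪ {x | ¬ Accu θ E3 x}
  have sB' : (mu θ).real B ≤ 1 / 10 := by
    have := measureReal_union_le (μ := mu θ) (Bad₁ ∪ {x | ¬ Accu θ E1 x} ∪ {x | ¬ Accu θ E2 x})
      {x | ¬ Accu θ E3 x}
    have := measureReal_union_le (μ := mu θ) (Bad₁ ∪ {x | ¬ Accu θ E1 x}) {x | ¬ Accu θ E2 x}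
    have := measureReal_union_le (μ := mu θ) Bad₁ {x | ¬ Accu θ E1 x}
    simp only [B]
    linarith
  have hB : ∀ x ∉ B, x ∉ Bad₁ ∧ Accu θ E1 x ∧ Accu θ E2 x ∧ Accu θ E3 x := by
    intro x hx
    simp only [B, Set.mem_union, Set.mem_ofPred_eq, not_or, not_not] at hx
    exact ⟨hx.1.1.1, hx.1.1.2, hx.1.2, hx.2⟩
  have sound : ∀ x ∉ B, ∀ l n, CertA Cl (l, n) (x, (A x)ᶜ) →
      (mu θ).real (cell pp l ∩ Hs n) ≤ (1 / 2) ^ (n + 4) * (mu θ).real (cell pp l) := by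
    rintro x hx l n ⟨⟨p, r⟩, hpr, k1, k2⟩
    obtain ⟨b0, b1, b2, -⟩ := hB x hx
    have e1 := b1.sound l (fun _ _ _ h => h) k1
    have e2 := b2.sound (l, n) (fun m w hw h => ?_) k2
    · simp only [E1, E2] at e1 e2 hpr
      rw [probReal_compl_eq_one_sub ((mC _).inter (mH _)), Nat.cast_sub hpr] at e2
      push_cast at e1
      have e3 : (0 : ℝ) < 2 ^ (n + 4) := by positivity
      have e4 : (0 : ℝ) < r := by
        by_contra e
        have : (r : ℝ) = 0 := le_antisymm (not_lt.1 e) (Nat.cast_nonneg r)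
        rw [this, zero_mul] at e1
        exact absurd e1 (not_lt.2 (by positivity))
      rw [one_div, inv_pow, inv_mul_eq_div, le_div_iff₀ e3]
      refine le_of_mul_le_mul_left ?_ e4
      nlinarith
    · rintro ⟨c1, c2, c3⟩
      rcases h with h | h
      · exact h c1
      · exact (H x b0 m w hw c2 n).1 h c3
  have complete : ∀ x ∉ B, ∀ l n, (mu θ).real (cell pp l \ Gs n)
      < (1 / 2) ^ (n + 4) * (mu θ).real (cell pp l) → CertA Cl (l, n) (x, (A x)ᶜ) := by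
    intro x hx l n h
    obtain ⟨b0, b1, -, b3⟩ := hB x hx
    obtain ⟨p, r, e1, e2⟩ := exists_nat_frac measureReal_nonneg h
    have e3 : (0 : ℝ) < 2 ^ (n + 4) := by positivity
    have e4 : (1 : ℝ) ≤ 2 ^ (n + 4) := one_le_pow₀ (by norm_num)
    have e5 : (mu θ).real (cell pp l) ≤ 1 := measureReal_le_one
    have e6 : (2 : ℝ) ^ (n + 4) * p < r * (mu θ).real (cell pp l) := by
      rw [one_div, inv_pow, mul_assoc, inv_mul_eq_div, lt_div_iff₀ e3] at e2
      linarith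
    have hpr : p ≤ r := by
      have : (p : ℝ) ≤ r := by
        have := Nat.cast_nonneg (α := ℝ) p
        have := Nat.cast_nonneg (α := ℝ) r
        nlinarith
      exact_mod_cast this
    refine ⟨(p, r), hpr, b1.complete l _ (fun _ _ _ h => h) (by push_cast; exact e6),
      b3.complete (l, n) _ (fun m w hw h => ?_) ?_⟩
    · by_cases c : act sB w x ∈ cell pp l
      · have c2 : act sB w x ∈ Gs n := by
          by_contra c2
          exact h ⟨c, c2⟩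
        exact Or.inr ((H x b0 m w hw c2.1 n).2 c2.2)
      · exact Or.inl c
    · simp only [E3]
      rw [probReal_compl_eq_one_sub ((mC _).diff (mG _)), Nat.cast_sub hpr]
      linarith
  let Err : ℕ → Set Om := fun n => {y | y ∈ Hs n ∧ ∃ l, y ∈ cell pp l ∧
    (mu θ).real (cell pp l ∩ Hs n) ≤ (1 / 2) ^ (n + 4) * (mu θ).real (cell pp l)}
  let Nul : ℕ → Set Om := fun n => {y | y ∈ Gs n ∧ ∀ l, y ∈ cell pp l →
    (1 / 2) ^ (n + 4) * (mu θ).real (cell pp l) ≤ (mu θ).real (cell pp l \ Gs n)}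
  have sErr : (mu θ).real (⋃ n, Err n) ≤ 2 * (1 / 16) := real_iUnion_geom fun n =>
    (maximal (mu θ) (by positivity)).trans (le_of_eq (by ring))
  have sNul : (mu θ).real (⋃ n, Nul n) ≤ 2 * 0 := real_iUnion_geom fun n => by
    rw [Measure.real, density pp_surj (mu θ) (mG n) (by positivity)]
    simp
  obtain ⟨y, hy⟩ := exists_notMem (μ := mu θ) (B := Bad₂ ∪ {x | ¬ Accu θ E4 x} ∪
      {x | ¬ Accu θ E5 x} ∪ (⋃ n, Err n) ∪ (⋃ n, Nul n) ∪ Z₀) (by
    have := measureReal_union_le (μ := mu θ) (Bad₂ ∪ {x | ¬ Accu θ E4 x} ∪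
      {x | ¬ Accu θ E5 x} ∪ (⋃ n, Err n) ∪ (⋃ n, Nul n)) Z₀
    have := measureReal_union_le (μ := mu θ) (Bad₂ ∪ {x | ¬ Accu θ E4 x} ∪
      {x | ¬ Accu θ E5 x} ∪ (⋃ n, Err n)) (⋃ n, Nul n)
    have := measureReal_union_le (μ := mu θ) (Bad₂ ∪ {x | ¬ Accu θ E4 x} ∪
      {x | ¬ Accu θ E5 x}) (⋃ n, Err n)
    have := measureReal_union_le (μ := mu θ) (Bad₂ ∪ {x | ¬ Accu θ E4 x}) {x | ¬ Accu θ E5 x}
    have := measureReal_union_le (μ := mu θ) Bad₂ {x | ¬ Accu θ E4 x}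
    linarith)
  simp only [Set.mem_union, Set.mem_ofPred_eq, not_or, not_not, Set.mem_iUnion, not_exists] at hy
  obtain ⟨⟨⟨⟨⟨y2, y4⟩, y5⟩, yE⟩, yN⟩, yZ⟩ := hy
  have r4 : ∀ k, (mu θ).real (E4 k) = 1 - θ k := fun k => (muT_coord _ θ (co k)).2
  let Claim : ℕ → Om → Prop := fun n y => ∃ b : List Bool × ℕ × ℕ, y ∈ cell pp b.1 ∧
    Big (fun w => act sB w y (co (κ b.2)) = false) (encode (κ b.2) + 2) 3 4 ∧
    Big (fun w => U ((b.1, n), b.2) (act sB w y)) (encode ((b.1, n), b.2) + 2) 1 2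
  have c1 : Cmp pos0 fun (y : (ℕ × List Bool × ℕ × ℕ) × List ℕ) (x : Om) => act sB y.2 x :=
    Cmp.id.actB Primrec.snd
  have hClaim : EO pos0 Claim :=
    EO.ex (P := fun (a : ℕ × List Bool × ℕ × ℕ) y => y ∈ cell pp a.2.1 ∧
      Big (fun w => act sB w y (co (κ a.2.2)) = false) (encode (κ a.2.2) + 2) 3 4 ∧
      Big (fun w => U ((a.2.1, a.1), a.2.2) (act sB w y)) (encode ((a.2.1, a.1), a.2.2) + 2) 1 2)
      ((eo_cell.comp (by fun_prop)).and
        ((EO.big (c1.co (k := fun y => κ y.1.2.2) (by fun_prop) false) (by fun_prop)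
          (by fun_prop) (by fun_prop)).and
        (EO.big (c1.eo hU (f := fun y => ((y.1.2.1, y.1.1), y.1.2.2)) (by fun_prop))
          (by fun_prop) (by fun_prop) (by fun_prop))))
  refine ⟨y, yZ, red_of_both ((cmp_self y).eo (eo_Wf hq) Primrec.id)
    (((cmp_self y).eo hClaim Primrec.id).congr fun n _ => ⟨?_, ?_⟩)⟩
  · rintro ⟨⟨l, b⟩, k0, k1, k2⟩ hn
    have e1 := y4.sound (κ b) (fun _ _ _ h => h) k1
    have e2 := y5.sound ((l, n), b) (fun _ _ _ h => h) k2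
    rw [r4] at e1
    obtain ⟨x, x1, x2⟩ := exists_mem_notMem (μ := mu θ) (U := E5 ((l, n), b))
      (B := B ∪ DD q b) (by
        have := measureReal_union_le (μ := mu θ) B (DD q b)
        have := h1 b
        push_cast at e1 e2
        linarith)
    rw [Set.mem_union, not_or] at x2
    refine yE n ⟨⟨y2, hn⟩, l, k0, sound x x2.1 l n (hC.mono (posS_mono ?_) x1)⟩
    exact fun i hi hi' => x2.2 ⟨i, hi.1, hi', hi.2⟩
  · intro hn
    have e0 := yN n
    simp only [Nul, Set.mem_ofPred_eq, not_and, not_forall, not_le] at e0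
    obtain ⟨l, k0, k1⟩ := e0 ⟨y2, hn⟩
    obtain ⟨N, hN⟩ := exists_big (μ := mu θ)
      (s := fun N => {x | CertA Cl (l, n) (x, (A x)ᶜ ∩ {i | i < N})})
      (fun N N' h x hx => hC.mono (posS_mono fun i hi => ⟨hi.1, lt_of_lt_of_le hi.2 h⟩) hx)
      (B := B) (fun x hx => hC.finite_use_lt (complete x hx l n k1)) (c := 1 / 2) (by linarith)
    obtain ⟨t, ht⟩ := h2 N
    refine ⟨(l, N, t), k0, y4.complete (κ (N, t)) _ (fun _ _ _ h => h) ?_,
      y5.complete ((l, n), N, t) _ (fun _ _ _ h => h) ?_⟩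
    · rw [r4]
      push_cast
      linarith
    · have : (mu θ).real {x | CertA Cl (l, n) (x, (A x)ᶜ ∩ {i | i < N})}
          ≤ (mu θ).real (E5 ((l, n), N, t)) :=
        measureReal_mono fun x hx => hC.mono
          (posS_mono fun i hi => ⟨hi.2, fun h => hi.1 (Ws_sub _ _ h)⟩) hx
      push_cast
      linarith

end Pool.Agent.MP_d9ba76_lc
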