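import Pool.Agent.MP_d9ba76_lc.PartA
import Pool.Agent.MP_d9ba76_lc.Fix

/-! Otherwise the operator is complete at some point; the fixed point and the conclusion. -/

set_option autoImplicit false

open MeasureTheory Encodable

namespace Pool.Agent.MP_d9ba76_lc

/-- The points at which `n` enters the operator given by `q` after stage `s`. -/
def Late (q : (ℕ × List Bool) × ℕ → Prop) (n s : ℕ) : Set Om :=
  {x | n ∈ Wf q (enc pp x) ∧ n ∉ Ws q s (enc pp x)}

theorem measurableSet_Late {q : (ℕ × List Bool) × ℕ → Prop} (hq : PrimrecPred q) (n s : ℕ) :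
    MeasurableSet (Late q n s) :=
  ((eo_Wf hq).meas n).inter ((eo_not_Ws hq).meas (s, n))

/-- The threshold for the question about `n` and the operator number `c`. -/
noncomputable def thr (c n : ℕ) : ℝ := 1 / 4 * (1 / 2) ^ encode (c, n)

/-- The join of two sets. -/
def join (X Y : Set ℕ) : Set ℕ := {n | (∃ k ∈ X, n = 2 * k) ∨ ∃ k ∈ Y, n = 2 * k + 1}

theorem even_mem_join {X Y : Set ℕ} {n : ℕ} : 2 * n ∈ join X Y ↔ n ∈ X := by
  constructor
  · rintro (⟨k, hk, e⟩ | ⟨k, hk, e⟩)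
    · rwa [show n = k by omega]
    · omega
  · exact fun h => Or.inl ⟨n, h, rfl⟩

theorem odd_mem_join {X Y : Set ℕ} {n : ℕ} : 2 * n + 1 ∈ join X Y ↔ n ∈ Y := by
  constructor
  · rintro (⟨k, hk, e⟩ | ⟨k, hk, e⟩)
    · omega
    · rwa [show n = k by omega]
  · exact fun h => Or.inr ⟨n, h, rfl⟩

theorem join_red {X Y : Set ℕ} (h : TuringReducible (chi X) (chi Y)) :
    TuringReducible (chi (join X Y)) (chi Y) := by
  refine red_of_eo (((EO.ex (P := fun (z : (ℕ × Bool) × ℕ) (_ : Unit) =>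
    z.1.1 = 2 * z.2 ∧ (z.2, z.1.2) ∈ lits X) ((EO.of_pred (pp_eq (by fun_prop) (by fun_prop))).and
      ((eo_of_red h).comp (f := fun z : (ℕ × Bool) × ℕ => (z.2, z.1.2)) (by fun_prop)))).or
    (EO.ex (P := fun (z : (ℕ × Bool) × ℕ) (_ : Unit) =>
    z.1.1 = 2 * z.2 + 1 ∧ (z.2, z.1.2) ∈ lits Y)
      ((EO.of_pred (pp_eq (by fun_prop) (by fun_prop))).and
      (EO.lit (pos := fun _ : Unit => lits Y) (by fun_prop))))).congr ?_)
  rintro ⟨n, b⟩ _
  simp only [lits, Set.mem_ofPred_eq]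
  constructor
  · rintro (⟨k, rfl, hk⟩ | ⟨k, rfl, hk⟩)
    · rwa [even_mem_join]
    · rwa [odd_mem_join]
  · intro hn
    obtain ⟨k, rfl | rfl⟩ := Nat.even_or_odd' n
    · exact Or.inl ⟨k, rfl, by rwa [even_mem_join] at hn⟩
    · exact Or.inr ⟨k, rfl, by rwa [odd_mem_join] at hn⟩

theorem partC (θ : ℕ → unitInterval) {q : (ℕ × List Bool) × ℕ → Prop} (hq : PrimrecPred q)
    {Cl : List ℕ × ℕ → Om × Set ℕ → Prop} (hCl : EO (posS pos0) Cl) {Bad₁ Bad₂ : Set Om}
    (m2 : MeasurableSet Bad₂) (s1 : (mu θ).real Bad₁ ≤ 1 / 20) (s2 : (mu θ).real Bad₂ ≤ 1 / 20)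
    (H : ∀ x ∉ Bad₁, ∀ m, ∀ v ∈ words 6400 m, act sB v x ∉ Bad₂ →
      ∀ n, Cl (v, n) (x, (Wf q (enc pp x))ᶜ) ↔ n ∉ Wf q (enc pp (act sB v x)))
    {f : ℕ → (ℕ × List Bool) × ℕ → Prop} (hf : ∀ c, PrimrecPred (f c))
    {κ : (ℕ × ℕ × ℕ) × ℕ × ℕ → ℕ} (hκ : Primrec κ)
    (h1 : ∀ c n s, thr c n < (mu θ).real (Late (f c) n s) →
      ∀ b, (θ (κ ((c, n, s), b)) : ℝ) ≤ (mu θ).real (DD q b))
    (h2 : ∀ c n s, (mu θ).real (Late (f c) n s) ≤ thr c n →
      ∃ N, ∀ t, (1 / 4 : ℝ) ≤ θ (κ ((c, n, s), N, t)))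
    {Z₀ : Set Om} (sZ : (mu θ).real Z₀ ≤ 0) :
    ∃ g ∉ Z₀, ∀ c, TuringReducible (chi (Wf (f c) (enc pp g)))
      (chi (join (enc pp g) (Wf q (enc pp g)))) := by
  classical
  have mD := measurableSet_DD hq
  let E1 : ℕ → Set Om := fun k => {x | x (co k) = true}
  let E2 : ℕ × ℕ → Set Om := fun b => (DD q b \ Bad₂)ᶜ
  let E3 : ℕ × ℕ → Set Om := fun b => (DD q b ∪ Bad₂)ᶜ
  have a1 := real_not_acc θ (E := E1) fun k => measurableSet_co k true
  have a2 := real_not_acc θ (E := E2) fun b => ((mD b).diff m2).compl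
  have a3 := real_not_acc θ (E := E3) fun b => ((mD b).union m2).compl
  have r1 : ∀ k, (mu θ).real (E1 k) = θ k := fun k => (muT_coord _ θ (co k)).1
  have ex : ∀ a : ℕ × ℕ, ∃ s, (mu θ).real (Late (f a.1) a.2 s) ≤ thr a.1 a.2 := by
    intro a
    obtain ⟨s, hs⟩ := exists_small (μ := mu θ) (s := Late (f a.1) a.2)
      (measurableSet_Late (hf _) _) (fun s s' h x hx => ⟨hx.1, fun h' => hx.2 (Ws_mono h _ h')⟩)
      (fun x => by
        by_cases h : a.2 ∈ Wf (f a.1) (enc pp x)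
        · obtain ⟨t, ht⟩ := mem_Wf_iff.1 h
          exact ⟨t, fun h' => h'.2 ht⟩
        · exact ⟨0, fun h' => h h'.1⟩) (η := thr a.1 a.2) (by unfold thr; positivity)
    exact ⟨s, hs.le⟩
  have sE : (mu θ).real (⋃ a : ℕ × ℕ, Late (f a.1) a.2 (Nat.find (ex a))) ≤ 2 * (1 / 4) :=
    real_iUnion_enc (by norm_num) fun a => Nat.find_spec (ex a)
  obtain ⟨g, hg⟩ := exists_notMem (μ := mu θ) (B := Bad₁ ∪ {x | ¬ Accu θ E1 x} ∪
      {x | ¬ Accu θ E2 x} ∪ {x | ¬ Accu θ E3 x} ∪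
      (⋃ a : ℕ × ℕ, Late (f a.1) a.2 (Nat.find (ex a))) ∪ Z₀) (by
    have := measureReal_union_le (μ := mu θ) (Bad₁ ∪ {x | ¬ Accu θ E1 x} ∪
      {x | ¬ Accu θ E2 x} ∪ {x | ¬ Accu θ E3 x} ∪
      (⋃ a : ℕ × ℕ, Late (f a.1) a.2 (Nat.find (ex a)))) Z₀
    have := measureReal_union_le (μ := mu θ) (Bad₁ ∪ {x | ¬ Accu θ E1 x} ∪
      {x | ¬ Accu θ E2 x} ∪ {x | ¬ Accu θ E3 x})
      (⋃ a : ℕ × ℕ, Late (f a.1) a.2 (Nat.find (ex a)))
    have := measureReal_union_le (μ := mu θ) (Bad₁ ∪ {x | ¬ Accu θ E1 x} ∪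
      {x | ¬ Accu θ E2 x}) {x | ¬ Accu θ E3 x}
    have := measureReal_union_le (μ := mu θ) (Bad₁ ∪ {x | ¬ Accu θ E1 x}) {x | ¬ Accu θ E2 x}
    have := measureReal_union_le (μ := mu θ) Bad₁ {x | ¬ Accu θ E1 x}
    linarith)
  simp only [Set.mem_union, Set.mem_ofPred_eq, not_or, not_not, Set.mem_iUnion, not_exists] at hg
  obtain ⟨⟨⟨⟨⟨g0, g1⟩, g2⟩, g3⟩, gE⟩, gZ⟩ := hg
  let Ev : ℕ × ℕ × ℕ → Om × Set ℕ → Prop := fun k z => ∃ b : ℕ × ℕ,
    Big (fun w => act sB w z.1 (co (κ (k, b))) = true) (encode (κ (k, b)) + 2) 1 5 ∧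
    Big (fun w => ∀ n < b.1, n ∈ Ws q b.2 (enc pp (act sB w z.1)) ∨ Cl (w, n) z)
      (encode b + 2) 9 10
  have c1 : Cmp (posS pos0) fun (y : ((ℕ × ℕ × ℕ) × ℕ × ℕ) × List ℕ) (z : Om × Set ℕ) =>
      act sB y.2 z.1 := Cmp.fst.actB Primrec.snd
  have c2 : EO (posS pos0) fun (y : ((ℕ × ℕ × ℕ) × ℕ × ℕ) × List ℕ) (z : Om × Set ℕ) =>
      ∀ n < y.1.2.1, n ∈ Ws q y.1.2.2 (enc pp (act sB y.2 z.1)) ∨ Cl (y.2, n) z :=
    EO.all_lt (P := fun (u : (((ℕ × ℕ × ℕ) × ℕ × ℕ) × List ℕ) × ℕ) (z : Om × Set ℕ) =>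
      u.2 ∈ Ws q u.1.1.2.2 (enc pp (act sB u.1.2 z.1)) ∨ Cl (u.1.2, u.2) z)
      (((c1.comp Primrec.fst).eo (eo_Ws hq) (f := fun u => (u.1.1.2.2, u.2)) (by fun_prop)).or
        (hCl.comp (f := fun u : (((ℕ × ℕ × ℕ) × ℕ × ℕ) × List ℕ) × ℕ => (u.1.2, u.2))
          (by fun_prop))) (by fun_prop)
  have hEv : EO (posS pos0) Ev :=
    EO.ex (P := fun (a : (ℕ × ℕ × ℕ) × ℕ × ℕ) (z : Om × Set ℕ) =>
      Big (fun w => act sB w z.1 (co (κ a)) = true) (encode (κ a) + 2) 1 5 ∧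
      Big (fun w => ∀ n < a.2.1, n ∈ Ws q a.2.2 (enc pp (act sB w z.1)) ∨ Cl (w, n) z)
        (encode a.2 + 2) 9 10)
      ((EO.big (c1.co (k := fun y => κ y.1) (by fun_prop) true) (by fun_prop) (by fun_prop)
        (by fun_prop)).and (EO.big c2 (by fun_prop) (by fun_prop) (by fun_prop)))
  have key : ∀ c n s, Ev (c, n, s) (g, (Wf q (enc pp g))ᶜ) ↔
      (mu θ).real (Late (f c) n s) ≤ thr c n := by
    intro c n s
    constructor
    · rintro ⟨b, k1, k2⟩
      by_contra! hlt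
      have e0 := h1 c n s hlt b
      have e1 := g1.sound (κ ((c, n, s), b)) (fun _ _ _ h => h) k1
      have e2 := g2.sound b (fun m w hw h => ?_) k2
      · rw [r1] at e1
        simp only [E2] at e2
        rw [probReal_compl_eq_one_sub ((mD b).diff m2)] at e2
        have e3 : (mu θ).real (DD q b) ≤ (mu θ).real (DD q b \ Bad₂ ∪ Bad₂) :=
          measureReal_mono fun x hx => by
            by_cases h : x ∈ Bad₂
            exacts [Or.inr h, Or.inl ⟨hx, h⟩]
        have e4 := measureReal_union_le (μ := mu θ) (DD q b \ Bad₂) Bad₂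
        push_cast at e1 e2
        linarith
      · rintro ⟨⟨i, i1, i2, i3⟩, c2⟩
        rcases h i i1 with h | h
        · exact i3 h
        · exact (H g g0 m w hw c2 i).1 h i2
    · intro hle
      obtain ⟨N, hN⟩ := h2 c n s hle
      obtain ⟨t, ht⟩ := exists_small (μ := mu θ) (s := fun t => DD q (N, t)) (fun t => mD _)
        (fun t t' h x ⟨i, i1, i2, i3⟩ => ⟨i, i1, i2, fun h' => i3 (Ws_mono h _ h')⟩)
        (fun x => by
          have : ∀ N, ∃ t, ∀ i < N, i ∈ Wf q (enc pp x) → i ∈ Ws q t (enc pp x) := by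
            intro N
            induction N with
            | zero => exact ⟨0, by simp⟩
            | succ N ih =>
              obtain ⟨t, ht⟩ := ih
              by_cases h : N ∈ Wf q (enc pp x)
              · obtain ⟨t', ht'⟩ := mem_Wf_iff.1 h
                refine ⟨max t t', fun i hi hi' => ?_⟩
                rcases Nat.lt_succ_iff_lt_or_eq.1 hi with hi | rfl
                · exact Ws_mono (le_max_left _ _) _ (ht i hi hi')
                · exact Ws_mono (le_max_right _ _) _ ht'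
              · refine ⟨t, fun i hi hi' => ?_⟩
                rcases Nat.lt_succ_iff_lt_or_eq.1 hi with hi | rfl
                · exact ht i hi hi'
                · exact absurd hi' h
          obtain ⟨t, ht⟩ := this N
          exact ⟨t, fun ⟨i, i1, i2, i3⟩ => i3 (ht i i1 i2)⟩) (η := 1 / 20) (by norm_num)
      refine ⟨(N, t), g1.complete (κ ((c, n, s), N, t)) _ (fun _ _ _ h => h) ?_,
        g3.complete (N, t) _ (fun m w hw h i hi => ?_) ?_⟩
      · rw [r1]
        have := hN t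
        push_cast
        linarith
      · simp only [E3, Set.mem_compl_iff, Set.mem_union, not_or] at h
        by_cases e : i ∈ Wf q (enc pp (act sB w g))
        · left
          by_contra e'
          exact h.1 ⟨i, hi, e, e'⟩
        · exact Or.inr ((H g g0 m w hw h.2 i).2 e)
      · simp only [E3]
        rw [probReal_compl_eq_one_sub ((mD _).union m2)]
        have := measureReal_union_le (μ := mu θ) (DD q (N, t)) Bad₂
        push_cast
        linarith
  refine ⟨g, gZ, fun c => ?_⟩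
  have cg : ∀ {α : Type} [Primcodable α],
      Cmp (fun _ : Unit => lits (join (enc pp g) (Wf q (enc pp g)))) fun (_ : α) _ => g :=
    fun {α} _ => (EO.lit (pos := fun _ : Unit => lits (join (enc pp g) (Wf q (enc pp g))))
      (f := fun z : α × (ℕ × Bool) => (2 * z.2.1, z.2.2)) (by fun_prop)).congr
      fun z _ => by simp only [lits, pos0, Set.mem_ofPred_eq, even_mem_join]
  have d1 : EO (fun _ : Unit => lits (join (enc pp g) (Wf q (enc pp g)))) fun (a : ℕ × ℕ) _ =>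
      Ev (c, a.1, a.2) (g, (Wf q (enc pp g))ᶜ) :=
    cg.eoS (M := fun _ _ => (Wf q (enc pp g))ᶜ)
      ((EO.lit (pos := fun _ : Unit => lits (join (enc pp g) (Wf q (enc pp g))))
        (f := fun z : (ℕ × ℕ) × ℕ => (2 * z.2 + 1, false)) (by fun_prop)).congr
        fun z _ => by simp [lits, odd_mem_join]) hEv (f := fun a => (c, a.1, a.2)) (by fun_prop)
  refine red_of_both (cg.eo (eo_Wf (hf c)) Primrec.id) ((EO.ex (d1.and (cg.eo (eo_not_Ws (hf c))
    (f := fun a : ℕ × ℕ => (a.2, a.1)) (by fun_prop)))).congr fun n _ => ⟨?_, fun hn => ?_⟩)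
  · rintro ⟨s, k1, k2⟩ hn
    have := Nat.find_min' (ex (c, n)) ((key c n s).1 k1)
    exact gE (c, n) ⟨hn, fun h => k2 (Ws_mono this _ h)⟩
  · exact ⟨Nat.find (ex (c, n)), (key c n _).2 (Nat.find_spec (ex (c, n))),
      fun h => hn (Ws_sub _ _ h)⟩

theorem exists_theta {q : (ℕ × List Bool) × ℕ → Prop} (f : ℕ → (ℕ × List Bool) × ℕ → Prop)
    (Z : Set ℕ) :
    ∃ θ : ℕ → unitInterval, (∀ k, (k ∈ Z → (θ (2 * k + 1) : ℝ) = 1) ∧
      (k ∉ Z → (θ (2 * k + 1) : ℝ) = 0)) ∧ ∀ c n s (b : ℕ × ℕ),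
      (thr c n < (mu θ).real (Late (f c) n s) →
        (θ (2 * encode ((c, n, s), b)) : ℝ) ≤ (mu θ).real (DD q b)) ∧
      ((mu θ).real (Late (f c) n s) ≤ thr c n →
        (mu θ).real (DD q b) ≤ θ (2 * encode ((c, n, s), b))) := by
  classical
  let d : ℕ → (ℕ × ℕ × ℕ) × ℕ × ℕ := fun k => Denumerable.ofNat _ (k / 2)
  let Di : ℕ × ℕ → ℕ → Set Om := fun b i =>
    {x | ∃ n < b.1, x ∈ {x | n ∈ Ws q i (enc pp x)} ∩ {x | n ∈ Ws q b.2 (enc pp x)}ᶜ}
  let Li : ℕ × ℕ × ℕ → ℕ → Set Om := fun k i =>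
    {x | k.2.1 ∈ Ws (f k.1) i (enc pp x)} ∩ {x | k.2.1 ∈ Ws (f k.1) k.2.2 (enc pp x)}ᶜ
  have cD : ∀ b i, Clop pp (Di b i) := fun b i =>
    Clop.exists_lt (fun n => (clop_Ws i n).inter (clop_Ws b.2 n).compl) _
  have cL : ∀ k i, Clop pp (Li k i) := fun k i => (clop_Ws _ _).inter (clop_Ws _ _).compl
  have mD : ∀ b, Monotone (Di b) := fun b i j h x ⟨n, h1, h2, h3⟩ =>
    ⟨n, h1, Ws_mono h _ h2, h3⟩
  have mL : ∀ k, Monotone (Li k) := fun k i j h x hx => ⟨Ws_mono h _ hx.1, hx.2⟩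
  have uD : ∀ b, (⋃ i, Di b i) = DD q b := by
    intro b
    ext x
    simp only [Di, DD, Set.mem_iUnion, Set.mem_ofPred_eq, Set.mem_inter_iff, Set.mem_compl_iff,
      mem_Wf_iff]
    constructor
    · rintro ⟨i, n, h1, h2, h3⟩
      exact ⟨n, h1, ⟨i, h2⟩, h3⟩
    · rintro ⟨n, h1, ⟨i, h2⟩, h3⟩
      exact ⟨i, n, h1, h2, h3⟩
  have uL : ∀ c n s, (⋃ i, Li (c, n, s) i) = Late (f c) n s := by
    intro c n s
    ext x
    simp only [Li, Late, Set.mem_iUnion, Set.mem_ofPred_eq, Set.mem_inter_iff, Set.mem_compl_iff,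
      mem_Wf_iff, exists_and_right]
  obtain ⟨θ, hθ⟩ := fixed_point
    (fun k i θ => if k % 2 = 0 then (mu θ).real (Di (d k).2 i) else if k / 2 ∈ Z then 1 else 0)
    (fun k i θ => if k % 2 = 0 then (mu θ).real (Li (d k).1 i) - thr (d k).1.1 (d k).1.2.1
      else if k / 2 ∈ Z then 0 else 1)
    (fun k i => by
      by_cases h : k % 2 = 0 <;> simp only [h, if_true, if_false]
      exacts [(cD _ _).continuous_muT _, continuous_const])
    (fun k i => by
      by_cases h : k % 2 = 0 <;> simp only [h, if_true, if_false]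
      exacts [((cL _ _).continuous_muT _).sub continuous_const, continuous_const])
    (fun _ _ _ => by split_ifs; exacts [measureReal_nonneg, zero_le_one, le_rfl])
    (fun _ _ _ => by split_ifs; exacts [measureReal_le_one, le_rfl, zero_le_one])
    (fun k θ i j h => by
      by_cases h' : k % 2 = 0 <;> simp only [h', if_true, if_false]
      exacts [measureReal_mono (mD _ h), le_rfl])
    (fun k θ i j h => by
      by_cases h' : k % 2 = 0 <;> simp only [h', if_true, if_false]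
      exacts [sub_le_sub_right (measureReal_mono (mL _ h)) _, le_rfl])
  refine ⟨θ, fun k => ?_, fun c n s b => ?_⟩
  · have := hθ (2 * k + 1)
    have e1 : ¬ (2 * k + 1) % 2 = 0 := by omega
    have e2 : (2 * k + 1) / 2 = k := by omega
    simp only [e1, e2, if_false] at this
    constructor
    · intro h
      simp only [h, if_true] at this
      exact le_antisymm (θ _).2.2 (this.2 (fun _ => le_rfl) 0)
    · intro h
      simp only [h, if_false] at this
      obtain ⟨_, hi⟩ := this.1 ⟨0, zero_lt_one⟩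
      exact le_antisymm hi (θ _).2.1
  have := hθ (2 * encode ((c, n, s), b))
  have e1 : (2 * encode ((c, n, s), b)) % 2 = 0 := by omega
  have e2 : (2 * encode ((c, n, s), b)) / 2 = encode ((c, n, s), b) := by omega
  simp only [d, e1, e2, if_true, Denumerable.ofNat_encode] at this
  constructor
  · intro h
    obtain ⟨i, hi⟩ := this.1 (by
      by_contra! h'
      rw [← uL] at h
      exact absurd (real_iUnion_mono (mL _) fun i => sub_nonpos.1 (h' i)) (not_le.2 h))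
    refine hi.trans (measureReal_mono ?_)
    rw [← uD]
    exact Set.subset_iUnion _ i
  · intro h
    rw [← uD]
    refine real_iUnion_mono (mD b) (this.2 fun i => sub_nonpos.2 (le_trans (measureReal_mono ?_) h))
    rw [← uL]
    exact Set.subset_iUnion _ i

/-- A c.e. operator which is degree invariant on a cone is, at some set in the cone, computable
or complete. -/
theorem main_cone {q : (ℕ × List Bool) × ℕ → Prop} (hq : PrimrecPred q) (Z : Set ℕ)
    (inv : ∀ X Y : Set ℕ, TuringReducible (chi Z) (chi X) →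
      TuringReducible (chi X) (chi Y) → TuringReducible (chi Y) (chi X) →
      TuringReducible (chi (Wf q X)) (chi (Wf q Y))) :
    ∃ X : Set ℕ, TuringReducible (chi Z) (chi X) ∧ (TuringReducible (chi (Wf q X)) (chi X) ∨
      ∀ r, PrimrecPred r → TuringReducible (chi (Wf r X)) (chi (join X (Wf q X)))) := by
  classical
  by_contra! hcon
  obtain ⟨f, hf⟩ := (countable_primrecPred ((ℕ × List Bool) × ℕ)).exists_eq_range ⟨q, hq⟩
  have hf1 : ∀ c, PrimrecPred (f c) := fun c => by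
    have : f c ∈ Set.range f := ⟨c, rfl⟩
    rw [← hf] at this
    exact this
  obtain ⟨θ, hθZ, hθ⟩ := exists_theta (q := q) f Z
  let Z₀ : Set Om := ⋃ k, {x | x (co (2 * k + 1)) = decide (k ∉ Z)}
  have mZ : MeasurableSet Z₀ := MeasurableSet.iUnion fun k => measurableSet_co _ _
  have sZ : (mu θ).real Z₀ ≤ 0 := by
    refine (real_iUnion_geom (c := 0) fun k => ?_).trans (by norm_num)
    have e := muT_coord (fun p : II => p.2.2) θ (co (2 * k + 1))
    by_cases h : k ∈ Z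
    · have e2 : (mu θ).real {x | x (co (2 * k + 1)) = false} = 1 - θ (2 * k + 1) := e.2
      simp [h, e2, (hθZ k).1 h]
    · have e1 : (mu θ).real {x | x (co (2 * k + 1)) = true} = θ (2 * k + 1) := e.1
      simp [h, e1, (hθZ k).2 h]
  have hZ : ∀ x ∉ Z₀, TuringReducible (chi Z) (chi (enc pp x)) := by
    intro x hx
    simp only [Z₀, Set.mem_iUnion, Set.mem_ofPred_eq, not_exists] at hx
    refine red_of_both
      (((cmp_self x).co (k := fun n : ℕ => 2 * n + 1) (by fun_prop) true).congr fun n _ => ?_)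
      (((cmp_self x).co (k := fun n : ℕ => 2 * n + 1) (by fun_prop) false).congr fun n _ => ?_)
    · have := hx n
      by_cases h : n ∈ Z <;> simp_all
    · have := hx n
      by_cases h : n ∈ Z <;> simp_all
  obtain ⟨Cl, hCl, Bad₁, Bad₂, m2, s1, s2, H⟩ := rigid θ hq mZ sZ hZ inv
  obtain ⟨g, gZ, hg⟩ := partC θ hq hCl m2 s1 s2 H hf1 (κ := fun a => 2 * encode a) (by fun_prop)
    (fun c n s h b => (hθ c n s b).1 h) (fun c n s h => by
      by_contra! h'
      obtain ⟨y, yZ, hy⟩ := partA θ hq hCl m2 s1 s2 H (κ := fun b => 2 * encode ((c, n, s), b))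
        (by fun_prop) (fun b => (hθ c n s b).2 h) h' sZ
      exact (hcon _ (hZ y yZ)).1 hy) sZ
  obtain ⟨r, hr, h⟩ := (hcon _ (hZ g gZ)).2
  have : r ∈ Set.range f := by rw [← hf]; exact hr
  obtain ⟨c, rfl⟩ := this
  exact h (hg c)

/-- A degree-invariant c.e. operator is, at some set, computable or complete. -/
theorem main {q : (ℕ × List Bool) × ℕ → Prop} (hq : PrimrecPred q)
    (inv : ∀ X Y : Set ℕ, TuringReducible (chi X) (chi Y) → TuringReducible (chi Y) (chi X) →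
      TuringReducible (chi (Wf q X)) (chi (Wf q Y)))
    (h3 : ∀ X, ¬ TuringReducible (chi (Wf q X)) (chi X)) :
    ∃ X : Set ℕ, TuringReducible (chi X) (chi (Wf q X)) →
      ∀ r, PrimrecPred r → TuringReducible (chi (Wf r X)) (chi (Wf q X)) := by
  obtain ⟨X, -, h⟩ := main_cone hq ∅ fun X Y _ => inv X Y
  exact ⟨X, fun h1 r hr => (h.resolve_left (h3 X) r hr).trans (join_red h1)⟩

end Pool.Agent.MP_d9ba76_lc
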