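import Pool.Agent.MP_d9ba76_lc.Space
import Pool.Agent.MP_d9ba76_lc.Core
import Pool.Agent.MP_d9ba76_lc.Gap

/-! Degree invariance gives a uniform enumeration along most of an orbit. -/

set_option autoImplicit false

open MeasureTheory Encodable
open scoped symmDiff

namespace Pool.Agent.MP_d9ba76_lc

theorem exists_enum_ce (α : Type) [Primcodable α] :
    ∃ f : ℕ → α × ℕ → Prop, (∀ k, PrimrecPred (f k)) ∧
      ∀ p : α → Prop, CE p → ∃ k, ∀ a, p a ↔ ∃ w, f k (a, w) := by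
  obtain ⟨f, hf⟩ := (countable_primrecPred (α × ℕ)).exists_eq_range ⟨fun _ => True, pp_const _⟩
  refine ⟨f, fun k => ?_, ?_⟩
  · have : f k ∈ Set.range f := ⟨k, rfl⟩
    rw [← hf] at this
    exact this
  · rintro p ⟨q, hq, h⟩
    have : q ∈ Set.range f := by rw [← hf]; exact hq
    obtain ⟨k, rfl⟩ := this
    exact ⟨k, h⟩

/-- A reduction which exists at every point is uniform off a small set. -/
theorem edge (μ : Measure Om) [IsProbabilityMeasure μ] {A₁ A₂ : Om → Set ℕ}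
    (h₁ : EO pos0 fun n x => n ∈ A₁ x) (h₂ : EO pos0 fun n x => n ∈ A₂ x)
    {Z₀ : Set Om} (mZ : MeasurableSet Z₀) (sZ : μ.real Z₀ ≤ 0)
    (hT : ∀ x ∉ Z₀, TuringReducible (chi (A₂ x)) (chi (A₁ x))) {ε : ℝ} (hε : 0 < ε) :
    ∃ Θ : Om → Set ℕ → Set ℕ, EO (posS pos0) (fun n (z : Om × Set ℕ) => n ∈ Θ z.1 z.2) ∧
      ∃ Bad : Set Om, μ.real Bad ≤ ε ∧ ∀ x ∉ Bad, Θ x (A₁ x)ᶜ = (A₂ x)ᶜ := by
  obtain ⟨f, hf, hf'⟩ := exists_enum_ce ((ℕ × Bool) × List (ℕ × Bool))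
  let Θ : ℕ → Om → Set ℕ → Set ℕ := fun k x M => {n | ∃ L : List (ℕ × Bool),
    (∃ w, f k (((n, false), L), w)) ∧
      ∀ p ∈ L, (p.2 = true ∧ p.1 ∈ A₁ x) ∨ (p.2 = false ∧ p.1 ∈ M)}
  have hΘ : ∀ k, EO (posS pos0) fun n (z : Om × Set ℕ) => n ∈ Θ k z.1 z.2 := fun k =>
    EO.ex (P := fun (y : ℕ × List (ℕ × Bool)) (z : Om × Set ℕ) =>
      (∃ w, f k (((y.1, false), y.2), w)) ∧
        ∀ p ∈ y.2, (p.2 = true ∧ p.1 ∈ A₁ z.1) ∨ (p.2 = false ∧ p.1 ∈ z.2))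
      ((EO.of_ce (CE.comp (p := fun a => ∃ w, f k (a, w)) ⟨f k, hf k, fun _ => Iff.rfl⟩
        (by fun_prop))).and
      (EO.all (P := fun (y : (ℕ × List (ℕ × Bool)) × (ℕ × Bool)) (z : Om × Set ℕ) =>
        (y.2.2 = true ∧ y.2.1 ∈ A₁ z.1) ∨ (y.2.2 = false ∧ y.2.1 ∈ z.2))
        (((EO.of_pred (pp_eq (by fun_prop) (by fun_prop))).and
          (h₁.fst.comp (by fun_prop))).or
        ((EO.of_pred (pp_eq (by fun_prop) (by fun_prop))).and (EO.mem_snd (by fun_prop))))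
        (by fun_prop)))
  let G : ℕ → Set Om := fun k => {x | Θ k x (A₁ x)ᶜ = (A₂ x)ᶜ}
  have hG : ∀ k, MeasurableSet (G k) := by
    intro k
    have e : G k = ⋂ n, {x | n ∈ Θ k x (A₁ x)ᶜ ↔ n ∉ A₂ x} := by
      ext x
      simp [G, Set.ext_iff]
    rw [e]
    refine MeasurableSet.iInter fun n => ?_
    have m1 : MeasurableSet {x | n ∈ Θ k x (A₁ x)ᶜ} :=
      (hΘ k).measurableSet (ξ := fun x => (x, (A₁ x)ᶜ)) (by
        rintro (b | c)
        · exact measurableSet_pos0 b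
        · exact (h₁.meas c).compl) n
    exact measurableSet_setOfPred.2 ((measurableSet_setOfPred.1 m1).iff
      (measurableSet_setOfPred.1 (h₂.meas n)).not)
  have hcov : ∀ x ∉ Z₀, ∃ k, x ∈ G k := by
    intro x hx
    obtain ⟨Q, hQ, H⟩ := use_principle (hT x hx)
    obtain ⟨k, hk⟩ := hf' Q hQ
    refine ⟨k, Set.ext fun n => ?_⟩
    have := H (n, false)
    simp only [lits, Set.mem_ofPred_eq, Bool.false_eq_true, iff_false] at this
    rw [Set.mem_compl_iff, this]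
    refine exists_congr fun L => and_congr (hk _).symm (forall₂_congr fun p _ => ?_)
    rw [Set.mem_compl_iff]
    cases p.2 <;> simp
  have key : ∀ (K : ℕ) (η : ℝ), 0 < η → ∃ Θ' : Om → Set ℕ → Set ℕ,
      EO (posS pos0) (fun n (z : Om × Set ℕ) => n ∈ Θ' z.1 z.2) ∧
      ∃ Bad : Set Om, μ.real Bad ≤ η ∧ ∀ x ∉ Bad, (∃ k < K, x ∈ G k) →
        Θ' x (A₁ x)ᶜ = (A₂ x)ᶜ := by
    intro K
    induction K with
    | zero => exact fun η hη => ⟨Θ 0, hΘ 0, ∅, by simpa using hη.le, by simp⟩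
    | succ K ih =>
      intro η hη
      obtain ⟨Θ', h1, Bad, h2, h3⟩ := ih (η / 2) (by positivity)
      obtain ⟨C, hC, h4⟩ := exists_clop_approx pp_surj μ (hG K)
        (ENNReal.ofReal_pos.2 (show 0 < η / 2 by positivity))
      refine ⟨fun x M => {n | (x ∈ C ∧ n ∈ Θ K x M) ∨ (x ∈ Cᶜ ∧ n ∈ Θ' x M)},
        ((hC.eo.fst).and (hΘ K)).or ((hC.compl.eo.fst).and h1), Bad ∪ G K ∆ C, ?_, ?_⟩
      · have := ENNReal.toReal_lt_of_lt_ofReal h4
        have h5 := measureReal_union_le (μ := μ) Bad (G K ∆ C)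
        rw [← Measure.real] at this
        linarith
      · intro x hx ⟨k, hk, hxk⟩
        simp only [Set.mem_union, Set.mem_symmDiff, not_or, not_and, not_not] at hx
        by_cases hc : x ∈ C
        · have : Θ K x (A₁ x)ᶜ = (A₂ x)ᶜ := hx.2.2 hc
          ext n
          simp [hc, this]
        · have hk' : k < K := by
            rcases Nat.lt_succ_iff_lt_or_eq.1 hk with h | rfl
            exacts [h, absurd (hx.2.1 hxk) hc]
          have := h3 x hx.1 ⟨k, hk', hxk⟩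
          ext n
          simp [hc, this]
  obtain ⟨K, hK⟩ := exists_small (μ := μ) (s := fun K => {x | ∀ k < K, x ∉ G k} \ Z₀)
    (fun K => by
      have e : {x | ∀ k < K, x ∉ G k} = ⋂ k, ⋂ _ : k < K, (G k)ᶜ := by ext x; simp
      rw [e]
      exact (MeasurableSet.iInter fun k => MeasurableSet.iInter fun _ => (hG k).compl).diff mZ)
    (fun K K' h x hx => ⟨fun k hk => hx.1 k (hk.trans_le h), hx.2⟩)
    (fun x => by
      by_cases hx : x ∈ Z₀
      · exact ⟨0, fun h => h.2 hx⟩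
      obtain ⟨k, hk⟩ := hcov x hx
      exact ⟨k + 1, fun h => h.1 k (Nat.lt_succ_self k) hk⟩)
    (show 0 < ε / 2 by positivity)
  obtain ⟨Θ', h1, Bad, h2, h3⟩ := key K (ε / 2) (by positivity)
  refine ⟨Θ', h1, Bad ∪ {x | ∀ k < K, x ∉ G k} \ Z₀ ∪ Z₀, ?_, fun x hx => ?_⟩
  · have := measureReal_union_le (μ := μ) Bad ({x | ∀ k < K, x ∉ G k} \ Z₀)
    have := measureReal_union_le (μ := μ) (Bad ∪ {x | ∀ k < K, x ∉ G k} \ Z₀) Z₀
    linarith
  · simp only [Set.mem_union, Set.mem_sdiff, Set.mem_ofPred_eq, not_or, not_and, not_not] at hx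
    refine h3 x hx.1.1 ?_
    by_contra! h
    exact hx.2 (hx.1.2 h)

/-- The product measure with parameters depending on the last coordinate only. -/
noncomputable abbrev mu (θ : ℕ → unitInterval) : Measure Om := muT (fun p : II => p.2.2) θ

theorem mp_actB (θ : ℕ → unitInterval) (v : List ℕ) :
    MeasurePreserving (act sB v) (mu θ) (mu θ) := by
  induction v with
  | nil => exact MeasurePreserving.id _
  | cons j v ih => exact (mp_shf _ (rhoB (FreeGroup.of j)) fun _ => rfl).comp ih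

theorem contract (θ : ℕ → unitInterval) (E : Set Om) (hE : (mu θ).real E ≤ 1 / 20) :
    (mu θ).real {x | many 6400 fun i => shf (sA i) x ∈ E} ≤ (mu θ).real E / 4 := by
  have h1 := gap rhoA rhoA_free
    (fun p : II => ProbabilityTheory.bernoulliMeasure true false (θ p.2.2)) (fun _ _ => rfl)
    6400 1 (toMeasurable (mu θ) E) (measurableSet_toMeasurable _ _) 320 (by norm_num)
  change (mu θ).real {x | (320 : ℝ) ≤ |(cnt 6400 sA 1 (toMeasurable (mu θ) E) x : ℝ)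
    - ((6400 : ℕ) : ℝ) ^ 1 * (mu θ).real (toMeasurable (mu θ) E)|}
    ≤ (4 * (6400 : ℕ) : ℝ) ^ 1 * (mu θ).real (toMeasurable (mu θ) E) / 320 ^ 2 at h1
  rw [real_toMeasurable] at h1
  refine (measureReal_mono fun x hx => ?_).trans (h1.trans (le_of_eq (by push_cast; ring)))
  have h2 : many 6400 fun i => shf (sA i) x ∈ toMeasurable (mu θ) E :=
    many_mono (fun i hi => subset_toMeasurable _ _ hi) hx
  have h3 : ∀ N, many N (fun i => shf (sA i) x ∈ toMeasurable (mu θ) E) →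
      N ≤ 10 * cnt N sA 1 (toMeasurable (mu θ) E) x := by
    intro N h
    simp only [cnt, words, List.flatMap_singleton, List.countP_map]
    exact h
  have h4 : (6400 : ℝ) ≤ 10 * (cnt 6400 sA 1 (toMeasurable (mu θ) E) x : ℝ) := by
    exact_mod_cast h3 6400 h2
  rw [Set.mem_ofPred_eq]
  refine le_trans ?_ (le_abs_self _)
  push_cast
  linarith

theorem length_of_mem_words {N m : ℕ} {v : List ℕ} (h : v ∈ words N m) : v.length = m := by
  induction m generalizing v with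
  | zero => simp only [words, List.mem_singleton] at h; simp [h]
  | succ m ih =>
    simp only [words, List.mem_flatMap, List.mem_map, List.mem_range] at h
    obtain ⟨w, hw, j, -, rfl⟩ := h
    simp [ih hw]

theorem EO.most {α β T : Type} [Primcodable α] [Primcodable β] {pos : T → Set β}
    {P : α × ℕ → T → Prop} (h : EO pos P) (N : ℕ) :
    EO pos fun a τ => most N fun i => P (a, i) τ :=
  h.count (l := fun _ => List.range N) (n := fun _ => N / 2 + 1) (by fun_prop) (by fun_prop)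

/-- A uniform family of edge operators. -/
theorem edge_family (μ : Measure Om) [IsProbabilityMeasure μ] {A₁ A₂ : ℕ → Om → Set ℕ}
    (h₁ : ∀ i, EO pos0 fun n x => n ∈ A₁ i x) (h₂ : ∀ i, EO pos0 fun n x => n ∈ A₂ i x)
    {Z₀ : Set Om} (mZ : MeasurableSet Z₀) (sZ : μ.real Z₀ ≤ 0)
    (hT : ∀ i, ∀ x ∉ Z₀, TuringReducible (chi (A₂ i x)) (chi (A₁ i x))) {ε : ℝ} (hε : 0 < ε)
    (N : ℕ) :
    ∃ Θ : ℕ → Om → Set ℕ → Set ℕ,
      EO (posS pos0) (fun (y : ℕ × ℕ) (z : Om × Set ℕ) => y.2 ∈ Θ y.1 z.1 z.2) ∧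
      ∃ Bad : ℕ → Set Om, (∀ i, μ.real (Bad i) ≤ ε) ∧
        ∀ i < N, ∀ x ∉ Bad i, Θ i x (A₁ i x)ᶜ = (A₂ i x)ᶜ := by
  choose Θ hΘ Bad hB hB' using fun i => edge μ (h₁ i) (h₂ i) mZ sZ (hT i) hε
  refine ⟨fun i x M => {n | i < N ∧ n ∈ Θ i x M},
    EO.family (P := fun i n (z : Om × Set ℕ) => n ∈ Θ i z.1 z.2) N hΘ, Bad, hB,
    fun i hi x hx => ?_⟩
  rw [← hB' i x hx]
  ext n
  simp [hi]

/-- Items of the self-correcting computation. -/
abbrev It : Type := (ℕ × List ℕ × List ℕ) × ℕ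

theorem exists_table (N : ℕ) {Θa Θa' Θb : ℕ → Om → Set ℕ → Set ℕ}
    (ha : EO (posS pos0) fun (y : ℕ × ℕ) (z : Om × Set ℕ) => y.2 ∈ Θa y.1 z.1 z.2)
    (ha' : EO (posS pos0) fun (y : ℕ × ℕ) (z : Om × Set ℕ) => y.2 ∈ Θa' y.1 z.1 z.2)
    (hb : EO (posS pos0) fun (y : ℕ × ℕ) (z : Om × Set ℕ) => y.2 ∈ Θb y.1 z.1 z.2) :
    ∃ V : Om × Set ℕ → ℕ → List ℕ → List ℕ → Set ℕ,
      EO (posS pos0) (fun (c : It) z => c.2 ∈ V z c.1.1 c.1.2.1 c.1.2.2) ∧
      ∀ z, V z 0 [] [] = z.2 ∧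
        (∀ i u, V z 0 [] (i :: u) = Θa i (act sA u z.1) (V z 0 [] u)) ∧
        (∀ j v u n, n ∈ V z 0 (j :: v) u ↔ most N fun i =>
          n ∈ Θa' i (act sB (j :: v) (act sA u z.1))
            (Θb j (shf (sA i) (act sB v (act sA u z.1))) (V z 0 v (i :: u)))) ∧
        (∀ k v u n, n ∈ V z (k + 1) v u ↔ most N fun i =>
          n ∈ Θa' i (act sB v (act sA u z.1)) (V z k v (i :: u))) := by
  let G : It → (Om × Set ℕ) × Set It → Prop := fun c z =>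
    (c.1 = (0, [], []) ∧ c.2 ∈ z.1.2) ∨
    (∃ y : ℕ × List ℕ, c.1 = (0, [], y.1 :: y.2) ∧
      c.2 ∈ Θa y.1 (act sA y.2 z.1.1) {n | ((0, [], y.2), n) ∈ z.2}) ∨
    (∃ y : ℕ × List ℕ × List ℕ, c.1 = (0, y.1 :: y.2.1, y.2.2) ∧ most N fun i =>
      c.2 ∈ Θa' i (act sB (y.1 :: y.2.1) (act sA y.2.2 z.1.1))
        (Θb y.1 (shf (sA i) (act sB y.2.1 (act sA y.2.2 z.1.1)))
          {n | ((0, y.2.1, i :: y.2.2), n) ∈ z.2})) ∨
    (∃ y : ℕ × List ℕ × List ℕ, c.1 = (y.1 + 1, y.2.1, y.2.2) ∧ most N fun i =>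
      c.2 ∈ Θa' i (act sB y.2.1 (act sA y.2.2 z.1.1)) {n | ((y.1, y.2.1, i :: y.2.2), n) ∈ z.2})
  have base : ∀ {α : Type} [Primcodable α],
      Cmp (posS (posS pos0)) fun (_ : α) (z : (Om × Set ℕ) × Set It) => z.1.1 :=
    fun {α} _ => EO.fst (pos := posS pos0)
      (P := fun (y : α × (ℕ × Bool)) (z : Om × Set ℕ) => y.2 ∈ pos0 z.1) Cmp.fst
  have g1 : EO (posS (posS pos0)) fun (c : It) (z : (Om × Set ℕ) × Set It) =>
      c.1 = (0, [], []) ∧ c.2 ∈ z.1.2 :=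
    (EO.of_pred (pp_eq (by fun_prop) (by fun_prop))).and
      (EO.fst (pos := posS pos0) (P := fun (c : It) (z : Om × Set ℕ) => c.2 ∈ z.2)
        (EO.mem_snd (by fun_prop)))
  have g2 : EO (posS (posS pos0)) fun (w : It × ℕ × List ℕ) (z : (Om × Set ℕ) × Set It) =>
      w.1.1 = (0, [], w.2.1 :: w.2.2) ∧
      w.1.2 ∈ Θa w.2.1 (act sA w.2.2 z.1.1) {n | ((0, [], w.2.2), n) ∈ z.2} :=
    (EO.of_pred (pp_eq (by fun_prop) (by fun_prop))).and
      ((base.actA (u := fun w : It × ℕ × List ℕ => w.2.2) (by fun_prop)).eoS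
        (M := fun w z => {n | ((0, [], w.2.2), n) ∈ z.2})
        (EO.mem_snd (f := fun y : (It × ℕ × List ℕ) × ℕ => (((0, [], y.1.2.2), y.2) : It))
          (by fun_prop)) ha (f := fun w => (w.2.1, w.1.2)) (by fun_prop))
  have g3a : EO (posS (posS pos0)) fun (y : ((It × ℕ × List ℕ × List ℕ) × ℕ) × ℕ)
      (z : (Om × Set ℕ) × Set It) =>
      y.2 ∈ Θb y.1.1.2.1 (shf (sA y.1.2) (act sB y.1.1.2.2.1 (act sA y.1.1.2.2.2 z.1.1)))
          {n | ((0, y.1.1.2.2.1, y.1.2 :: y.1.1.2.2.2), n) ∈ z.2} :=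
    (((base.actA (u := fun y : ((It × ℕ × List ℕ × List ℕ) × ℕ) × ℕ => y.1.1.2.2.2)
      (by fun_prop)).actB (u := fun y => y.1.1.2.2.1) (by fun_prop)).shfA
        (u := fun y => y.1.2) (by fun_prop)).eoS
      (M := fun y z => {n | ((0, y.1.1.2.2.1, y.1.2 :: y.1.1.2.2.2), n) ∈ z.2})
      (EO.mem_snd (f := fun x : (((It × ℕ × List ℕ × List ℕ) × ℕ) × ℕ) × ℕ =>
        (((0, x.1.1.1.2.2.1, x.1.1.2 :: x.1.1.1.2.2.2), x.2) : It)) (by fun_prop))
      hb (f := fun y => (y.1.1.2.1, y.2)) (by fun_prop)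
  have g3 : EO (posS (posS pos0)) fun (w : It × ℕ × List ℕ × List ℕ)
      (z : (Om × Set ℕ) × Set It) => w.1.1 = (0, w.2.1 :: w.2.2.1, w.2.2.2) ∧ most N fun i =>
      w.1.2 ∈ Θa' i (act sB (w.2.1 :: w.2.2.1) (act sA w.2.2.2 z.1.1))
        (Θb w.2.1 (shf (sA i) (act sB w.2.2.1 (act sA w.2.2.2 z.1.1)))
          {n | ((0, w.2.2.1, i :: w.2.2.2), n) ∈ z.2}) :=
    (EO.of_pred (pp_eq (by fun_prop) (by fun_prop))).and
      (EO.most (((base.actA (u := fun y : (It × ℕ × List ℕ × List ℕ) × ℕ => y.1.2.2.2)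
        (by fun_prop)).actB (u := fun y => y.1.2.1 :: y.1.2.2.1) (by fun_prop)).eoS
        (M := fun y z => Θb y.1.2.1 (shf (sA y.2) (act sB y.1.2.2.1 (act sA y.1.2.2.2 z.1.1)))
          {n | ((0, y.1.2.2.1, y.2 :: y.1.2.2.2), n) ∈ z.2}) g3a ha'
        (f := fun y => (y.2, y.1.1.2)) (by fun_prop)) N)
  have g4 : EO (posS (posS pos0)) fun (w : It × ℕ × List ℕ × List ℕ)
      (z : (Om × Set ℕ) × Set It) => w.1.1 = (w.2.1 + 1, w.2.2.1, w.2.2.2) ∧ most N fun i =>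
      w.1.2 ∈ Θa' i (act sB w.2.2.1 (act sA w.2.2.2 z.1.1))
        {n | ((w.2.1, w.2.2.1, i :: w.2.2.2), n) ∈ z.2} :=
    (EO.of_pred (pp_eq (by fun_prop) (by fun_prop))).and
      (EO.most (((base.actA (u := fun y : (It × ℕ × List ℕ × List ℕ) × ℕ => y.1.2.2.2)
        (by fun_prop)).actB (u := fun y => y.1.2.2.1) (by fun_prop)).eoS
        (M := fun y z => {n | ((y.1.2.1, y.1.2.2.1, y.2 :: y.1.2.2.2), n) ∈ z.2})
        (EO.mem_snd (f := fun x : ((It × ℕ × List ℕ × List ℕ) × ℕ) × ℕ =>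
          (((x.1.1.2.1, x.1.1.2.2.1, x.1.2 :: x.1.1.2.2.2), x.2) : It)) (by fun_prop)) ha'
        (f := fun y => (y.2, y.1.1.2)) (by fun_prop)) N)
  have hG : EO (posS (posS pos0)) G := g1.or (g2.ex.or (g3.ex.or g4.ex))
  obtain ⟨S, hS, hfix⟩ := hG.exists_fix
  refine ⟨fun z k v u => {n | ((k, v, u), n) ∈ S z}, hS, fun z => ⟨?_, ?_, ?_, ?_⟩⟩
  · ext n
    rw [Set.mem_ofPred_eq, hfix]
    simp [G]
  · intro i u
    ext n
    rw [Set.mem_ofPred_eq, hfix]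
    simp [G]
  · intro j v u n
    rw [Set.mem_ofPred_eq, hfix]
    simp [G]
  · intro k v u n
    rw [Set.mem_ofPred_eq, hfix]
    simp [G]

theorem rigid (θ : ℕ → unitInterval) {q : (ℕ × List Bool) × ℕ → Prop} (hq : PrimrecPred q)
    {Z : Set ℕ} {Z₀ : Set Om} (mZ : MeasurableSet Z₀) (sZ : (mu θ).real Z₀ ≤ 0)
    (hZ : ∀ x ∉ Z₀, TuringReducible (chi Z) (chi (enc pp x)))
    (inv : ∀ X Y : Set ℕ, TuringReducible (chi Z) (chi X) →
      TuringReducible (chi X) (chi Y) → TuringReducible (chi Y) (chi X) →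
      TuringReducible (chi (Wf q X)) (chi (Wf q Y))) :
    ∃ Cl : List ℕ × ℕ → Om × Set ℕ → Prop, EO (posS pos0) Cl ∧
      ∃ Bad₁ Bad₂ : Set Om, MeasurableSet Bad₂ ∧ (mu θ).real Bad₁ ≤ 1 / 20 ∧
        (mu θ).real Bad₂ ≤ 1 / 20 ∧ ∀ x ∉ Bad₁, ∀ m, ∀ v ∈ words 6400 m, act sB v x ∉ Bad₂ →
          ∀ n, Cl (v, n) (x, (Wf q (enc pp x))ᶜ) ↔ n ∉ Wf q (enc pp (act sB v x)) := by
  have e0 : EO pos0 fun n x => n ∈ Wf q (enc pp x) := eo_Wf hq
  have e1 : ∀ u v, EO pos0 fun n x => n ∈ Wf q (enc pp (sh u v x)) := fun u v =>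
    (Cmp.id.sh (u := fun _ : ℕ => u) (v := fun _ => v) (by fun_prop) (by fun_prop)).eo e0
      Primrec.id
  have hε : (0 : ℝ) < 1 / 1500 := by norm_num
  obtain ⟨Θa, ha, Ba, sa, ca⟩ := edge_family (mu θ) (A₁ := fun _ x => Wf q (enc pp x))
    (A₂ := fun i x => Wf q (enc pp (sh [(i, false)] [] x))) (fun _ => e0) (fun _ => e1 _ _)
    mZ sZ (fun i x hx => inv _ _ ((hZ x hx).trans (red_sh' _ _ x)) (red_sh _ _ x)
      (red_sh' _ _ x)) hε 6400
  obtain ⟨Θa', ha', Ba', sa', ca'⟩ := edge_family (mu θ) (A₂ := fun _ x => Wf q (enc pp x))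
    (A₁ := fun i x => Wf q (enc pp (sh [(i, false)] [] x))) (fun _ => e1 _ _) (fun _ => e0)
    mZ sZ (fun i x hx => inv _ _ (hZ x hx) (red_sh' _ _ x) (red_sh _ _ x)) hε 6400
  obtain ⟨Θb, hb, Bb, sb, cb⟩ := edge_family (mu θ) (A₁ := fun _ x => Wf q (enc pp x))
    (A₂ := fun i x => Wf q (enc pp (sh [] [(i, false)] x))) (fun _ => e0) (fun _ => e1 _ _)
    mZ sZ (fun i x hx => inv _ _ ((hZ x hx).trans (red_sh' _ _ x)) (red_sh _ _ x)
      (red_sh' _ _ x)) hε 6400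
  simp only [← shf_sA, ← shf_sB] at ca ca' cb
  obtain ⟨Bad₁, Bad₂, m2, s1, s2, H⟩ := rigid_core (μ := mu θ) (N := 6400) (by norm_num)
    (by norm_num) (fun i => shf (sA i)) (fun j => shf (sB j)) (act sA) (act sB) (fun _ => rfl)
    (fun _ _ _ => rfl) (fun _ => rfl) (fun _ _ _ => rfl) shf_comm (contract θ)
    (fun v E => real_preimage_le (mp_actB θ v) E) (fun x => (Wf q (enc pp x))ᶜ) Θa Θa' Θb
    Ba Ba' Bb ca ca' cb (by norm_num) sa sa' sb
  obtain ⟨V, hV, hV'⟩ := exists_table 6400 ha ha' hb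
  refine ⟨fun y z => y.2 ∈ V z (7 * y.1.length) y.1 [],
    hV.comp (f := fun y : List ℕ × ℕ => ((7 * y.1.length, y.1, []), y.2)) (by fun_prop),
    Bad₁, Bad₂, m2, by linarith, by linarith, fun x hx m v hv hy n => ?_⟩
  obtain ⟨k0, k1, k2, k3⟩ := hV' (x, (Wf q (enc pp x))ᶜ)
  have := H x _ k0 k1 k2 k3 hx m v hv hy
  simp only [length_of_mem_words hv, this, Set.mem_compl_iff]

end Pool.Agent.MP_d9ba76_lc
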