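import Pool.Agent.MP_d9ba76_lc.Defs
import Pool.Agent.Lib.Oracle.NormalForm

/-! Turing reducibility of sets is enumeration reducibility of their literals. -/

set_option autoImplicit false

namespace Pool.Agent.MP_d9ba76_lc

open Encodable Nat.Partrec

theorem ce_of_re {α : Type} [Primcodable α] {p : α → Prop} (h : REPred p) : CE p := by
  obtain ⟨c, hc⟩ := Code.exists_code.mp h
  refine ⟨fun x => (Code.evaln x.2 c (encode x.1)).isSome = true, ?_, fun a => ?_⟩
  · exact Primrec.eq.comp (Primrec.option_isSome.comp (Code.primrec_evaln.comp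
      ((Primrec.snd.pair (Primrec.const c)).pair (Primrec.encode.comp Primrec.fst))))
      (Primrec.const true)
  · have h1 : p a ↔ ∃ y, y ∈ Code.eval c (encode a) := by
      rw [hc]
      simp [Part.mem_assert_iff]
    rw [h1]
    simp only [Code.evaln_complete, Option.isSome_iff_exists, Option.mem_def]
    exact exists_comm

theorem ce_of_primrecPred {α : Type} [Primcodable α] {p : α → Prop} (h : PrimrecPred p) : CE p :=
  ⟨fun x => p x.1, h.comp Primrec.fst, fun _ => ⟨fun h => ⟨0, h⟩, fun h => h.choose_spec⟩⟩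

theorem countable_primrecPred (α : Type) [Primcodable α] :
    {q : α → Prop | PrimrecPred q}.Countable := by
  classical
  refine Set.MapsTo.countable_of_injOn
    (f := fun q n => ((decode (α := α) n).map fun a => decide (q a)).getD false)
    (fun q hq => ?_) (fun q _ q' _ h => ?_)
    (Lib.Oracle.countable_computableIn_bool fun _ => false)
  · exact (Primrec.option_getD.comp (Primrec.option_map Primrec.decode
      ((PrimrecPred.decide hq).comp Primrec.snd).to₂) (Primrec.const false)).computableIn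
  · funext a
    simpa using congrFun h (encode a)

open Classical in
/-- The bits of a set. -/
noncomputable def bits (A : Set ℕ) (n : ℕ) : Bool := decide (n ∈ A)

theorem chi_eq (A : Set ℕ) : chi A = Lib.Oracle.chi (bits A) := by
  funext n
  by_cases h : n ∈ A <;> simp [chi, Lib.Oracle.chi, bits, h]

theorem mem_lits {A : Set ℕ} {p : ℕ × Bool} : p ∈ lits A ↔ bits A p.1 = p.2 := by
  obtain ⟨n, b⟩ := p
  by_cases h : n ∈ A <;> cases b <;> simp [lits, bits, h]

/-- Use principle. -/
theorem use_principle {A B : Set ℕ} (h : TuringReducible (chi B) (chi A)) :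
    ∃ Q : (ℕ × Bool) × List (ℕ × Bool) → Prop, CE Q ∧
      ∀ p, p ∈ lits B ↔ ∃ L, Q (p, L) ∧ ∀ q ∈ L, q ∈ lits A := by
  rw [chi_eq, chi_eq] at h
  obtain ⟨c, hc, hB⟩ := Lib.Oracle.exists_good_code (bits A)
    (Lib.Oracle.cin_toNat (Lib.Oracle.red_chi_iff.mp h))
  refine ⟨fun x => Lib.Oracle.Phi c (x.2.map Prod.snd) x.1.1 = some x.1.2.toNat ∧
    x.2.map Prod.fst = List.range x.2.length, ce_of_primrecPred ?_,
    fun p => ⟨fun hp => ?_, ?_⟩⟩
  · have hL : Primrec fun x : (ℕ × Bool) × List (ℕ × Bool) => x.2 := Primrec.snd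
    have hp : Primrec fun x : (ℕ × Bool) × List (ℕ × Bool) => x.1 := Primrec.fst
    refine PrimrecPred.and (Primrec.eq.comp (Lib.Oracle.primrec_Phi.comp ((Primrec.const c).pair
      ((Primrec.list_map hL (Primrec.snd.comp Primrec.snd).to₂).pair (Primrec.fst.comp hp))))
      (Primrec.option_some.comp ((Primrec.dom_bool Bool.toNat).comp (Primrec.snd.comp hp))))
      (Primrec.eq.comp (Primrec.list_map hL (Primrec.fst.comp Primrec.snd).to₂)
        (Primrec.list_range.comp (Primrec.list_length.comp hL)))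
  · obtain ⟨N, hN⟩ := (hB p.1).exists
    refine ⟨(List.range N).map fun i => (i, bits A i), ⟨?_, ?_⟩, fun q hq => ?_⟩
    · rw [← mem_lits.mp hp, ← hN, List.map_map]; rfl
    · simp [List.map_map, Function.comp_def]
    · obtain ⟨i, -, rfl⟩ := List.mem_map.mp hq
      exact mem_lits.mpr rfl
  · rintro ⟨L, ⟨h1, h2⟩, h3⟩
    have h4 : L.map Prod.snd = Lib.Oracle.pre (bits A) L.length := by
      rw [Lib.Oracle.pre, ← h2, List.map_map]
      exact List.map_congr_left fun q hq => (mem_lits.mp (h3 q hq)).symm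
    obtain ⟨N, hN1, hN2⟩ := ((hB p.1).and (Filter.eventually_ge_atTop L.length)).exists
    rw [h4] at h1
    rw [Lib.Oracle.Phi_mono hc (Lib.Oracle.pre_isPrefix _ hN2) h1] at hN1
    rw [mem_lits]
    revert hN1
    cases bits B p.1 <;> cases p.2 <;> simp

/-- Post's theorem relative to an oracle. -/
theorem post {A B : Set ℕ} (Q : (ℕ × Bool) × List (ℕ × Bool) → Prop) (hQ : CE Q)
    (h : ∀ p, p ∈ lits B ↔ ∃ L, Q (p, L) ∧ ∀ q ∈ L, q ∈ lits A) :
    TuringReducible (chi B) (chi A) := by
  classical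
  rw [chi_eq, chi_eq]
  refine Lib.Oracle.red_chi_iff.mpr ?_
  obtain ⟨q, hq, hQ⟩ := hQ
  obtain ⟨D, hD, hDe⟩ : ∃ D : ℕ → Bool × List (ℕ × Bool) × ℕ × ℕ, Primrec D ∧
      ∀ t, D (encode t) = t :=
    ⟨fun k => (decode k).getD (false, [], 0, 0),
      Primrec.option_getD.comp Primrec.decode (Primrec.const _), fun t => by simp⟩
  let T : (ℕ × ℕ) × List Bool → Prop := fun x =>
    q (((x.1.1, (D x.1.2).1), (D x.1.2).2.1), (D x.1.2).2.2.1) ∧
      ∀ u ∈ (D x.1.2).2.1, x.2[u.1]? = some u.2
  have hT : PrimrecPred T := by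
    have h1 : Primrec fun x : (ℕ × ℕ) × List Bool => D x.1.2 :=
      hD.comp (Primrec.snd.comp Primrec.fst)
    have h2 : Primrec fun x : (ℕ × ℕ) × List Bool => (D x.1.2).2.1 :=
      Primrec.fst.comp (Primrec.snd.comp h1)
    have h3 : PrimrecRel fun (u : ℕ × Bool) (σ : List Bool) => σ[u.1]? = some u.2 :=
      Primrec.eq.comp (Primrec.list_getElem?.comp Primrec.snd (Primrec.fst.comp Primrec.fst))
        (Primrec.option_some.comp (Primrec.snd.comp Primrec.fst))
    have h4 : Primrec fun x : (ℕ × ℕ) × List Bool =>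
        (((x.1.1, (D x.1.2).1), (D x.1.2).2.1), (D x.1.2).2.2.1) :=
      (((Primrec.fst.comp Primrec.fst).pair (Primrec.fst.comp h1)).pair h2).pair
        (Primrec.fst.comp (Primrec.snd.comp (Primrec.snd.comp h1)))
    exact PrimrecPred.and (hq.comp h4) (h3.forall_mem_list.comp h2 Primrec.snd)
  let p : ℕ → ℕ → Bool := fun n k => decide (T ((n, k), Lib.Oracle.pre (bits A) (D k).2.2.2))
  have hp : ComputableIn {Lib.Oracle.chi (bits A)} fun x : ℕ × ℕ => p x.1 x.2 := by
    have h1 : Primrec fun x : ℕ × ℕ => (D x.2).2.2.2 :=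
      Primrec.snd.comp (Primrec.snd.comp (Primrec.snd.comp (hD.comp Primrec.snd)))
    have h2 := Lib.Oracle.cin_comp (Lib.Oracle.cin_pre (Lib.Oracle.cin_self (bits A)))
      h1.computableIn
    have h3 := Lib.Oracle.cin_pair (f := fun x : ℕ × ℕ => x) Primrec.id.computableIn h2
    exact Lib.Oracle.cin_comp (f := fun x => decide (T x)) hT.decide.computableIn h3
  have hex : ∀ n, ∃ k, p n k = true := by
    intro n
    obtain ⟨L, h1, h2⟩ := (h (n, bits B n)).mp (mem_lits.mpr rfl)
    obtain ⟨w, hw⟩ := (hQ _).mp h1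
    refine ⟨encode (bits B n, L, w, (L.map Prod.fst).sum + 1), ?_⟩
    simp only [p, T, hDe, decide_eq_true_eq]
    refine ⟨hw, fun u hu => ?_⟩
    rw [Lib.Oracle.getElem?_pre _ (Nat.lt_succ_of_le
      (List.le_sum_of_mem (List.mem_map_of_mem hu))), mem_lits.mp (h2 u hu)]
  refine Lib.Oracle.cin_of_eq (Lib.Oracle.cin_comp (Primrec.fst.comp hD).computableIn
    (Lib.Oracle.cin_find hp hex)) fun n => ?_
  have h1 := Nat.find_spec (hex n)
  generalize Nat.find (hex n) = k at h1
  simp only [p, T, decide_eq_true_eq] at h1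
  refine (mem_lits.mp ((h (n, (D k).1)).mpr ⟨_, (hQ _).mpr ⟨_, h1.1⟩, fun u hu => ?_⟩)).symm
  have h2 := h1.2 u hu
  have h3 : u.1 < (D k).2.2.2 := by
    have := (List.getElem?_eq_some_iff.mp h2).1
    simpa [Lib.Oracle.pre] using this
  rw [Lib.Oracle.getElem?_pre _ h3] at h2
  exact mem_lits.mpr (Option.some.inj h2)

end Pool.Agent.MP_d9ba76_lc
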