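import Pool.Agent.MP_d9ba76_lc.EO
import Pool.Agent.MP_d9ba76_lc.Turing
import Pool.Agent.MP_d9ba76_lc.Cells

/-! The space of configurations, its two commuting shifts, and c.e. operators on it. -/

set_option autoImplicit false

open Encodable

namespace Pool.Agent.MP_d9ba76_lc

abbrev II : Type := FreeGroup ℕ × FreeGroup ℕ × ℕ

abbrev JJ : Type := List (ℕ × Bool) × List (ℕ × Bool) × ℕ

abbrev Om : Type := II → Bool

def pt (j : JJ) : II := (FreeGroup.mk j.1, FreeGroup.mk j.2.1, j.2.2)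

def dj (n : ℕ) : JJ := (decode (α := JJ) n).getD ([], [], 0)

def pp (n : ℕ) : II := pt (dj n)

theorem pp_encode (j : JJ) : pp (encode j) = pt j := by simp [pp, dj]

theorem pp_surj : Function.Surjective pp := by
  rintro ⟨g, h, k⟩
  exact ⟨encode ((g.toWord, h.toWord, k) : JJ), by rw [pp_encode]; simp [pt, FreeGroup.mk_toWord]⟩

@[fun_prop] theorem pr_dj {α : Type} [Primcodable α] {f : α → ℕ} (hf : Primrec f) :
    Primrec fun a => dj (f a) := by unfold dj; fun_prop

def rhoA : FreeGroup ℕ →* Equiv.Perm II :=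
  MonoidHom.mk' (fun g => Equiv.prodCongr (Equiv.mulRight g⁻¹) (Equiv.refl _)) fun g h => by
    ext p <;> simp [mul_assoc]

def rhoB : FreeGroup ℕ →* Equiv.Perm II :=
  MonoidHom.mk' (fun g => Equiv.prodCongr (Equiv.refl _)
    (Equiv.prodCongr (Equiv.mulRight g⁻¹) (Equiv.refl _))) fun g h => by
    ext p <;> simp [mul_assoc]

theorem rhoA_apply (g : FreeGroup ℕ) (p : II) : rhoA g p = (p.1 * g⁻¹, p.2) := rfl

theorem rhoB_apply (g : FreeGroup ℕ) (p : II) : rhoB g p = (p.1, p.2.1 * g⁻¹, p.2.2) := rfl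

theorem rhoA_free (g : FreeGroup ℕ) (p : II) (h : rhoA g p = p) : g = 1 := by
  have := congrArg Prod.fst h
  simpa [rhoA_apply] using this

theorem rhoB_free (g : FreeGroup ℕ) (p : II) (h : rhoB g p = p) : g = 1 := by
  have := congrArg (fun z : II => z.2.1) h
  simpa [rhoB_apply] using this

def sA (j : ℕ) : II → II := rhoA (FreeGroup.of j)

def sB (j : ℕ) : II → II := rhoB (FreeGroup.of j)

/-- The general two-sided shift. -/
def sh (u v : List (ℕ × Bool)) (x : Om) : Om :=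
  fun p => x (p.1 * FreeGroup.mk u, p.2.1 * FreeGroup.mk v, p.2.2)

theorem sh_sh (u v u' v' : List (ℕ × Bool)) (x : Om) :
    sh u v (sh u' v' x) = sh (u ++ u') (v ++ v') x := by
  funext p
  simp [sh, ← FreeGroup.mul_mk, mul_assoc]

theorem of_inv (j : ℕ) : (FreeGroup.of j)⁻¹ = FreeGroup.mk [(j, false)] := rfl

theorem mk_nil : (FreeGroup.mk [] : FreeGroup ℕ) = 1 := rfl

theorem shf_sA (j : ℕ) (x : Om) : shf (sA j) x = sh [(j, false)] [] x := by
  funext p
  simp [shf, sh, sA, rhoA_apply, of_inv, mk_nil]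

theorem shf_sB (j : ℕ) (x : Om) : shf (sB j) x = sh [] [(j, false)] x := by
  funext p
  simp [shf, sh, sB, rhoB_apply, of_inv, mk_nil]

theorem sh_nil (x : Om) : sh [] [] x = x := by
  funext p
  simp [sh, mk_nil]

theorem act_sA (u : List ℕ) (x : Om) : act sA u x = sh (u.map fun j => (j, false)) [] x := by
  induction u with
  | nil => exact (sh_nil x).symm
  | cons j u ih => rw [act, ih, shf_sA, sh_sh]; rfl

theorem act_sB (u : List ℕ) (x : Om) : act sB u x = sh [] (u.map fun j => (j, false)) x := by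
  induction u with
  | nil => exact (sh_nil x).symm
  | cons j u ih => rw [act, ih, shf_sB, sh_sh]; rfl

theorem shf_comm (i j : ℕ) (x : Om) : shf (sB j) (shf (sA i) x) = shf (sA i) (shf (sB j) x) := rfl

theorem sh_inv (u v : List (ℕ × Bool)) (x : Om) :
    sh (FreeGroup.invRev u) (FreeGroup.invRev v) (sh u v x) = x := by
  funext p
  simp [sh, ← FreeGroup.inv_mk]

/-- The literals of the code of a configuration. -/
def pos0 (x : Om) : Set (ℕ × Bool) := lits (enc pp x)

theorem mem_pos0 {x : Om} {z : ℕ × Bool} : z ∈ pos0 x ↔ x (pp z.1) = z.2 := by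
  obtain ⟨n, b⟩ := z
  simp only [pos0, lits, enc, Set.mem_ofPred_eq]
  cases x (pp n) <;> cases b <;> simp

theorem measurableSet_pos0 (z : ℕ × Bool) : MeasurableSet {x : Om | z ∈ pos0 x} := by
  simp only [mem_pos0]
  exact measurableSet_eq_fun (measurable_pi_apply (pp z.1)) measurable_const

variable {α α' β : Type} [Primcodable α] [Primcodable α'] [Primcodable β] {T : Type}
  {pos : T → Set β}

theorem eo_pt {f : α → JJ} {g : α → Bool} (hf : Primrec f) (hg : Primrec g) :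
    EO pos0 fun a x => x (pt (f a)) = g a :=
  (EO.lit (pos := pos0) (f := fun a => (encode (f a), g a)) (by fun_prop)).congr fun a x => by
    rw [mem_pos0, pp_encode]

/-- The configuration `ξ a τ` is uniformly computable from the information `pos τ`. -/
def Cmp (pos : T → Set β) (ξ : α → T → Om) : Prop :=
  EO pos fun (z : α × (ℕ × Bool)) τ => z.2 ∈ pos0 (ξ z.1 τ)

theorem Cmp.id : Cmp pos0 fun (_ : α) x => x := EO.lit Primrec.snd

theorem Cmp.fst {γ : Type} [Primcodable γ] :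
    Cmp (posS pos0) fun (_ : α) (z : Om × Set γ) => z.1 :=
  EO.fst (P := fun (z : α × (ℕ × Bool)) x => z.2 ∈ pos0 x) (EO.lit Primrec.snd)

theorem Cmp.comp {ξ : α → T → Om} (h : Cmp pos ξ) {f : α' → α} (hf : Primrec f) :
    Cmp pos fun a τ => ξ (f a) τ :=
  EO.comp h (f := fun z : α' × (ℕ × Bool) => (f z.1, z.2)) (by fun_prop)

theorem Cmp.eo {ξ : α → T → Om} (h : Cmp pos ξ) {P : α' → Om → Prop} (hP : EO pos0 P)
    {f : α → α'} (hf : Primrec f) : EO pos fun a τ => P (f a) (ξ a τ) :=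
  hP.subst h hf

theorem Cmp.sh {ξ : α → T → Om} (h : Cmp pos ξ) {u v : α → List (ℕ × Bool)} (hu : Primrec u)
    (hv : Primrec v) : Cmp pos fun a τ => sh (u a) (v a) (ξ a τ) := by
  refine ((h.comp (f := fun z : α × (ℕ × Bool) => z.1) Primrec.fst).eo
    (eo_pt (f := fun z : α × (ℕ × Bool) =>
      ((dj z.2.1).1 ++ u z.1, (dj z.2.1).2.1 ++ v z.1, (dj z.2.1).2.2)) (g := fun z => z.2.2)
      (by fun_prop) (by fun_prop)) Primrec.id).congr fun z τ => ?_
  rw [mem_pos0]
  simp [Pool.Agent.MP_d9ba76_lc.sh, pp, pt, FreeGroup.mul_mk]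

theorem Cmp.actA {ξ : α → T → Om} (h : Cmp pos ξ) {u : α → List ℕ} (hu : Primrec u) :
    Cmp pos fun a τ => act sA (u a) (ξ a τ) := by
  simp only [act_sA]
  exact h.sh (by fun_prop) (by fun_prop)

theorem Cmp.actB {ξ : α → T → Om} (h : Cmp pos ξ) {u : α → List ℕ} (hu : Primrec u) :
    Cmp pos fun a τ => act sB (u a) (ξ a τ) := by
  simp only [act_sB]
  exact h.sh (by fun_prop) (by fun_prop)

theorem Cmp.shfA {ξ : α → T → Om} (h : Cmp pos ξ) {u : α → ℕ} (hu : Primrec u) :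
    Cmp pos fun a τ => shf (sA (u a)) (ξ a τ) := by
  simp only [shf_sA]
  exact h.sh (by fun_prop) (by fun_prop)

/-- Substitution into an operator on pairs. -/
theorem Cmp.eoS {γ : Type} [Primcodable γ] {ξ : α → T → Om} (h : Cmp pos ξ)
    {M : α → T → Set γ} (hM : EO pos fun (z : α × γ) τ => z.2 ∈ M z.1 τ)
    {P : α' → Om × Set γ → Prop} (hP : EO (posS pos0) P) {f : α → α'} (hf : Primrec f) :
    EO pos fun a τ => P (f a) (ξ a τ, M a τ) :=
  hP.subst (ξ := fun a τ => (ξ a τ, M a τ)) (EO.posS_subst h hM) hf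

theorem red_of_eo {A B : Set ℕ} (h : EO (fun _ : Unit => lits A) fun p _ => p ∈ lits B) :
    TuringReducible (chi B) (chi A) := by
  obtain ⟨Q, hQ, H⟩ := h
  exact post Q hQ fun p => H p ()

theorem eo_of_red {A B : Set ℕ} (h : TuringReducible (chi B) (chi A)) :
    EO (fun _ : Unit => lits A) fun p _ => p ∈ lits B := by
  obtain ⟨Q, hQ, H⟩ := use_principle h
  exact ⟨Q, hQ, fun p _ => H p⟩

theorem red_of_both {A B : Set ℕ} (h : EO (fun _ : Unit => lits A) fun n _ => n ∈ B)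
    (h' : EO (fun _ : Unit => lits A) fun n _ => n ∉ B) : TuringReducible (chi B) (chi A) := by
  refine red_of_eo ((((EO.of_pred (pp_eq (f := fun z : ℕ × Bool => z.2) (g := fun _ => true)
    (by fun_prop) (by fun_prop))).and (h.comp Primrec.fst)).or
    ((EO.of_pred (pp_eq (f := fun z : ℕ × Bool => z.2) (g := fun _ => false)
    (by fun_prop) (by fun_prop))).and (h'.comp Primrec.fst))).congr ?_)
  rintro ⟨n, b⟩ _
  cases b <;> simp [lits]

theorem cmp_self (x : Om) : Cmp (fun _ : Unit => lits (enc pp x)) fun (_ : α) _ => x :=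
  EO.lit (pos := fun _ : Unit => lits (enc pp x)) Primrec.snd

theorem red_sh (u v : List (ℕ × Bool)) (x : Om) :
    TuringReducible (chi (enc pp (sh u v x))) (chi (enc pp x)) :=
  red_of_eo (EO.comp ((cmp_self (α := Unit) x).sh (u := fun _ => u) (v := fun _ => v)
    (by fun_prop) (by fun_prop)) (f := fun p : ℕ × Bool => ((), p)) (by fun_prop))

theorem red_sh' (u v : List (ℕ × Bool)) (x : Om) :
    TuringReducible (chi (enc pp x)) (chi (enc pp (sh u v x))) := by
  have := red_sh (FreeGroup.invRev u) (FreeGroup.invRev v) (sh u v x)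
  rwa [sh_inv] at this

theorem eo_cell : EO pos0 fun (l : List Bool) x => x ∈ cell pp l :=
  (EO.all_lt (P := fun (z : List Bool × ℕ) x => (z.2, z.1.getD z.2 false) ∈ pos0 x)
    (EO.lit (by fun_prop)) Primrec.list_length).congr fun l x => by
    simp only [cell, Pre, pos0, lits, Set.mem_ofPred_eq]
    exact forall₂_congr fun i _ => Iff.comm

theorem eo_not_cell : EO pos0 fun (l : List Bool) x => x ∉ cell pp l :=
  (EO.ex (P := fun (z : List Bool × ℕ) x => z.2 < z.1.length ∧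
      (z.2, !(z.1.getD z.2 false)) ∈ pos0 x)
    ((EO.of_pred (pp_lt (by fun_prop) (by fun_prop))).and (EO.lit (by fun_prop)))).congr
    fun l x => by
    simp only [cell, Pre, pos0, lits, Set.mem_ofPred_eq, not_forall, exists_prop]
    refine exists_congr fun i => and_congr_right fun _ => ?_
    cases l.getD i false <;> simp

theorem Clop.eo {K : Set Om} (h : Clop pp K) : EO pos0 fun (_ : α) x => x ∈ K := by
  obtain ⟨S, rfl⟩ := h.exists_list
  exact EO.ex (P := fun (z : α × List Bool) x => z.2 ∈ S ∧ x ∈ cell pp z.2)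
    ((EO.of_pred (pp_mem (by fun_prop) (by fun_prop))).and (eo_cell.comp Primrec.snd))

/-- The c.e. operator given by a test `q`. -/
def Wf (q : (ℕ × List Bool) × ℕ → Prop) (X : Set ℕ) : Set ℕ :=
  {m | ∃ l w, q ((m, l), w) ∧ Pre l X}

def dq (c : ℕ) : List Bool × ℕ := (decode (α := List Bool × ℕ) c).getD ([], 0)

@[fun_prop] theorem pr_dq {f : α → ℕ} (hf : Primrec f) : Primrec fun a => dq (f a) := by
  unfold dq; fun_prop

/-- The stage `t` approximation of `Wf q X`. -/
def Ws (q : (ℕ × List Bool) × ℕ → Prop) (t : ℕ) (X : Set ℕ) : Set ℕ :=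
  {m | ∃ c < t, q ((m, (dq c).1), (dq c).2) ∧ Pre (dq c).1 X}

variable {q : (ℕ × List Bool) × ℕ → Prop}

theorem Ws_mono {t t' : ℕ} (h : t ≤ t') (X : Set ℕ) : Ws q t X ⊆ Ws q t' X :=
  fun _ ⟨c, hc, h'⟩ => ⟨c, hc.trans_le h, h'⟩

theorem mem_Wf_iff {X : Set ℕ} {m : ℕ} : m ∈ Wf q X ↔ ∃ t, m ∈ Ws q t X := by
  constructor
  · rintro ⟨l, w, h⟩
    exact ⟨encode (l, w) + 1, encode (l, w), Nat.lt_succ_self _, by simpa [dq] using h⟩
  · rintro ⟨t, c, -, h⟩
    exact ⟨_, _, h⟩

theorem Ws_sub (t : ℕ) (X : Set ℕ) : Ws q t X ⊆ Wf q X := fun _ h => mem_Wf_iff.2 ⟨t, h⟩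

theorem eo_Ws (hq : PrimrecPred q) : EO pos0 fun (z : ℕ × ℕ) x => z.2 ∈ Ws q z.1 (enc pp x) :=
  EO.ex (P := fun (y : (ℕ × ℕ) × ℕ) x => y.2 < y.1.1 ∧
      q ((y.1.2, (dq y.2).1), (dq y.2).2) ∧ x ∈ cell pp (dq y.2).1)
    ((EO.of_pred (pp_lt (by fun_prop) (by fun_prop))).and
      ((EO.of_pred (hq.comp (by fun_prop))).and (eo_cell.comp (by fun_prop))))

theorem eo_not_Ws (hq : PrimrecPred q) :
    EO pos0 fun (z : ℕ × ℕ) x => z.2 ∉ Ws q z.1 (enc pp x) :=
  (EO.all_lt (P := fun (y : (ℕ × ℕ) × ℕ) x =>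
      ¬ q ((y.1.2, (dq y.2).1), (dq y.2).2) ∨ x ∉ cell pp (dq y.2).1)
    ((EO.of_pred (hq.comp (by fun_prop)).not).or (eo_not_cell.comp (by fun_prop)))
    Primrec.fst).congr fun z x => by
    simp only [Ws, cell, Set.mem_ofPred_eq, not_exists, not_and]
    exact forall₂_congr fun c _ => by tauto

theorem eo_Wf (hq : PrimrecPred q) : EO pos0 fun (m : ℕ) x => m ∈ Wf q (enc pp x) :=
  (EO.ex (P := fun (z : ℕ × ℕ) x => z.1 ∈ Ws q z.2 (enc pp x))
    ((eo_Ws hq).comp (f := fun z : ℕ × ℕ => (z.2, z.1)) (by fun_prop))).congr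
    fun _ _ => mem_Wf_iff.symm

theorem clop_Ws (t m : ℕ) : Clop pp {x | m ∈ Ws q t (enc pp x)} := by
  refine Clop.exists_lt (K := fun c => {x | q ((m, (dq c).1), (dq c).2) ∧ x ∈ cell pp (dq c).1})
    (fun c => ?_) t
  by_cases h : q ((m, (dq c).1), (dq c).2)
  · simpa [h] using clop_cell (dq c).1
  · simpa [h] using Clop.empty

theorem EO.meas {P : α → Om → Prop} (h : EO pos0 P) (a : α) : MeasurableSet {x | P a x} :=
  h.measurableSet (ξ := fun x => x) measurableSet_pos0 a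

end Pool.Agent.MP_d9ba76_lc
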