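import Pool.Agent.MP_d9ba76_lc.Rigid

/-! Measures of sets are read off from frequencies along the orbit of a typical point. -/

set_option autoImplicit false

open MeasureTheory Encodable

namespace Pool.Agent.MP_d9ba76_lc

open Classical in
/-- The frequency of `P` among the words of some length `m ≥ m₀` exceeds `p / q + 8 ^ (-m)`. -/
def Big (P : List ℕ → Prop) (m₀ p q : ℕ) : Prop :=
  ∃ m, m₀ ≤ m ∧ p * 6400 ^ m + q * 800 ^ m < q * (words 6400 m).countP fun w => decide (P w)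

theorem EO.big {α β T : Type} [Primcodable α] [Primcodable β] {pos : T → Set β}
    {P : α × List ℕ → T → Prop} (h : EO pos P) {m₀ p q : α → ℕ} (hm : Primrec m₀)
    (hp : Primrec p) (hq : Primrec q) :
    EO pos fun a τ => Big (fun w => P (a, w) τ) (m₀ a) (p a) (q a) := by
  classical
  have h1 := EO.count (P := fun (y : (α × ℕ × ℕ) × List ℕ) τ => P (y.1.1, y.2) τ)
    (h.comp (f := fun y : (α × ℕ × ℕ) × List ℕ => (y.1.1, y.2)) (by fun_prop))
    (l := fun y => words 6400 y.2.1) (n := fun y => y.2.2) (by fun_prop) (by fun_prop)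
  refine (EO.ex ((EO.of_pred ((pp_le (f := fun y : α × ℕ × ℕ => m₀ y.1) (g := fun y => y.2.1)
    (by fun_prop) (by fun_prop)).and (pp_lt
      (f := fun y : α × ℕ × ℕ => p y.1 * 6400 ^ y.2.1 + q y.1 * 800 ^ y.2.1)
      (g := fun y => q y.1 * y.2.2) (by fun_prop) (by fun_prop)))).and h1)).congr fun a τ => ?_
  constructor
  · rintro ⟨⟨m, c⟩, ⟨h2, h3⟩, h4⟩
    exact ⟨m, h2, h3.trans_le (Nat.mul_le_mul_left _ h4)⟩
  · rintro ⟨m, h2, h3⟩
    exact ⟨(m, _), ⟨h2, h3⟩, le_rfl⟩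

/-- The point `x` estimates the measures of the sets `E j` correctly. -/
def Accu (θ : ℕ → unitInterval) {J : Type} [Encodable J] (E : J → Set Om) (x : Om) : Prop :=
  ∀ j m, encode j + 2 ≤ m →
    |(cnt 6400 sB m (E j) x : ℝ) - 6400 ^ m * (mu θ).real (E j)| < 800 ^ m

theorem real_not_acc (θ : ℕ → unitInterval) {J : Type} [Encodable J] {E : J → Set Om}
    (hE : ∀ j, MeasurableSet (E j)) : (mu θ).real {x | ¬ Accu θ E x} ≤ 1 / 100 := by
  have h1 : {x | ¬ Accu θ E x} ⊆ ⋃ j, ⋃ k : ℕ, {x | (800 : ℝ) ^ (encode j + 2 + k) ≤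
      |(cnt 6400 sB (encode j + 2 + k) (E j) x : ℝ)
        - 6400 ^ (encode j + 2 + k) * (mu θ).real (E j)|} := by
    intro x hx
    simp only [Accu, not_forall, not_lt, Set.mem_ofPred_eq] at hx
    obtain ⟨j, m, hm, h⟩ := hx
    obtain ⟨k, rfl⟩ := Nat.exists_eq_add_of_le hm
    exact Set.mem_iUnion.2 ⟨j, Set.mem_iUnion.2 ⟨k, h⟩⟩
  refine (measureReal_mono h1).trans ((real_iUnion_enc (c := 1 / 200) (by norm_num)
    fun j => ?_).trans (by norm_num))
  refine (real_iUnion_geom (c := 1 / 400 * (1 / 2) ^ encode j) fun k => ?_).trans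
    (le_of_eq (by ring))
  generalize hm : encode j + 2 + k = m
  have h2 := gap rhoB rhoB_free
    (fun p : II => ProbabilityTheory.bernoulliMeasure true false (θ p.2.2)) (fun _ _ => rfl)
    6400 m (E j) (hE j) (800 ^ m) (by positivity)
  change (mu θ).real {x | (800 : ℝ) ^ m ≤ |(cnt 6400 sB m (E j) x : ℝ)
    - ((6400 : ℕ) : ℝ) ^ m * (mu θ).real (E j)|}
    ≤ (4 * (6400 : ℕ) : ℝ) ^ m * (mu θ).real (E j) / (800 ^ m) ^ 2 at h2
  push_cast at h2
  refine h2.trans ?_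
  have h3 : (mu θ).real (E j) ≤ 1 := measureReal_le_one
  have h4 : ((4 : ℝ) * 6400) ^ m / (800 ^ m) ^ 2 = (1 / 25) ^ m := by
    rw [← pow_mul, mul_comm m 2, pow_mul, ← div_pow]
    norm_num
  calc _ ≤ ((4 : ℝ) * 6400) ^ m * 1 / (800 ^ m) ^ 2 := by gcongr
    _ = (1 / 25) ^ encode j * (1 / 25) ^ 2 * (1 / 25) ^ k := by
      rw [mul_one, h4, ← hm, pow_add, pow_add]
    _ ≤ (1 / 2) ^ encode j * (1 / 400) * (1 / 2) ^ k := by gcongr <;> norm_num
    _ = _ := by ring

variable {θ : ℕ → unitInterval} {J : Type} [Encodable J] {E : J → Set Om} {x : Om}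

theorem Accu.sound (h : Accu θ E x) (j : J) {P : List ℕ → Prop} {p q : ℕ}
    (hP : ∀ m, ∀ w ∈ words 6400 m, P w → act sB w x ∈ E j) (hB : Big P (encode j + 2) p q) :
    (p : ℝ) < q * (mu θ).real (E j) := by
  classical
  obtain ⟨m, hm, h1⟩ := hB
  have h2 := (abs_lt.1 (h j m hm)).2
  have h3 : ((words 6400 m).countP fun w => decide (P w)) ≤ cnt 6400 sB m (E j) x :=
    List.countP_mono_left fun w hw hw' => by simpa using hP m w hw (by simpa using hw')
  have h4 : (p : ℝ) * 6400 ^ m + q * 800 ^ m < q * (cnt 6400 sB m (E j) x : ℝ) := by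
    exact_mod_cast h1.trans_le (Nat.mul_le_mul_left _ h3)
  have h5 : (q : ℝ) * (cnt 6400 sB m (E j) x : ℝ)
      ≤ q * (6400 ^ m * (mu θ).real (E j) + 800 ^ m) :=
    mul_le_mul_of_nonneg_left (by linarith) (Nat.cast_nonneg q)
  have h6 : (0 : ℝ) < 6400 ^ m := by positivity
  refine lt_of_mul_lt_mul_right ?_ h6.le
  linarith

theorem Accu.complete (h : Accu θ E x) (j : J) {P : List ℕ → Prop} {p q : ℕ} (m₀ : ℕ)
    (hP : ∀ m, ∀ w ∈ words 6400 m, act sB w x ∈ E j → P w)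
    (hB : (p : ℝ) < q * (mu θ).real (E j)) : Big P m₀ p q := by
  classical
  obtain ⟨k, hk⟩ := pow_unbounded_of_one_lt (2 * (q : ℝ) / (q * (mu θ).real (E j) - p))
    (show (1 : ℝ) < 8 by norm_num)
  rw [div_lt_iff₀ (by linarith)] at hk
  refine ⟨k + m₀ + (encode j + 2), by omega, ?_⟩
  have hm : encode j + 2 ≤ k + m₀ + (encode j + 2) := by omega
  have hk' : (8 : ℝ) ^ k ≤ 8 ^ (k + m₀ + (encode j + 2)) :=
    pow_le_pow_right₀ (by norm_num) (by omega)
  generalize k + m₀ + (encode j + 2) = m at hm hk'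
  have h2 := (abs_lt.1 (h j m hm)).1
  have h3 : cnt 6400 sB m (E j) x ≤ (words 6400 m).countP fun w => decide (P w) :=
    List.countP_mono_left fun w hw hw' => by simpa using hP m w hw (by simpa using hw')
  refine lt_of_lt_of_le ?_ (Nat.mul_le_mul_left _ h3)
  have h5 : (q : ℝ) * (6400 ^ m * (mu θ).real (E j) - 800 ^ m)
      ≤ q * (cnt 6400 sB m (E j) x : ℝ) :=
    mul_le_mul_of_nonneg_left (by linarith) (Nat.cast_nonneg q)
  have h6 : (6400 : ℝ) ^ m = 800 ^ m * 8 ^ m := by rw [← mul_pow]; norm_num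
  have h7 : (0 : ℝ) < 800 ^ m := by positivity
  have h8 : 2 * (q : ℝ) < 8 ^ m * (q * (mu θ).real (E j) - p) :=
    hk.trans_le (mul_le_mul_of_nonneg_right hk' (by linarith))
  have h9 := mul_lt_mul_of_pos_left h8 h7
  have : (p : ℝ) * 6400 ^ m + q * 800 ^ m < q * (cnt 6400 sB m (E j) x : ℝ) := by
    rw [h6] at h5 ⊢
    nlinarith
  exact_mod_cast this

theorem exists_nat_frac {a b : ℝ} (ha : 0 ≤ a) (hab : a < b) :
    ∃ p q : ℕ, a * q < p ∧ (p : ℝ) < b * q := by
  obtain ⟨q, hq⟩ := exists_nat_gt (1 / (b - a))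
  rw [div_lt_iff₀ (by linarith)] at hq
  refine ⟨⌊a * q⌋₊ + 1, q, by push_cast; exact Nat.lt_floor_add_one _, ?_⟩
  have := Nat.floor_le (show 0 ≤ a * q by positivity)
  push_cast
  linarith

theorem EO.finite_use_lt {α β T : Type} [Primcodable α] [Primcodable β] {pos : T → Set β}
    {P : α → T × Set ℕ → Prop} (h : EO (posS pos) P) {a : α} {τ : T} {M : Set ℕ}
    (hP : P a (τ, M)) : ∃ N, P a (τ, M ∩ {n | n < N}) := by
  obtain ⟨L, h1, h2⟩ := h.finite_use hP
  have : ∃ N, ∀ c : ℕ, Sum.inr c ∈ L → c < N := by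
    clear h1 h2
    induction L with
    | nil => simp
    | cons s L ih =>
      obtain ⟨N, hN⟩ := ih
      rcases s with b | d
      · exact ⟨N, fun c hc => hN c (by simpa using hc)⟩
      · refine ⟨max N (d + 1), fun c hc => ?_⟩
        rcases List.mem_cons.1 hc with e | hc
        · cases e; omega
        · have := hN c hc; omega
  obtain ⟨N, hN⟩ := this
  refine ⟨N, h2 _ ?_⟩
  rintro (b | c) hs
  · exact h1 _ hs
  · exact ⟨h1 _ hs, hN c hs⟩

/-- The coordinate carrying the parameter number `k`. -/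
def co (k : ℕ) : II := pt ([], [], k)

theorem Cmp.co {α β T : Type} [Primcodable α] [Primcodable β] {pos : T → Set β}
    {ξ : α → T → Om} (h : Cmp pos ξ) {k : α → ℕ} (hk : Primrec k) (b : Bool) :
    EO pos fun a τ => ξ a τ (co (k a)) = b :=
  h.eo (eo_pt (f := fun a => ([], [], k a)) (g := fun _ => b) (by fun_prop) (by fun_prop))
    Primrec.id

theorem measurableSet_co (k : ℕ) (b : Bool) : MeasurableSet {x : Om | x (co k) = b} :=
  measurableSet_eq_fun (measurable_pi_apply _) measurable_const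

/-- The points at which the stage `t` approximation is wrong below `N`. -/
def DD (q : (ℕ × List Bool) × ℕ → Prop) (b : ℕ × ℕ) : Set Om :=
  {x | ∃ n < b.1, n ∈ Wf q (enc pp x) ∧ n ∉ Ws q b.2 (enc pp x)}

theorem measurableSet_DD {q : (ℕ × List Bool) × ℕ → Prop} (hq : PrimrecPred q) (b : ℕ × ℕ) :
    MeasurableSet (DD q b) :=
  EO.meas (EO.ex (P := fun (y : (ℕ × ℕ) × ℕ) x => y.2 < y.1.1 ∧ y.2 ∈ Wf q (enc pp x) ∧
      y.2 ∉ Ws q y.1.2 (enc pp x)) ((EO.of_pred (pp_lt (by fun_prop) (by fun_prop))).and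
    (((eo_Wf hq).comp Primrec.snd).and ((eo_not_Ws hq).comp
      (f := fun y : (ℕ × ℕ) × ℕ => (y.1.2, y.2)) (by fun_prop))))) b

end Pool.Agent.MP_d9ba76_lc
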